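import Pool.Agent.Helper57.TA.Jet

/-! THEOREM A: polynomial algebra (substitutions, chain rule), scaled polynomials. -/

set_option autoImplicit false

namespace Pool.Agent.Helper57.TA

open Finset Filter Topology Pool.Agent.Helper69.RK Pool.Agent.Helper31.EC Pool.Agent.Helper31.EC.Sp
open Pool.Agent.Helper31.EC.QS

noncomputable section

section alg

variable {A B : Type*} [CommRing A] [CommRing B] {σ τ : Type*}

/-- chain rule for substitutions which move one variable by another -/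
theorem pderiv_sbs [DecidableEq σ] (φ : σ → MvPolynomial τ A) (i : σ) (j : τ)
    (h : ∀ a, MvPolynomial.pderiv j (φ a) = if a = i then 1 else 0) (P : MvPolynomial σ A) :
    MvPolynomial.pderiv j (MvPolynomial.aeval φ P) = MvPolynomial.aeval φ (MvPolynomial.pderiv i P) := by
  induction P using MvPolynomial.induction_on with
  | C a =>
    rw [MvPolynomial.aeval_C, MvPolynomial.pderiv_C, map_zero, MvPolynomial.algebraMap_eq, MvPolynomial.pderiv_C]
  | add p q hp hq => rw [map_add, map_add, map_add, map_add, hp, hq]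
  | mul_X p a hp =>
    rw [map_mul, MvPolynomial.pderiv_mul, MvPolynomial.pderiv_mul, map_add, map_mul, map_mul, hp,
      MvPolynomial.aeval_X, h, MvPolynomial.pderiv_X]
    by_cases hai : a = i
    · subst hai
      rw [if_pos rfl, Pi.single_eq_same, map_one]
    · rw [if_neg hai, Pi.single_eq_of_ne hai, map_zero]

theorem eval_sbs (φ : σ → MvPolynomial τ A) (y : τ → A) (P : MvPolynomial σ A) :
    MvPolynomial.eval y (MvPolynomial.aeval φ P) = MvPolynomial.eval (fun a => MvPolynomial.eval y (φ a)) P := by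
  induction P using MvPolynomial.induction_on with
  | C a => rw [MvPolynomial.aeval_C, MvPolynomial.algebraMap_eq, MvPolynomial.eval_C, MvPolynomial.eval_C]
  | add p q hp hq => rw [map_add, map_add, map_add, hp, hq]
  | mul_X p a hp => rw [map_mul, map_mul, map_mul, hp, MvPolynomial.aeval_X, MvPolynomial.eval_X]

theorem map_sbs (ψ : A →+* B) (φ : σ → MvPolynomial τ A) (P : MvPolynomial σ A) :
    MvPolynomial.map ψ (MvPolynomial.aeval φ P) =
      MvPolynomial.aeval (fun a => MvPolynomial.map ψ (φ a)) (MvPolynomial.map ψ P) := by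
  induction P using MvPolynomial.induction_on with
  | C a =>
    rw [MvPolynomial.aeval_C, MvPolynomial.algebraMap_eq, MvPolynomial.map_C, MvPolynomial.map_C,
      MvPolynomial.aeval_C, MvPolynomial.algebraMap_eq]
  | add p q hp hq => rw [map_add, map_add, map_add, map_add, hp, hq]
  | mul_X p a hp =>
    rw [map_mul, map_mul, map_mul, map_mul, hp, MvPolynomial.aeval_X, MvPolynomial.map_X, MvPolynomial.aeval_X]

theorem map_sub_coeff_mem (J : Ideal B) (ψ ψ' : A →+* B) (P : MvPolynomial σ A) (x : σ → B)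
    (h : ∀ m, ψ (P.coeff m) - ψ' (P.coeff m) ∈ J) :
    MvPolynomial.eval x (MvPolynomial.map ψ P) - MvPolynomial.eval x (MvPolynomial.map ψ' P) ∈ J := by
  rw [← map_sub]
  apply eval_mem_ideal
  intro m
  rw [MvPolynomial.coeff_sub, MvPolynomial.coeff_map, MvPolynomial.coeff_map]
  exact h m

theorem pderiv_coeff_mem (J : Ideal A) {P : MvPolynomial σ A} (h : ∀ m, P.coeff m ∈ J) (i : σ) (m : σ →₀ ℕ) :
    (MvPolynomial.pderiv i P).coeff m ∈ J := by
  rw [MvPolynomial.coeff_pderiv]
  exact J.mul_mem_right _ (h _)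

end alg

section know

variable {S : Sp}

/-- substitution of known polynomials -/
theorem sbs_PK {σ τ : Type} {A : S.L} {P : MvPolynomial σ (QS S)} (hP : P ∈ PK A) {φ : σ → MvPolynomial τ (QS S)}
    (hφ : ∀ a, φ a ∈ PK A) : MvPolynomial.aeval φ P ∈ PK A := by
  rw [MvPolynomial.aeval_def, MvPolynomial.eval₂_eq]
  apply (PK A).sum_mem
  intro m _
  apply (PK A).mul_mem
  · rw [MvPolynomial.algebraMap_eq]
    exact C_mem (hP m)
  · exact (PK A).prod_mem fun a _ => (PK A).pow_mem (hφ a) _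

variable (S) in
/-- real constants -/
def rcst : ℝ →+* QS S := QS.mk.comp
  { toFun := fun c => ⟨fun _ _ => c, fun _ => |c|, S.Sub_const (abs_nonneg c), Eventually.of_forall fun _ _ _ => le_rfl⟩
    map_one' := rfl
    map_mul' := fun _ _ => rfl
    map_zero' := rfl
    map_add' := fun _ _ => rfl }

theorem dg_rcst (c r : ℝ) : dg (rcst S c) r = ⊥ := by
  apply le_antisymm _ bot_le
  refine (QS.dg_mono _ (le_max_left r 1)).trans ?_
  rw [dg_cut _ (le_max_right r 1)]
  show dg (QS.mk _) 1 ≤ _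
  rw [dg_mk _ le_rfl]
  exact (TR.const_dg _ (Eventually.of_forall fun k ω ω' => rfl) 1).le

theorem qs_rcst {T : Sp} (p : Pj T S) (c : ℝ) : p.qs (rcst S c) = rcst T c := rfl

/-- the inverse of `n + 1` -/
def iv (S : Sp) (n : ℕ) : QS S := rcst S (1 / (n + 1))

theorem iv_mul (n : ℕ) : iv S n * (n + 1) = 1 := by
  have h1 : ((n : QS S) + 1) = rcst S (n + 1) := by rw [map_add, map_one, map_natCast]
  rw [h1, iv, ← map_mul, one_div, inv_mul_cancel₀ (by positivity), map_one]

theorem isUnit_succ (n : ℕ) : IsUnit ((n : QS S) + 1) := IsUnit.of_mul_eq_one (iv S n) (by rw [mul_comm, iv_mul])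

theorem dg_iv (n : ℕ) (r : ℝ) : dg (iv S n) r = ⊥ := dg_rcst _ _

theorem qs_iv {T : Sp} (p : Pj T S) (n : ℕ) : p.qs (iv S n) = iv T n := rfl

theorem natCast_know (A : S.L) (n : ℕ) : dg (n : QS S) 1 ≤ A := by
  have h1 : (n : QS S) = rcst S n := by rw [map_natCast]
  rw [h1, dg_rcst]
  exact bot_le

theorem pderiv_PK {σ : Type} {A : S.L} {P : MvPolynomial σ (QS S)} (hP : P ∈ PK A) (i : σ) :
    MvPolynomial.pderiv i P ∈ PK A := by
  intro m
  rw [MvPolynomial.coeff_pderiv]
  apply (Kn S 1 le_rfl A).mul_mem (hP _)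
  exact (Kn S 1 le_rfl A).add_mem (natCast_know A _) (Kn S 1 le_rfl A).one_mem

theorem rename_PK {σ τ : Type} {A : S.L} {P : MvPolynomial σ (QS S)} (hP : P ∈ PK A) (f : σ → τ) :
    MvPolynomial.rename f P ∈ PK A := by
  have h1 : MvPolynomial.rename f P = MvPolynomial.aeval (fun a => MvPolynomial.X (f a)) P := by
    clear hP
    induction P using MvPolynomial.induction_on with
    | C a => rw [MvPolynomial.rename_C, MvPolynomial.aeval_C, MvPolynomial.algebraMap_eq]
    | add p q hp hq => rw [map_add, map_add, hp, hq]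
    | mul_X p a hp => rw [map_mul, map_mul, hp, MvPolynomial.aeval_X, MvPolynomial.rename_X]
  rw [h1]
  exact sbs_PK hP fun a => X_mem A _

/-- SMALL POLYNOMIALS IN SCALED VARIABLES -/
theorem small_raw {σ : Type} [Fintype σ] {wt : σ → ℝ} (hwt : ∀ a, 0 ≤ wt a) {s : ℝ} (hs : 0 ≤ s) {ξ : σ → QS S}
    {A : S.L} {ℓ : ℝ} (hℓ : 0 < ℓ) (hℓ1 : ℓ ≤ 1) (hξ : Rt ℓ ξ A) {Q : MvPolynomial σ (QS S)} {r₀ r : ℝ}
    (hr : r ≤ r₀) (hr1 : r₀ ≤ 1) (hQ : Q ∈ PKr r₀ hr1 A)
    (hev : MvPolynomial.eval (fun a => sc S (wt a * s) * ξ a) Q ∈ Id S r) (m : σ →₀ ℕ) :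
    Q.coeff m ∈ Id S (r - wgt wt m * s) := by
  classical
  set Q' : MvPolynomial σ (QS S) :=
    ∑ m ∈ Q.support, MvPolynomial.monomial m (sc S (wgt wt m * s) * Q.coeff m) with hQ'
  have hc : ∀ m, Q'.coeff m = sc S (wgt wt m * s) * Q.coeff m := by
    intro m
    rw [hQ', MvPolynomial.coeff_sum]
    simp only [MvPolynomial.coeff_monomial]
    rw [Finset.sum_ite_eq' Q.support m]
    split_ifs with hm
    · rfl
    · rw [MvPolynomial.notMem_support_iff.mp hm, mul_zero]
  have he : MvPolynomial.eval ξ Q' = MvPolynomial.eval (fun a => sc S (wt a * s) * ξ a) Q := by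
    rw [hQ', map_sum, MvPolynomial.eval_eq']
    apply Finset.sum_congr rfl
    intro m _
    rw [MvPolynomial.eval_monomial, mon_scale hwt hs, Finsupp.prod_fintype _ _ fun a => pow_zero _]
    ring
  have hk : Q' ∈ PKr r₀ hr1 A := by
    intro m
    rw [hc]
    apply (Kn S r₀ hr1 A).mul_mem _ (hQ m)
    show dg _ _ ≤ _
    rw [dg_sc]
    exact bot_le
  have h1 := mv_small hℓ hℓ1 hξ hr hr1 hk (by rw [he]; exact hev) m
  rw [hc] at h1
  exact mem_of_sc_mul (mul_nonneg (wgt_nonneg hwt m) hs) (hr.trans hr1) h1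

/-- FLATNESS: polynomials in full variables with small derivatives -/
theorem const_of_pderiv {κ : Type} [Fintype κ] {A : S.L} {R : κ → QS S} {ℓ : ℝ} (hℓ : 0 < ℓ) (hℓ1 : ℓ ≤ 1)
    (hR : Rt ℓ R A) {P : MvPolynomial κ (QS S)} {r : ℝ} (hr1 : r ≤ 1) (hP : P ∈ PK A)
    (h : ∀ l, MvPolynomial.eval R (MvPolynomial.pderiv l P) ∈ Id S r) (y : κ → QS S) :
    MvPolynomial.eval R P - MvPolynomial.eval y P ∈ Id S r := by
  have h1 : ∀ m : κ →₀ ℕ, m ≠ 0 → P.coeff m ∈ Id S r := by
    intro m hm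
    obtain ⟨l, hl⟩ := Finsupp.ne_iff.mp hm
    rw [Finsupp.zero_apply] at hl
    have h2 := mv_small hℓ hℓ1 hR hr1 le_rfl (PKr_of_PK le_rfl (pderiv_PK hP l)) (h l) (m - Finsupp.single l 1)
    rw [MvPolynomial.coeff_pderiv] at h2
    have h3 : m - Finsupp.single l 1 + Finsupp.single l 1 = m := by
      ext a
      by_cases ha : a = l
      · subst ha
        simp only [Finsupp.add_apply, Finsupp.tsub_apply, Finsupp.single_eq_same]
        omega
      · simp [Ne.symm ha]
    rw [h3] at h2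
    rw [mul_comm] at h2
    exact mem_Id_of_unit_mul (isUnit_succ _) h2
  have h2 : MvPolynomial.eval R P - MvPolynomial.eval y P =
      MvPolynomial.eval R (P - MvPolynomial.C (P.coeff 0)) - MvPolynomial.eval y (P - MvPolynomial.C (P.coeff 0)) := by
    rw [map_sub, map_sub, MvPolynomial.eval_C, MvPolynomial.eval_C]
    ring
  have h3 : ∀ m, (P - MvPolynomial.C (P.coeff 0)).coeff m ∈ Id S r := by
    classical
    intro m
    rw [MvPolynomial.coeff_sub, MvPolynomial.coeff_C]
    by_cases hm : 0 = m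
    · subst hm
      rw [if_pos rfl, sub_self]
      exact Ideal.zero_mem _
    · rw [if_neg hm, sub_zero]
      exact h1 m (Ne.symm hm)
  rw [h2]
  exact (Id S r).sub_mem (eval_mem_ideal _ h3 R) (eval_mem_ideal _ h3 y)

end know

end

end Pool.Agent.Helper57.TA
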