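import Pool.Agent.Helper57.TA.Sc

/-! Exact entropy calculus: families of variables whose first digits are full. Small polynomials in such variables
have small coefficients. -/

set_option autoImplicit false

namespace Pool.Agent.Helper57.TA

open Finset Filter Topology Pool.Agent.Helper69.RK Pool.Agent.Helper31.EC Pool.Agent.Helper31.EC.Sp
open Pool.Agent.Helper31.EC.QS

noncomputable section

variable {S : Sp}

/-- the difference of a variable and a variable over which its first digits are full is nondegenerate -/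
theorem isUnit_sub_top {x y : QS S} {ℓ : ℝ} (hℓ : 0 < ℓ) (hℓ1 : ℓ ≤ 1) (hxy : ℓ ≤ h (dg x ℓ) (dg y ℓ)) :
    IsUnit (x - y) := by
  obtain ⟨f, rfl⟩ := mk_surj x
  obtain ⟨g, rfl⟩ := mk_surj y
  rw [← map_sub, isUnit_mk]
  rw [dg_mk _ hℓ1, dg_mk _ hℓ1] at hxy
  apply nd_of_levels
  have key : ∀ δ : ℝ, 0 < δ → δ ≤ ℓ → Typ (fun k ω => S.dl δ k ≤ |TR.ev (f - g) k ω|) := by
    intro δ hδ hδ1
    set y : S.VV 1 := TR.vec (fun _ : Fin 1 => f) with hy
    set z : S.VV 1 := TR.vec (fun _ : Fin 1 => g) with hz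
    have h1 : δ ≤ h (y.dg δ) (z.dg δ) := by
      have a1 : ℓ ≤ h (y.dg ℓ) (z.dg ℓ) := hxy
      have a2 := h_triangle (y.dg ℓ) (y.dg δ) (z.dg ℓ)
      have a3 : h (y.dg ℓ) (y.dg δ ⊔ z.dg ℓ) ≤ h (y.dg ℓ) (y.dg δ) := h_anti le_sup_left
      have a4 := y.h_dg_dg hδ1
      rw [Nat.cast_one, one_mul] at a4
      have a5 : h (y.dg δ) (z.dg ℓ) ≤ h (y.dg δ) (z.dg δ) := h_anti (z.dg_mono hδ1)
      linarith
    obtain ⟨C, hCs, hC⟩ := y.bd
    have hCs' : S.Sub (fun k => 4 * (C k + 1)) :=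
      (S.Sub_const (show (0 : ℝ) ≤ 4 by norm_num)).mul (hCs.add (S.Sub_const zero_le_one))
    set E : ∀ k, (S.F k).Ω → Prop := fun k ω => S.dl δ k ≤ |TR.ev (f - g) k ω| with hE
    set P : ℕ → ℝ := fun k => mass (res (S.F k).μ (fun ω => ¬ E k ω)) with hP
    have hfin : ∀ᶠ k in UF, S.rt (fun k => Setoid.ker (y.cellv δ k)) (fun k => Setoid.ker (z.cellv δ k)) k ≤
        (Real.logb 2 (3 + 2) / (S.F k).n + Real.logb 2 (4 * (C k + 1) + 2) / (S.F k).n + 1 / (S.F k).n) +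
          δ * (1 - P k) := by
      filter_upwards [hC, hCs.1] with k hCk hC0
      have hn := (S.F k).pos
      have b1 := rt_cell_le y δ (C k + 1) 3 (by norm_num) (fun k => Setoid.ker (z.cellv δ k))
        (fun k ω => E k ω) k (fun ω a i => (hCk ω a i).trans (by linarith)) (by linarith)
        (fun ω ω' a b e f' g' i => by
          have c1 : |TR.ev f k ω - TR.ev g k ω| < S.dl δ k := not_le.mp e
          have c2 : |TR.ev f k ω' - TR.ev g k ω'| < S.dl δ k := not_le.mp f'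
          have c3 : |TR.ev g k ω - TR.ev g k ω'| ≤ S.dl δ k := z.cellv_close δ k ω ω' g'.1 0
          show |TR.ev f k ω - TR.ev f k ω'| ≤ _
          rw [abs_lt] at c1 c2
          rw [abs_le] at c3 ⊢
          constructor <;> linarith [c1.1, c1.2, c2.1, c2.2, c3.1, c3.2])
      rw [Nat.cast_one, one_mul, one_mul, max_eq_left hδ.le] at b1
      have b2 : mass (res (S.F k).μ (E k)) = 1 - P k := by
        have := ((st_E4 st_E1 st_E3).2.2 _ _ (E k) (S.F k).nn).1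
        rw [(S.F k).ms] at this
        show _ = 1 - mass (res (S.F k).μ (fun ω => ¬ E k ω))
        linarith
      rw [b2] at b1
      have b3 : 0 ≤ 1 - P k := sub_nonneg.mpr (mass_res_le_one k _)
      have b3' : 1 - P k ≤ 1 := by
        have : 0 ≤ P k := mass_res_nonneg k _
        linarith
      have b4 : (Real.logb 2 (4 * (C k + 1)) + δ * (S.F k).n) / (S.F k).n * (1 - P k) ≤
          Real.logb 2 (4 * (C k + 1) + 2) / (S.F k).n + δ * (1 - P k) := by
        rw [add_div, add_mul, mul_div_assoc, div_self hn.ne', mul_one]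
        have b5 : Real.logb 2 (4 * (C k + 1)) / (S.F k).n ≤ Real.logb 2 (4 * (C k + 1) + 2) / (S.F k).n :=
          div_le_div_of_nonneg_right (Real.logb_le_logb_of_le (by norm_num) (by linarith) (by linarith)) hn.le
        have b6 : 0 ≤ Real.logb 2 (4 * (C k + 1)) / (S.F k).n :=
          div_nonneg (Real.logb_nonneg (by norm_num) (by linarith)) hn.le
        have b7 : Real.logb 2 (4 * (C k + 1)) / (S.F k).n * (1 - P k) ≤ Real.logb 2 (4 * (C k + 1)) / (S.F k).n * 1 :=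
          mul_le_mul_of_nonneg_left b3' b6
        linarith
      linarith
    have hUP : UB P := UB_of_nonneg_le (Eventually.of_forall fun k => mass_res_nonneg k _)
      (Eventually.of_forall fun k => mass_res_le_one k _)
    have ht : Tendsto (fun k => Real.logb 2 (3 + 2) / (S.F k).n + Real.logb 2 (4 * (C k + 1) + 2) / (S.F k).n +
        1 / (S.F k).n) UF (𝓝 0) := by
      have := ((S.div_n_tendsto (Real.logb 2 (3 + 2))).add hCs'.2).add (S.div_n_tendsto 1)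
      simpa using this
    have h2 : h (y.dg δ) (z.dg δ) ≤ δ * (1 - ul P) := by
      unfold VV.dg
      rw [h_io (y.bdd δ) (z.bdd δ)]
      have h3 : Tendsto (fun k => (Real.logb 2 (3 + 2) / (S.F k).n + Real.logb 2 (4 * (C k + 1) + 2) / (S.F k).n +
          1 / (S.F k).n) + δ * (1 - P k)) UF (𝓝 (0 + δ * (1 - ul P))) :=
        ht.add (((tendsto_const_nhds).sub (ul_tendsto hUP)).const_mul δ)
      rw [zero_add] at h3
      rw [← ul_eq h3]
      exact ul_mono (UB_rt (y.bdd δ).toInf _) (UB_of_tendsto h3) hfin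
    have h3 : ul P ≤ 0 := by
      have : δ ≤ δ * (1 - ul P) := h1.trans h2
      nlinarith
    have h4 : 0 ≤ ul P := const_le_ul hUP (Eventually.of_forall fun k => mass_res_nonneg k _)
    have h5 := ul_tendsto hUP
    rw [le_antisymm h3 h4] at h5
    exact h5
  intro δ hδ
  rcases le_total δ ℓ with h1 | h1
  · exact key δ hδ h1
  · exact (key ℓ hℓ le_rfl).mono (Eventually.of_forall fun k ω _ hω => (S.dl_anti h1 k).trans hω)

/-- a family of variables whose first `ℓ` digits are full over `A` -/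
def Rt (ℓ : ℝ) {ι : Type} [Fintype ι] (x : ι → QS S) (A : S.L) : Prop := h (vd x ℓ) A = Fintype.card ι * ℓ

theorem h_sup_dg_le {ι : Type} (x : ι → QS S) (s : Finset ι) {ℓ : ℝ} (hℓ : 0 ≤ ℓ) (A : S.L) :
    h (s.sup fun i => dg (x i) ℓ) A ≤ s.card * ℓ := by
  refine (h_finsup_le s _ A).trans ?_
  calc ∑ i ∈ s, h (dg (x i) ℓ) A ≤ ∑ _i ∈ s, ℓ :=
        Finset.sum_le_sum fun i _ => (h_le_H _ _).trans (H_dg_le _ hℓ)
    _ = s.card * ℓ := by rw [Finset.sum_const, nsmul_eq_mul]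

theorem h_vd_le {ι : Type} [Fintype ι] (x : ι → QS S) {ℓ : ℝ} (hℓ : 0 ≤ ℓ) (A : S.L) :
    h (vd x ℓ) A ≤ Fintype.card ι * ℓ := h_sup_dg_le x Finset.univ hℓ A

theorem Rt.of_ge {ι : Type} [Fintype ι] {x : ι → QS S} {ℓ : ℝ} (hℓ : 0 ≤ ℓ) {A : S.L}
    (h : Fintype.card ι * ℓ ≤ Pool.Agent.Helper31.EC.h (vd x ℓ) A) : Rt ℓ x A :=
  le_antisymm (h_vd_le x hℓ A) h

theorem Rt.anti {ι : Type} [Fintype ι] {x : ι → QS S} {ℓ : ℝ} (hℓ : 0 ≤ ℓ) {A B : S.L} (h : Rt ℓ x B)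
    (hAB : A ≤ B) : Rt ℓ x A := by
  apply Rt.of_ge hℓ
  rw [← h]
  exact h_anti hAB

theorem Rl_iff_Rt {ι : Type} [Fintype ι] {x : ι → QS S} {A : S.L} : Rl x A ↔ Rt 1 x A := by
  unfold Rl Rt
  rw [mul_one]

/-- new digits of a family -/
theorem h_vd_vd {ι : Type} [Fintype ι] (x : ι → QS S) {r s : ℝ} (hrs : r ≤ s) :
    h (vd x s) (vd x r) ≤ Fintype.card ι * (s - r) := by
  refine (h_finsup_le Finset.univ _ _).trans ?_
  calc ∑ i, h (dg (x i) s) (vd x r) ≤ ∑ _i : ι, (s - r) :=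
        Finset.sum_le_sum fun i _ => (h_anti (dg_le_vd x r i)).trans (h_dg_dg _ hrs)
    _ = Fintype.card ι * (s - r) := by rw [Finset.sum_const, nsmul_eq_mul]; rfl

theorem Rt.mono {ι : Type} [Fintype ι] {x : ι → QS S} {ℓ ℓ' : ℝ} (hℓ : 0 ≤ ℓ') {A : S.L} (h : Rt ℓ x A)
    (hle : ℓ' ≤ ℓ) : Rt ℓ' x A := by
  apply Rt.of_ge hℓ
  have h1 := h_triangle (vd x ℓ) (vd x ℓ') A
  have h2 : Pool.Agent.Helper31.EC.h (vd x ℓ) (vd x ℓ' ⊔ A) ≤ Pool.Agent.Helper31.EC.h (vd x ℓ) (vd x ℓ') := h_anti le_sup_left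
  have h3 := h_vd_vd x hle
  unfold Rt at h
  rw [h] at h1
  have h4 : (Fintype.card ι : ℝ) * (ℓ - ℓ') = Fintype.card ι * ℓ - Fintype.card ι * ℓ' := by ring
  linarith

open Classical in
theorem sup_dg_union {ι : Type} (x : ι → QS S) (ℓ : ℝ) (s t : Finset ι) :
    ((s ∪ t).sup fun i => dg (x i) ℓ) = (s.sup fun i => dg (x i) ℓ) ⊔ (t.sup fun i => dg (x i) ℓ) :=
  Finset.sup_union

/-- a subfamily is full over a disjoint subfamily -/
theorem Rt.sub {ι : Type} [Fintype ι] {x : ι → QS S} {ℓ : ℝ} (hℓ : 0 ≤ ℓ) {A : S.L} (hx : Rt ℓ x A)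
    {s t : Finset ι} (hst : Disjoint s t) :
    h (s.sup fun i => dg (x i) ℓ) ((t.sup fun i => dg (x i) ℓ) ⊔ A) = s.card * ℓ := by
  classical
  apply le_antisymm (h_sup_dg_le x s hℓ _)
  have h1 : vd x ℓ = (s.sup fun i => dg (x i) ℓ) ⊔ (sᶜ.sup fun i => dg (x i) ℓ) := by
    rw [← sup_dg_union, Finset.union_compl]
    rfl
  have h2 : h (vd x ℓ) A ≤ h (s.sup fun i => dg (x i) ℓ) ((sᶜ.sup fun i => dg (x i) ℓ) ⊔ A) +
      h (sᶜ.sup fun i => dg (x i) ℓ) A := by
    rw [h1, sup_comm, h_chain]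
    linarith
  have h3 : h (s.sup fun i => dg (x i) ℓ) ((sᶜ.sup fun i => dg (x i) ℓ) ⊔ A) ≤
      h (s.sup fun i => dg (x i) ℓ) ((t.sup fun i => dg (x i) ℓ) ⊔ A) := by
    apply h_anti
    apply sup_le_sup_right
    apply Finset.sup_mono
    intro i hi
    rw [Finset.mem_compl]
    exact fun hc => Finset.disjoint_left.mp hst hc hi
  have h4 := h_sup_dg_le x sᶜ hℓ A
  have h5 : ((sᶜ : Finset ι).card : ℝ) = Fintype.card ι - s.card := by
    rw [Finset.card_compl, Nat.cast_sub (Finset.card_le_univ s)]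
  unfold Rt at hx
  rw [hx] at h2
  rw [h5, sub_mul] at h4
  linarith

theorem Rt.comp {ι κ : Type} [Fintype ι] [Fintype κ] {x : ι → QS S} {ℓ : ℝ} (hℓ : 0 ≤ ℓ) {A : S.L}
    (hx : Rt ℓ x A) (f : κ → ι) (hf : Function.Injective f) : Rt ℓ (fun i => x (f i)) A := by
  classical
  have h1 := hx.sub hℓ (s := Finset.univ.image f) (t := ∅) (by simp)
  rw [Finset.sup_empty, bot_sup_eq, Finset.sup_image, Finset.card_image_of_injective _ hf, Finset.card_univ] at h1
  exact h1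

theorem Rt.isUnit_sub {ι : Type} [Fintype ι] {x : ι → QS S} {ℓ : ℝ} (hℓ : 0 < ℓ) (hℓ1 : ℓ ≤ 1) {A : S.L}
    (hx : Rt ℓ x A) {i j : ι} (hij : i ≠ j) : IsUnit (x i - x j) := by
  apply isUnit_sub_top hℓ hℓ1
  have h1 := hx.sub hℓ.le (s := {i}) (t := {j}) (by simpa using hij)
  rw [Finset.sup_singleton, Finset.sup_singleton, Finset.card_singleton, Nat.cast_one, one_mul] at h1
  calc ℓ = _ := h1.symm
    _ ≤ _ := h_anti le_sup_left

theorem Rt.isUnit_vandermonde {n : ℕ} {x : Fin n → QS S} {ℓ : ℝ} (hℓ : 0 < ℓ) (hℓ1 : ℓ ≤ 1) {A : S.L}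
    (hx : Rt ℓ x A) : IsUnit (Matrix.vandermonde x).det := by
  rw [Matrix.det_vandermonde]
  apply isUnit_prod
  intro i _
  apply isUnit_prod
  intro j hj
  exact hx.isUnit_sub hℓ hℓ1 (Finset.mem_Ioi.mp hj).ne'

/-- copies of full families over the common information -/
theorem CQ_rt {ι : Type} [Fintype ι] {f : ι → QS S} {d : ℕ} (C : CQ S f d) {κ : Type} [Fintype κ] (x : κ → QS S)
    {ℓ : ℝ} (hx : Rt ℓ x (vd f 1)) : Rt ℓ (fun a : Fin (d + 1) × κ => (C.p a.1).qs (x a.2)) C.v := by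
  unfold Rt at hx ⊢
  have h1 : vd (fun a : Fin (d + 1) × κ => (C.p a.1).qs (x a.2)) ℓ =
      Finset.univ.sup fun i => (C.p i).map (vd x ℓ) := by
    apply le_antisymm
    · rw [vd_le]
      intro a
      refine le_trans ?_ (Finset.le_sup (f := fun i => (C.p i).map (vd x ℓ)) (Finset.mem_univ a.1))
      rw [← (C.p a.1).qs_vd]
      exact dg_le_vd (fun i => (C.p a.1).qs (x i)) ℓ a.2
    · apply Finset.sup_le
      intro i _
      rw [← (C.p i).qs_vd, vd_le]
      intro b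
      exact dg_le_vd (fun a : Fin (d + 1) × κ => (C.p a.1).qs (x a.2)) ℓ (i, b)
  rw [h1, C.h_sup, Finset.sum_congr rfl fun i _ => hx]
  simp [Fintype.card_prod]
  ring

theorem CQ_rt_one {ι : Type} [Fintype ι] {f : ι → QS S} {d : ℕ} (C : CQ S f d) (x : QS S) {ℓ : ℝ}
    (hx : h (dg x ℓ) (vd f 1) = ℓ) : Rt ℓ (fun i : Fin (d + 1) => (C.p i).qs x) C.v := by
  unfold Rt
  have h1 : vd (fun i : Fin (d + 1) => (C.p i).qs x) ℓ = Finset.univ.sup fun i => (C.p i).map (dg x ℓ) := by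
    unfold vd
    congr 1
    funext i
    exact (C.p i).qs_dg x ℓ
  rw [h1, C.h_sup, Finset.sum_congr rfl fun i _ => hx]
  simp

/-- the coefficients of a small polynomial in a variable with full first digits are small -/
theorem top_zero {k : ℕ} (c : Fin (k + 1) → QS S) (x : QS S) {ℓ : ℝ} (hℓ : 0 < ℓ) (hℓ1 : ℓ ≤ 1)
    (hx : h (dg x ℓ) (vd c 1) = ℓ) {r : ℝ} (hr : r ≤ 1) (hz : pe c x ∈ Id S r) (a : Fin (k + 1)) :
    c a ∈ Id S r := by
  obtain ⟨C⟩ := exists_CQ c k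
  have h1 : Rt ℓ (fun i : Fin (k + 1) => (C.p i).qs x) C.v := CQ_rt_one C x hx
  have h2 := h1.isUnit_vandermonde hℓ hℓ1
  rw [← (C.p 0).qs_mem_Id hr]
  apply mulVec_mem_ideal (Id C.W r) _ (fun a => (C.p 0).qs (c a)) h2
  intro i
  rw [← pe_eq_mulVec (fun a => (C.p 0).qs (c a)) (fun i : Fin (k + 1) => (C.p i).qs x) i]
  have h3 := ((C.p i).qs_mem_Id hr).mpr hz
  rw [pe_map] at h3
  have h4 : (fun a => (C.p i).qs (c a)) = fun a => (C.p 0).qs (c a) := by
    funext a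
    exact C.com i 0 a
  rw [h4] at h3
  exact h3

end

end Pool.Agent.Helper57.TA
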