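import Pool.Agent.Helper31.EC.Sep
import Pool.Agent.Helper31.EC.Zoom

/-! Exact entropy calculus: scales, division by scales, rounding. -/

set_option autoImplicit false

namespace Pool.Agent.Helper57.TA

open Finset Filter Topology Pool.Agent.Helper69.RK Pool.Agent.Helper31.EC Pool.Agent.Helper31.EC.Sp

noncomputable section

variable {S : Sp}

/-- the scale `2 ^ (-u n)` as a tame function -/
def scT (S : Sp) (u : ℝ) : TR S := ⟨fun k _ => S.dl (max u 0) k, fun _ => 1, S.Sub_const zero_le_one,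
  Eventually.of_forall fun k ω _ => by
    beta_reduce
    rw [abs_of_pos (S.dl_pos _ _)]
    have h1 := S.dl_anti (le_max_right u 0) k
    rwa [S.dl_zero] at h1⟩

theorem ev_scT {u : ℝ} (hu : 0 ≤ u) (k : ℕ) (ω : (S.F k).Ω) : TR.ev (scT S u) k ω = S.dl u k := by
  show S.dl (max u 0) k = _
  rw [max_eq_left hu]

/-- the scale `2 ^ (-u n)` -/
def sc (S : Sp) (u : ℝ) : QS S := QS.mk (scT S u)

theorem sc_zero (S : Sp) : sc S 0 = 1 := by
  rw [← map_one QS.mk]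
  unfold sc
  congr 1
  apply Subtype.ext
  funext k ω
  show S.dl (max 0 0) k = 1
  rw [max_self, S.dl_zero]

theorem sc_add {u v : ℝ} (hu : 0 ≤ u) (hv : 0 ≤ v) : sc S (u + v) = sc S u * sc S v := by
  unfold sc
  rw [← map_mul]
  congr 1
  apply Subtype.ext
  funext k ω
  show S.dl (max (u + v) 0) k = S.dl (max u 0) k * S.dl (max v 0) k
  rw [max_eq_left hu, max_eq_left hv, max_eq_left (add_nonneg hu hv), S.dl_add]

theorem dg_sc (u r : ℝ) : QS.dg (sc S u) r = ⊥ := by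
  have h1 : ∀ s : ℝ, s ≤ 1 → QS.dg (sc S u) s = ⊥ := by
    intro s hs
    unfold sc
    rw [QS.dg_mk _ hs]
    exact TR.const_dg _ (Eventually.of_forall fun _ _ _ => rfl) s
  rcases le_total r 1 with h | h
  · exact h1 r h
  · rw [QS.dg_cut _ h]
    exact h1 1 le_rfl

theorem Pj_qs_sc {T : Sp} (p : Pj T S) (u : ℝ) : p.qs (sc S u) = sc T u := by
  unfold sc
  rw [p.qs_mk]
  congr 1
  apply Subtype.ext
  funext k ω
  show S.dl (max u 0) k = T.dl (max u 0) k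
  unfold Sp.dl
  rw [p.hn]

theorem mem_Id_iff {f : TR S} {r : ℝ} : QS.mk f ∈ QS.Id S r ↔ TR.Ag (min r 1) f 0 := by
  have h0 : TR.Ag 1 (QS.rep (QS.mk f)) f := QS.mk_eq.mp (QS.mk_rep _)
  constructor
  · intro h
    exact ((h0.anti (min_le_right r 1)).symm).trans h
  · intro h
    exact (h0.anti (min_le_right r 1)).trans h

theorem Id_mono {r s : ℝ} (h : s ≤ r) {f : QS S} (hf : f ∈ QS.Id S r) : f ∈ QS.Id S s := QS.Id_anti h hf

theorem sc_mul_mem {u r : ℝ} (hu : 0 ≤ u) {f : QS S} (hf : f ∈ QS.Id S r) : sc S u * f ∈ QS.Id S (u + r) := by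
  obtain ⟨f, rfl⟩ := QS.mk_surj f
  unfold sc
  rw [← map_mul, mem_Id_iff]
  rw [mem_Id_iff] at hf
  obtain ⟨E, K, hE, hK, hh⟩ := hf
  refine ⟨E, K, hE, hK, ?_⟩
  filter_upwards [hh, hK.1] with k hk hK0 ω a b
  have h1 := hk ω a b
  rw [TR.ev_zero, sub_zero] at h1 ⊢
  rw [TR.ev_mul, ev_scT hu, abs_mul, abs_of_pos (S.dl_pos _ _)]
  have h2 : S.dl u k * |TR.ev f k ω| ≤ S.dl u k * (K k * S.dl (min r 1) k) :=
    mul_le_mul_of_nonneg_left h1 (S.dl_pos _ _).le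
  refine h2.trans ?_
  have h3 : S.dl u k * (K k * S.dl (min r 1) k) = K k * S.dl (u + min r 1) k := by
    rw [S.dl_add]; ring
  rw [h3]
  refine mul_le_mul_of_nonneg_left (S.dl_anti ?_ k) hK0
  rcases le_total r 1 with h | h
  · rw [min_eq_left h]
    exact min_le_left _ _
  · rw [min_eq_right h]
    exact (min_le_right _ _).trans (by linarith)

theorem sc_mem {u : ℝ} (hu : 0 ≤ u) : sc S u ∈ QS.Id S u := by
  have h1 := sc_mul_mem (S := S) (r := 0) (f := 1) hu (QS.mem_Id_nonpos le_rfl)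
  rwa [mul_one, add_zero] at h1

theorem mem_of_sc_mul {u r : ℝ} (hu : 0 ≤ u) (hr : r ≤ 1) {f : QS S} (hf : sc S u * f ∈ QS.Id S r) :
    f ∈ QS.Id S (r - u) := by
  obtain ⟨f, rfl⟩ := QS.mk_surj f
  unfold sc at hf
  rw [← map_mul, mem_Id_iff, min_eq_left hr] at hf
  rw [mem_Id_iff, min_eq_left (by linarith : r - u ≤ 1)]
  obtain ⟨E, K, hE, hK, hh⟩ := hf
  refine ⟨E, K, hE, hK, ?_⟩
  filter_upwards [hh] with k hk ω a b
  have h1 := hk ω a b
  rw [TR.ev_zero, sub_zero] at h1 ⊢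
  rw [TR.ev_mul, ev_scT hu, abs_mul, abs_of_pos (S.dl_pos _ _)] at h1
  have h2 : S.dl r k = S.dl u k * S.dl (r - u) k := by
    rw [← S.dl_add]; congr 1; ring
  rw [h2] at h1
  have h3 : S.dl u k * |TR.ev f k ω| ≤ S.dl u k * (K k * S.dl (r - u) k) := by
    calc _ ≤ _ := h1
      _ = _ := by ring
  exact le_of_mul_le_mul_left h3 (S.dl_pos _ _)

theorem sc_mul_mem_iff {u r : ℝ} (hu : 0 ≤ u) (hr : r ≤ 1) {f : QS S} :
    sc S u * f ∈ QS.Id S r ↔ f ∈ QS.Id S (r - u) := by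
  constructor
  · exact mem_of_sc_mul hu hr
  · intro h
    have h1 := sc_mul_mem hu h
    rwa [show u + (r - u) = r by ring] at h1

/-- two levels: a tame function at level `r` is a function of a tame function at level `s` -/
theorem TR_dg_le_dg (f g : TR S) (r s : ℝ)
    (E : ∀ k, (S.F k).Ω → Prop) (hE : Typ E) (K : ℕ → ℝ) (hK : S.Sub K)
    (hh : ∀ᶠ k in UF, ∀ ω ω', (S.F k).μ ω ≠ 0 → (S.F k).μ ω' ≠ 0 → E k ω → E k ω' → (S.F k).Z ω ω' →
      |TR.ev g k ω - TR.ev g k ω'| ≤ S.dl s k → |TR.ev f k ω - TR.ev f k ω'| ≤ K k * S.dl r k) :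
    TR.dg f r ≤ TR.dg g s := by
  unfold TR.dg
  apply VV.dg_le_dg _ _ r s E hE K hK
  filter_upwards [hh] with k hk ω ω' a b c d e f' i
  exact hk ω ω' a b c d e (f' 0)

open Classical in
/-- division by a scale -/
theorem exists_div {u : ℝ} (hu : 0 ≤ u) (hu1 : u ≤ 1) {f : QS S} (hf : f ∈ QS.Id S u) :
    ∃ g : QS S, f = sc S u * g ∧ ∀ r ≤ 1, QS.dg g (r - u) ≤ QS.dg f r := by
  obtain ⟨f, rfl⟩ := QS.mk_surj f
  rw [mem_Id_iff, min_eq_left hu1] at hf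
  obtain ⟨E, K, hE, hK, hh⟩ := hf
  set g : TR S := ⟨fun k ω => if |TR.ev f k ω| ≤ K k * S.dl u k then TR.ev f k ω / S.dl u k else 0, K, hK, by
    filter_upwards [hK.1] with k hK0 ω _
    split_ifs with h1
    · rw [abs_div, abs_of_pos (S.dl_pos _ _), div_le_iff₀ (S.dl_pos _ _)]
      exact h1
    · rw [abs_zero]
      exact hK0⟩ with hg
  have hev : ∀ᶠ k in UF, ∀ ω, (S.F k).μ ω ≠ 0 → E k ω → TR.ev g k ω = TR.ev f k ω / S.dl u k := by
    filter_upwards [hh] with k hk ω a b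
    have h1 := hk ω a b
    rw [TR.ev_zero, sub_zero] at h1
    show (if |TR.ev f k ω| ≤ K k * S.dl u k then TR.ev f k ω / S.dl u k else 0) = _
    rw [if_pos h1]
  refine ⟨QS.mk g, ?_, ?_⟩
  · unfold sc
    rw [← map_mul, QS.mk_eq]
    apply TR.Te.ag
    refine ⟨E, hE, ?_⟩
    filter_upwards [hev] with k hk ω a b
    rw [TR.ev_mul, ev_scT hu, hk ω a b, mul_div_cancel₀ _ (S.dl_pos _ _).ne']
  · intro r hr
    rw [QS.dg_mk _ hr, QS.dg_mk _ (by linarith)]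
    apply TR_dg_le_dg _ _ _ _ E hE (fun _ => 1) (S.Sub_const zero_le_one)
    filter_upwards [hev] with k hk ω ω' a b c d _ e
    rw [hk ω a c, hk ω' b d, ← sub_div, abs_div, abs_of_pos (S.dl_pos _ _), one_mul,
      div_le_iff₀ (S.dl_pos _ _), ← S.dl_add, sub_add_cancel]
    exact e

/-- rounding -/
theorem exists_round (f : QS S) {r : ℝ} (hr0 : 0 ≤ r) (hr : r ≤ 1) :
    ∃ g : QS S, QS.dg g 1 ≤ QS.dg f r ∧ f - g ∈ QS.Id S r := by
  obtain ⟨f, rfl⟩ := QS.mk_surj f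
  refine ⟨QS.mk (TR.cor ((TR.vec (fun _ : Fin 1 => f)).fl r hr0) 0), ?_, ?_⟩
  · rw [QS.dg_mk _ le_rfl, QS.dg_mk _ hr]
    exact (TR.cor_dg_le _ 0 1).trans (VV.fl_dg_le _ r hr0 1)
  · rw [← map_sub, mem_Id_iff, min_eq_left hr]
    refine ⟨fun _ _ => True, fun _ => 1, Typ_true, S.Sub_const zero_le_one, Eventually.of_forall fun k ω _ _ => ?_⟩
    rw [TR.ev_zero, sub_zero, TR.ev_sub, one_mul]
    have h1 := VV.fl_sub (TR.vec (fun _ : Fin 1 => f)) r hr0 k ω 0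
    show |(TR.vec (fun _ : Fin 1 => f)).v k ω 0 - ((TR.vec (fun _ : Fin 1 => f)).fl r hr0).v k ω 0| ≤ _
    rw [abs_of_nonneg h1.1]
    exact h1.2.le

/-- division with exact knowledge -/
theorem exists_div' {u : ℝ} (hu : 0 ≤ u) (hu1 : u ≤ 1) {f : QS S} (hf : f ∈ QS.Id S u) :
    ∃ g : QS S, f = sc S u * g ∧ QS.dg g 1 ≤ QS.dg f 1 := by
  obtain ⟨g, hg, hg'⟩ := exists_div hu hu1 hf
  obtain ⟨g', hg1, hg2⟩ := exists_round g (sub_nonneg.mpr hu1) (by linarith)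
  refine ⟨g', ?_, hg1.trans (hg' 1 le_rfl)⟩
  rw [hg, ← sub_eq_zero, ← mul_sub, ← QS.mem_Id_one, sc_mul_mem_iff hu le_rfl]
  exact hg2

end

end Pool.Agent.Helper57.TA
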