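import Pool.Agent.Helper57.TA.Str

/-! THEOREM A, step (2): the jets are polynomials in the vertical coordinates, with coefficients known to the base
point. -/

set_option autoImplicit false

namespace Pool.Agent.Helper57.TA

open Finset Filter Topology Pool.Agent.Helper69.RK Pool.Agent.Helper31.EC Pool.Agent.Helper31.EC.Sp
open Pool.Agent.Helper31.EC.QS

noncomputable section

section scales

variable {S : Sp}

theorem sc_nat_mul {u : ℝ} (hu : 0 ≤ u) (n : ℕ) : sc S (n * u) = sc S u ^ n := by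
  induction n with
  | zero => rw [Nat.cast_zero, zero_mul, sc_zero, pow_zero]
  | succ n ih =>
    rw [Nat.cast_succ, add_mul, one_mul, sc_add (by positivity) hu, ih, pow_succ]

theorem sc_sum {ι : Type*} (s : Finset ι) (u : ι → ℝ) (hu : ∀ i ∈ s, 0 ≤ u i) :
    sc S (∑ i ∈ s, u i) = ∏ i ∈ s, sc S (u i) := by
  classical
  induction s using Finset.induction_on with
  | empty => rw [Finset.sum_empty, Finset.prod_empty, sc_zero]
  | insert a s ha ih =>
    rw [Finset.sum_insert ha, Finset.prod_insert ha, sc_add (hu a (Finset.mem_insert_self a s))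
      (Finset.sum_nonneg fun i hi => hu i (Finset.mem_insert_of_mem hi)),
      ih fun i hi => hu i (Finset.mem_insert_of_mem hi)]

theorem wgt_nonneg {σ : Type} [Fintype σ] {wt : σ → ℝ} (h : ∀ a, 0 ≤ wt a) (m : σ →₀ ℕ) : 0 ≤ wgt wt m :=
  Finset.sum_nonneg fun a _ => mul_nonneg (Nat.cast_nonneg _) (h a)

/-- monomials in scaled variables -/
theorem mon_scale {σ : Type} [Fintype σ] {wt : σ → ℝ} (h : ∀ a, 0 ≤ wt a) {s : ℝ} (hs : 0 ≤ s) (ξ : σ → QS S)
    (m : σ →₀ ℕ) : ∏ a, (sc S (wt a * s) * ξ a) ^ m a = sc S (wgt wt m * s) * ∏ a, ξ a ^ m a := by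
  have h1 : sc S (wgt wt m * s) = ∏ a, sc S (wt a * s) ^ m a := by
    unfold wgt
    rw [Finset.sum_mul, sc_sum _ _ fun a _ => mul_nonneg (mul_nonneg (Nat.cast_nonneg _) (h a)) hs]
    apply Finset.prod_congr rfl
    intro a _
    rw [mul_assoc, sc_nat_mul (mul_nonneg (h a) hs)]
  rw [h1, ← Finset.prod_mul_distrib]
  apply Finset.prod_congr rfl
  intro a _
  rw [mul_pow]

/-- evaluation of a mapped polynomial -/
theorem eval_map_eq {A B : Type*} [CommRing A] [CommRing B] {σ : Type*} [Fintype σ] (φ : A →+* B)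
    (P : MvPolynomial σ A) (x : σ → B) :
    MvPolynomial.eval x (MvPolynomial.map φ P) = ∑ m ∈ P.support, φ (P.coeff m) * ∏ a, x a ^ m a := by
  rw [MvPolynomial.eval_map, MvPolynomial.eval₂_eq']

end scales

variable {S : Sp} {β κ : Type} [Fintype β] [Fintype κ]

theorem sub_sub_mem {A : Type*} [CommRing A] (J : Ideal A) {a b c : A} (h1 : a - b ∈ J) (h2 : a - c ∈ J) :
    b - c ∈ J := by
  have h3 := J.sub_mem h2 h1
  rwa [sub_sub_sub_cancel_left] at h3

open Classical in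
/-- STEP (2): JETS ARE POLYNOMIALS IN `R`, with coefficients known to the base point -/
theorem Walk.jet {D : Dat S β κ} {s : ℝ} (hs : 0 < s) (hws : D.w * s ≤ 1) (k : Walk D s) (hR : Rl D.R D.qi) :
    ∃ A : (β ⊕ κ →₀ ℕ) → MvPolynomial κ (QS S), ∀ m, A m ∈ PK D.qi ∧
      D.J.coeff m - MvPolynomial.eval D.R (A m) ∈ Id S ((D.w - wgt D.wt m) * s) := by
  have hwt : ∀ a, 0 ≤ D.wt a := fun a => (D.wpos a).le
  suffices hmain : ∀ j : D.J.support, ∃ A : MvPolynomial κ (QS S), A ∈ PK D.qi ∧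
      D.J.coeff j.1 - MvPolynomial.eval D.R A ∈ Id S ((D.w - wgt D.wt j.1) * s) by
    choose A hA using hmain
    refine ⟨fun m => if hm : m ∈ D.J.support then A ⟨m, hm⟩ else 0, fun m => ?_⟩
    beta_reduce
    by_cases hm : m ∈ D.J.support
    · rw [dif_pos hm]
      exact hA ⟨m, hm⟩
    · rw [dif_neg hm]
      refine ⟨(PK D.qi).zero_mem, ?_⟩
      rw [MvPolynomial.notMem_support_iff.mp hm, map_zero, sub_zero]
      exact Ideal.zero_mem _
  intro j₀
  set L := Fintype.card D.J.support with hL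
  have hL0 : 0 < L := Fintype.card_pos_iff.mpr ⟨j₀⟩
  -- copies of the walk over the point
  set fam : (β ⊕ κ) ⊕ D.J.support → QS S := Sum.elim (Sum.elim D.q D.R) (fun j => D.J.coeff j.1) with hfam
  obtain ⟨C⟩ := exists_CQ (fun a => k.P0.qs (fam a)) (2 * L - 1)
  have hcard : Fintype.card (Fin 2 × D.J.support) = Fintype.card (Fin (2 * L - 1 + 1)) := by
    rw [Fintype.card_prod, Fintype.card_fin, Fintype.card_fin]
    omega
  set e : Fin 2 × D.J.support ≃ Fin (2 * L - 1 + 1) := Fintype.equivOfCardEq hcard with he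
  have hfam_inf : vd fam 1 ≤ D.inf := by
    rw [vd_le]
    rintro ((a | a) | a)
    · exact (dg_le_vd D.q 1 a).trans D.qinf
    · exact (dg_le_vd D.R 1 a).trans D.Rinf
    · exact D.Jinf a.1
  have hfamW : vd (fun a => k.P0.qs (fam a)) 1 = k.P0.map (vd fam 1) := k.P0.qs_vd fam 1
  have hle : vd (fun a => k.P0.qs (fam a)) 1 ≤ k.P0.map D.inf := by
    rw [hfamW]
    exact Pj.map_mono _ hfam_inf
  have hRt := CQ_rt C k.ξ (k.real.anti k.ℓ0.le hle)
  -- common functions
  have hcomc : ∀ i (j : D.J.support), (C.p i).qs (k.P0.qs (D.J.coeff j.1)) = (C.p 0).qs (k.P0.qs (D.J.coeff j.1)) :=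
    fun i j => C.com i 0 (Sum.inr j)
  have hcomR : ∀ i l, (C.p i).qs (k.P0.qs (D.R l)) = (C.p 0).qs (k.P0.qs (D.R l)) :=
    fun i l => C.com i 0 (Sum.inl (Sum.inr l))
  set qC : C.W.L := (C.p 0).map (k.P0.map D.qi) with hqC
  have hcomq : ∀ i, (C.p i).map (k.P0.map D.qi) = qC := by
    intro i
    have h1 : ∀ i, (C.p i).map (k.P0.map D.qi) = vd (fun a => (C.p i).qs (k.P0.qs (D.q a))) 1 := by
      intro i
      unfold Dat.qi
      rw [← k.P0.qs_vd, ← (C.p i).qs_vd]
    rw [hqC, h1, h1]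
    congr 1
    funext a
    exact C.com i 0 (Sum.inl (Sum.inl a))
  have hqCv : qC ≤ C.v := by
    apply Pj.map_mono
    rw [hfamW]
    apply Pj.map_mono
    unfold Dat.qi
    rw [vd_le]
    exact fun a => dg_le_vd fam 1 (Sum.inl (Sum.inl a))
  set RC : κ → QS C.W := fun l => (C.p 0).qs (k.P0.qs (D.R l)) with hRC
  have hRCv : vd RC 1 ≤ C.v := by
    rw [vd_le]
    intro l
    rw [hRC]
    show dg ((C.p 0).qs _) 1 ≤ _
    rw [(C.p 0).qs_dg]
    exact Pj.map_mono _ (dg_le_vd (fun a => k.P0.qs (fam a)) 1 (Sum.inl (Sum.inr l)))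
  -- the information of the walks
  set f : Fin (2 * L - 1 + 1) → C.W.L := fun i => (C.p i).map k.om with hf
  have hI0 : ∀ i, I (f i) C.v qC = 0 := by
    intro i
    have h1 : I k.om (vd (fun a => k.P0.qs (fam a)) 1) (k.P0.map D.qi) = 0 :=
      I_zero_mono k.ind le_sup_left (hle.trans le_sup_left)
    have h2 := (C.p i).I_map k.om (vd (fun a => k.P0.qs (fam a)) 1) (k.P0.map D.qi)
    rw [h1, hcomq, C.p_v] at h2
    exact h2
  have hIall : I (Finset.univ.sup f) C.v qC = 0 := by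
    apply I_finsup_zero f C.v qC hqCv _ hI0
    have h1 := C.ind fun _ => k.om
    have h2 : ∀ i, h (f i) C.v = h k.om (vd (fun a => k.P0.qs (fam a)) 1) := fun i => C.h_map_v i k.om
    rw [Finset.sum_congr rfl fun i _ => h2 i]
    exact h1
  set omu : Fin 2 → C.W.L := fun u => (Finset.univ.image fun j : D.J.support => e (u, j)).sup f with homu
  have homu_le : ∀ u, omu u ≤ Finset.univ.sup f := fun u => Finset.sup_mono (Finset.subset_univ _)
  have hf_le : ∀ u j, f (e (u, j)) ≤ omu u := fun u j =>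
    Finset.le_sup (f := f) (Finset.mem_image_of_mem _ (Finset.mem_univ j))
  have hdisj : Disjoint (Finset.univ.image fun j : D.J.support => e ((0 : Fin 2), j))
      (Finset.univ.image fun j : D.J.support => e ((1 : Fin 2), j)) := by
    rw [Finset.disjoint_left]
    intro a h1 h2
    obtain ⟨j, _, hj⟩ := Finset.mem_image.mp h1
    obtain ⟨j', _, hj'⟩ := Finset.mem_image.mp h2
    have h3 := e.injective (hj.trans hj'.symm)
    exact absurd (congrArg Prod.fst h3) (by simp)
  have hI01 : I (omu 0) (omu 1) qC = 0 := by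
    have h1 : I (omu 0) C.v qC = 0 := I_zero_mono hIall ((homu_le 0).trans le_sup_left) le_sup_left
    have h2 : I (omu 0) (omu 1) C.v = 0 := C.I_sup hdisj fun _ => k.om
    have h3 : I (omu 0) (omu 1) (C.v ⊔ qC) = 0 := by rwa [sup_eq_left.mpr hqCv]
    have h4 := I_contract h1 h3
    exact I_zero_mono h4 le_sup_left (le_sup_right.trans le_sup_left)
  have hRB : Rl RC (omu 0 ⊔ omu 1 ⊔ qC) := by
    have h1 : I (omu 0 ⊔ omu 1) (vd RC 1) qC = 0 :=
      I_zero_mono hIall ((sup_le (homu_le 0) (homu_le 1)).trans le_sup_left) (hRCv.trans le_sup_left)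
    have h2 := I_zero_iff_h'.mp h1
    unfold Rl
    rw [h2, hqC]
    have h3 : vd RC 1 = (C.p 0).map (k.P0.map (vd D.R 1)) := by
      rw [← k.P0.qs_vd, ← (C.p 0).qs_vd]
    rw [h3, Pj.h_map, Pj.h_map]
    exact hR
  -- the matrices
  set x : Fin 2 → D.J.support × (β ⊕ κ) → QS C.W := fun u a => (C.p (e (u, a.1))).qs (k.ξ a.2) with hx
  have hxRt : ∀ u, Rt k.ℓ (x u) C.v := by
    intro u
    apply hRt.comp k.ℓ0.le (fun a : D.J.support × (β ⊕ κ) => (e (u, a.1), a.2))
    intro a b hab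
    have h1 := congrArg Prod.fst hab
    have h2 := congrArg Prod.snd hab
    have h3 := congrArg Prod.snd (e.injective h1)
    exact Prod.ext h3 h2
  set M : Fin 2 → Matrix D.J.support D.J.support (QS C.W) := fun u =>
    Matrix.of fun i j => MvPolynomial.eval (fun a => x u (i, a)) (MvPolynomial.monomial j.1 1) with hM
  have hMu : ∀ u, IsUnit (M u).det := fun u =>
    isUnit_monomials k.ℓ0 k.ℓ1 (hxRt u) (fun j : D.J.support => j.1) Subtype.val_injective
  have hMe : ∀ u i j, M u i j = ∏ a, x u (i, a) ^ j.1 a := by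
    intro u i j
    rw [hM]
    show MvPolynomial.eval _ _ = _
    rw [MvPolynomial.eval_monomial, one_mul, Finsupp.prod_fintype]
    intro a
    exact pow_zero _
  have hxk : ∀ u i a, dg (x u (i, a)) 1 ≤ omu u ⊔ qC := by
    intro u i a
    rw [hx]
    show dg ((C.p (e (u, i))).qs (k.ξ a)) 1 ≤ _
    rw [(C.p _).qs_dg]
    refine (Pj.map_mono _ (k.kn a)).trans ?_
    rw [Pj.map_sup, hcomq]
    exact sup_le_sup_right (hf_le u i) _
  have hMk : ∀ u i j, dg (M u i j) 1 ≤ omu u ⊔ qC := by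
    intro u i j
    rw [hMe]
    exact (Kn C.W 1 le_rfl _).prod_mem fun a _ => (Kn C.W 1 le_rfl _).pow_mem (hxk u i a) _
  have hMik : ∀ u i j, dg ((M u)⁻¹ i j) 1 ≤ omu u ⊔ qC := fun u i j =>
    inv_mem (M u) le_rfl _ (hMk u) (hMu u) i j
  -- the equations
  set y : D.J.support → QS C.W := fun j =>
    sc C.W (wgt D.wt j.1 * s) * (C.p 0).qs (k.P0.qs (D.J.coeff j.1)) with hy
  set b : Fin 2 → D.J.support → QS C.W := fun u i =>
    MvPolynomial.eval RC (MvPolynomial.map (C.p (e (u, i))).qs k.p) with hb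
  have heq : ∀ u i, (M u).mulVec y i - b u i ∈ Id C.W (D.w * s) := by
    intro u i
    have h1 := sub_sub_mem _ k.hW k.hp
    have h2 := ((C.p (e (u, i))).qs_mem_Id hws).mpr h1
    rw [map_sub, qs_eval, qs_eval, MvPolynomial.map_map] at h2
    have h3 : (fun l => (C.p (e (u, i))).qs (k.P0.qs (D.R l))) = RC := by
      funext l
      exact hcomR _ l
    rw [h3] at h2
    have h4 : MvPolynomial.eval (fun a => (C.p (e (u, i))).qs (sc k.W (D.wt a * s) * k.ξ a))
        (MvPolynomial.map ((C.p (e (u, i))).qs.comp k.P0.qs) D.J) = (M u).mulVec y i := by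
      rw [eval_map_eq]
      unfold Matrix.mulVec dotProduct
      rw [← Finset.sum_coe_sort]
      apply Finset.sum_congr rfl
      intro j _
      have h5 : ∀ a, (C.p (e (u, i))).qs (sc k.W (D.wt a * s) * k.ξ a) = sc C.W (D.wt a * s) * x u (i, a) := by
        intro a
        rw [map_mul, Pj_qs_sc]
      simp only [h5]
      rw [mon_scale hwt hs.le, hMe, hy]
      show (C.p (e (u, i))).qs (k.P0.qs (D.J.coeff j.1)) * _ = _
      rw [hcomc]
      ring
    rw [h4] at h2
    exact h2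
  have hsol : ∀ u j, y j - (M u)⁻¹.mulVec (b u) j ∈ Id C.W (D.w * s) := by
    intro u j
    have h1 := mulVec_mem_ideal (Id C.W (D.w * s)) (M u) (fun j => y j - (M u)⁻¹.mulVec (b u) j) (hMu u) (by
      intro i
      have h2 : (M u).mulVec (fun j => y j - (M u)⁻¹.mulVec (b u) j) i = (M u).mulVec y i - b u i := by
        have h3 : (fun j => y j - (M u)⁻¹.mulVec (b u) j) = y - (M u)⁻¹.mulVec (b u) := rfl
        rw [h3, Matrix.mulVec_sub, Matrix.mulVec_mulVec, Matrix.mul_nonsing_inv _ (hMu u), Matrix.one_mulVec]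
        rfl
      rw [h2]
      exact heq u i) j
    exact h1
  set F : Fin 2 → MvPolynomial κ (QS C.W) := fun u =>
    ∑ i, MvPolynomial.C ((M u)⁻¹ j₀ i) * MvPolynomial.map (C.p (e (u, i))).qs k.p with hF
  have hFe : ∀ u, MvPolynomial.eval RC (F u) = (M u)⁻¹.mulVec (b u) j₀ := by
    intro u
    rw [hF]
    show MvPolynomial.eval RC (∑ i, _) = _
    rw [map_sum]
    unfold Matrix.mulVec dotProduct
    apply Finset.sum_congr rfl
    intro i _
    rw [map_mul, MvPolynomial.eval_C]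
  have hFk : ∀ u, F u ∈ PK (omu u ⊔ qC) := by
    intro u
    rw [hF]
    apply (PK _).sum_mem
    intro i _
    apply (PK _).mul_mem (C_mem (hMik u j₀ i))
    refine PK_mono ?_ (map_PK (C.p (e (u, i))) k.pk)
    rw [Pj.map_sup, hcomq]
    exact sup_le_sup_right (hf_le u i) _
  have hFdiff : ∀ m, (F 0).coeff m - (F 1).coeff m ∈ Id C.W (D.w * s) := by
    intro m
    have h1 : MvPolynomial.eval RC (F 0) - MvPolynomial.eval RC (F 1) ∈ Id C.W (D.w * s) := by
      rw [hFe, hFe]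
      exact sub_sub_mem _ (hsol 0 j₀) (hsol 1 j₀)
    exact mv_small_unique one_pos le_rfl (Rl_iff_Rt.mp hRB) hws le_rfl
      (PKr_of_PK le_rfl (PK_mono (sup_le (le_sup_left.trans le_sup_left) le_sup_right) (hFk 0)))
      (PKr_of_PK le_rfl (PK_mono (sup_le (le_sup_right.trans le_sup_left) le_sup_right) (hFk 1))) h1 m
  have hF0 : F 0 ∈ PKr (D.w * s) hws (((C.p 0).comp k.P0).map D.qi) := by
    intro m
    have e1 : ((C.p 0).comp k.P0).map D.qi = qC := by
      rw [Pj.comp_map]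
    rw [e1]
    apply le_of_markov (A := omu 0) (B := omu 1) _ _ hI01
    · exact (QS.dg_mono _ hws).trans (hFk 0 m)
    · rw [dg_eq_of_sub_mem (hFdiff m) le_rfl hws]
      exact (QS.dg_mono _ hws).trans (hFk 1 m)
  -- descent
  have hws0 : 0 ≤ D.w * s := by
    by_cases hκ : Nonempty κ
    · obtain ⟨l⟩ := hκ
      exact mul_nonneg ((hwt _).trans (D.wlt l).le) hs.le
    · have h1 := (D.Jw j₀.1 (MvPolynomial.mem_support_iff.mp j₀.2)).2
      exact mul_nonneg ((wgt_nonneg hwt _).trans h1.le) hs.le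
  obtain ⟨Q, hQ1, _, hQ3⟩ := descend_coeff ((C.p 0).comp k.P0) (sc S (wgt D.wt j₀.1 * s) * D.J.coeff j₀.1)
    one_pos le_rfl (Rl_iff_Rt.mp hR) hws0 le_rfl hws hF0 (by
      rw [map_mul, Pj_qs_sc, Pj.comp_qs]
      have h1 : (fun i => ((C.p 0).comp k.P0).qs (D.R i)) = RC := by
        funext i
        rw [Pj.comp_qs]
      rw [h1, hFe]
      exact hsol 0 j₀)
  -- division
  have hu0 : 0 ≤ wgt D.wt j₀.1 * s := mul_nonneg (wgt_nonneg hwt _) hs.le
  have hu1 : wgt D.wt j₀.1 * s ≤ D.w * s :=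
    mul_le_mul_of_nonneg_right (D.Jw j₀.1 (MvPolynomial.mem_support_iff.mp j₀.2)).2.le hs.le
  have hQs : MvPolynomial.eval D.R Q ∈ Id S (wgt D.wt j₀.1 * s) := by
    have h1 := Id_mono hu1 hQ3
    have h2 : sc S (wgt D.wt j₀.1 * s) * D.J.coeff j₀.1 ∈ Id S (wgt D.wt j₀.1 * s) :=
      Ideal.mul_mem_right _ _ (sc_mem hu0)
    have h3 := (Id S _).sub_mem h2 h1
    rwa [sub_sub_cancel] at h3
  have hQc := fun m => mv_small one_pos le_rfl (Rl_iff_Rt.mp hR) (hu1.trans hws) le_rfl (PKr_of_PK le_rfl hQ1) hQs m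
  obtain ⟨A, hA⟩ := exists_coeffs Q (fun c g => c = sc S (wgt D.wt j₀.1 * s) * g ∧ dg g 1 ≤ dg c 1)
    ⟨by rw [mul_zero], le_rfl⟩ (fun m => exists_div' hu0 (hu1.trans hws) (hQc m))
  refine ⟨A, fun m => (hA m).2.trans (hQ1 m), ?_⟩
  have e1 : Q = MvPolynomial.C (sc S (wgt D.wt j₀.1 * s)) * A := by
    ext m
    rw [MvPolynomial.coeff_C_mul]
    exact (hA m).1
  rw [e1, map_mul, MvPolynomial.eval_C, ← mul_sub] at hQ3
  have h4 := mem_of_sc_mul hu0 hws hQ3
  rwa [← sub_mul] at h4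

end

end Pool.Agent.Helper57.TA
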