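import Pool.Agent.Helper57.TA.Mv

/-! THEOREM A: statements of the pieces (Props). -/

set_option autoImplicit false

namespace Pool.Agent.Helper57.TA

open Finset Filter Topology Pool.Agent.Helper69.RK Pool.Agent.Helper31.EC Pool.Agent.Helper31.EC.Sp
open Pool.Agent.Helper31.EC.QS

noncomputable section

/-! ## (POT) closed forms modulo an ideal -/

/-- number of vertical variables in a monomial -/
def vdeg {β κ : Type} [Fintype κ] (m : β ⊕ κ →₀ ℕ) : ℕ := ∑ k : κ, m (Sum.inr k)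

/-- the integration operator: the coefficient of `m` is multiplied by `iv (vdeg m) = 1 / (vdeg m + 1)` -/
def intg {A : Type} [CommRing A] (iv : ℕ → A) {β κ : Type} [Fintype κ] (P : MvPolynomial (β ⊕ κ) A) :
    MvPolynomial (β ⊕ κ) A :=
  ∑ m ∈ P.support, MvPolynomial.monomial m (P.coeff m * iv (vdeg m))

/-- the potential of a closed form in the vertical variables -/
def pot {A : Type} [CommRing A] (iv : ℕ → A) {β κ : Type} [Fintype κ]
    (Θ : κ → MvPolynomial (β ⊕ κ) A) : MvPolynomial (β ⊕ κ) A :=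
  ∑ k, MvPolynomial.X (Sum.inr k) * intg iv (Θ k)

/-- (POT) -/
def ST_POT : Prop :=
  ∀ (A : Type) (_ : CommRing A) (J : Ideal A) (iv : ℕ → A), (∀ n : ℕ, iv n * (n + 1) = 1) →
    ∀ (β κ : Type) (_ : Fintype κ) (Θ : κ → MvPolynomial (β ⊕ κ) A),
      (∀ k l m, (MvPolynomial.pderiv (Sum.inr l) (Θ k) - MvPolynomial.pderiv (Sum.inr k) (Θ l)).coeff m ∈ J) →
      ∀ l m, (MvPolynomial.pderiv (Sum.inr l) (pot iv Θ) - Θ l).coeff m ∈ J

/-! ## (LINE) coefficients are polynomials along the lines -/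

/-- `a` is a polynomial in `t` up to level `r`, with coefficients known to `b` -/
def WPol {S : Sp} (b : S.L) (t a : QS S) (r : ℝ) : Prop :=
  ∃ (k : ℕ) (α : Fin (k + 1) → QS S), (∀ j, dg (α j) 1 ≤ b) ∧ a - pe α t ∈ Id S r

/-- (LINE): `P`, `P'` are two points `t`, `t'` of one curve over one base line `bf` (literally common), `qi` = information
of the base point, `R` = flat vertical coordinates, `c = A(R)` a polynomial in `R` with coefficients known to the base
point; `c(t') - c(t)` is a polynomial in `R(t), t, t'` with coefficients known to the base line. Then the coefficients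
of `A` are polynomials in `t` with coefficients known to the base line. -/
def ST_LINE : Prop :=
  ∀ (S W : Sp) (P P' : Pj W S) (ν κ : Type) (_ : Fintype ν) (_ : Fintype κ) (bf : ν → QS S) (t : QS S)
    (R : κ → QS S) (qi : S.L) (A : MvPolynomial κ (QS S)) (c : QS S) (r : ℝ)
    (G : κ → MvPolynomial (Fin 2) (QS W)) (p : MvPolynomial (κ ⊕ Fin 2) (QS W)),
    0 < r → r ≤ 1 → (∀ a, P.qs (bf a) = P'.qs (bf a)) → qi ≤ vd bf 1 ⊔ dg t 1 →
    A ∈ PK qi → c - MvPolynomial.eval R A ∈ Id S r →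
    (∀ k, G k ∈ PK (P.map (vd bf 1))) →
    (∀ k, P'.qs (R k) - P.qs (R k) - MvPolynomial.eval ![P.qs t, P'.qs t] (G k) ∈ Id W r) →
    p ∈ PK (P.map (vd bf 1)) →
    P'.qs c - P.qs c - MvPolynomial.eval (Sum.elim (fun k => P.qs (R k)) ![P.qs t, P'.qs t]) p ∈ Id W r →
    Rl (fun k => P.qs (R k)) (P.map (vd bf 1) ⊔ (dg (P.qs t) 1 ⊔ dg (P'.qs t) 1)) →
    h (dg (P'.qs t) 1) (P.map (vd bf 1) ⊔ dg (P.qs t) 1) = 1 →
    ∀ m, WPol (vd bf 1) t (A.coeff m) r

/-! ## (STAR) weakly polynomial functions of the base point are polynomials -/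

/-- SEP up to level `r` -/
def ST_SEPr : Prop :=
  ∀ (k D : ℕ) (S : Sp) (ι : Type) (_ : Fintype ι) (F : ι → QS S) (s : Fin D → QS S) (g : QS S) (r : ℝ),
    0 < r → r ≤ 1 → Rl s (vd F 1) → dg g 1 ≤ vd s 1 ⊔ vd F 1 →
    (∀ i, ∃ G : Fin (k + 1) → QS S, vd G 1 ≤ sd s (Finset.univ.erase i) ⊔ vd F 1 ∧ g - pe G (s i) ∈ Id S r) →
    ∃ (W : Sp) (p : Pj W S) (P : MvPolynomial (Fin D) (QS W)), P ∈ PK (p.map (vd F 1)) ∧
      p.qs g - MvPolynomial.eval (fun i => p.qs (s i)) P ∈ Id W r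

/-- a star over the base point: `D` lines of (possibly different) types through one point; `g` = finitely many functions
of the point; `x`, `f` = direction and foot of the line (`q = f + t x`) -/
structure Star (S : Sp) (D : ℕ) {γ : Type} [Fintype γ] (g : γ → QS S) (q : Fin D → QS S) (t : QS S)
    (x f : Fin D → Fin D → QS S) where
  W : Sp
  p : Fin D → Pj W S
  com : ∀ i j a, (p i).qs (g a) = (p j).qs (g a)
  comq : ∀ i j a, (p i).qs (q a) = (p j).qs (q a)
  comt : ∀ i j, (p i).qs t = (p j).qs t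
  pt : ∀ i a, (p i).qs (q a) = (p i).qs (f i a) + (p i).qs t * (p i).qs (x i a)
  unit : IsUnit (Matrix.of fun i a => (p i).qs (x i a)).det
  real : ∀ i₀, Rl (fun a => (p i₀).qs (q a)) (vd (fun u : Fin D × Fin D => (p u.1).qs (x u.1 u.2)) 1)
  ind : ∀ i₀, I (vd (fun u : Fin D × Fin D => (p u.1).qs (x u.1 u.2)) 1)
    ((p i₀).map (vd q 1 ⊔ vd g 1)) ⊥ = 0

/-- (STAR): a function of the point, known to the base point, which is a polynomial in `t` along the lines of the star
is a polynomial in the base point, with coefficients of rate zero (in an extension) -/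
def ST_STAR : Prop :=
  ∀ (S : Sp) (D : ℕ) (γ : Type) (_ : Fintype γ) (g : γ → QS S) (q : Fin D → QS S) (t : QS S)
    (x f : Fin D → Fin D → QS S) (_ : Star S D g q t x f) (a₀ : γ) (r : ℝ), 0 < r → r ≤ 1 → 0 < D →
    dg (g a₀) 1 ≤ vd q 1 → dg t 1 ≤ vd q 1 →
    (∀ i, WPol (vd (x i) 1 ⊔ vd (f i) 1) t (g a₀) r) →
    ∃ (W : Sp) (p : Pj W S) (Θ : MvPolynomial (Fin D) (QS W)), Θ ∈ PK ⊥ ∧
      p.qs (g a₀) - MvPolynomial.eval (fun a => p.qs (q a)) Θ ∈ Id W r

end

end Pool.Agent.Helper57.TA
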