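import Pool.Agent.Helper57.TA.Uni
import Pool.Agent.Helper57.TA.Def

/-! THEOREM A: the structures of one step. -/

set_option autoImplicit false

namespace Pool.Agent.Helper57.TA

open Finset Filter Topology Pool.Agent.Helper69.RK Pool.Agent.Helper31.EC Pool.Agent.Helper31.EC.Sp
open Pool.Agent.Helper31.EC.QS

noncomputable section

/-- weight of a monomial -/
def wgt {σ : Type} [Fintype σ] (wt : σ → ℝ) (m : σ →₀ ℕ) : ℝ := ∑ a, (m a : ℝ) * wt a

/-- DATA AT A POINT for one vertical coordinate `z` of weight `w`: base coordinates `q`, lower vertical coordinates `R`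
(flat and untilted; box coordinates `γ_k = ΔR_k - Π_k(Δq)`), jets `J` of the box of `z` in the box coordinates -/
structure Dat (S : Sp) (β κ : Type) [Fintype β] [Fintype κ] where
  q : β → QS S
  R : κ → QS S
  z : QS S
  wt : β ⊕ κ → ℝ
  w : ℝ
  Pj : κ → MvPolynomial β (QS S)
  J : MvPolynomial (β ⊕ κ) (QS S)
  /-- information of the point (all digits) -/
  inf : S.L
  wpos : ∀ a, 0 < wt a
  wlt : ∀ k, wt (Sum.inr k) < w
  Pjk : ∀ k, Pj k ∈ PK (vd q 1)
  Pj0 : ∀ k, (Pj k).coeff 0 = 0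
  Jw : ∀ m, J.coeff m ≠ 0 → m ≠ 0 ∧ wgt wt m < w
  qinf : vd q 1 ≤ inf
  Rinf : vd R 1 ≤ inf
  Jinf : J ∈ PK inf
  zinf : dg z 1 ≤ inf

namespace Dat

variable {S : Sp} {β κ : Type} [Fintype β] [Fintype κ] (D : Dat S β κ)

/-- information of the base point -/
def qi : S.L := vd D.q 1

/-- first vertical jets -/
def c (l : κ) : QS S := D.J.coeff (Finsupp.single (Sum.inr l) 1)

/-- weight of a vertical coordinate -/
def wv (l : κ) : ℝ := D.wt (Sum.inr l)

end Dat

variable {S : Sp} {β κ : Type} [Fintype β] [Fintype κ]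

/-- A PAIR of points `P0`, `P1` in the same box of scale `s`: displacement `2^(-wt s) ξ` in box coordinates -/
structure Pair (D : Dat S β κ) (s : ℝ) where
  W : Sp
  P0 : Pj W S
  P1 : Pj W S
  ξ : β ⊕ κ → QS W
  dq : ∀ a, P1.qs (D.q a) = P0.qs (D.q a) + sc W (D.wt (Sum.inl a) * s) * ξ (Sum.inl a)
  /-- (up to the precision `w s` of `z`) -/
  dR : ∀ k, P1.qs (D.R k) - (P0.qs (D.R k) +
    MvPolynomial.eval (fun a => sc W (D.wt (Sum.inl a) * s) * ξ (Sum.inl a)) (MvPolynomial.map P0.qs (D.Pj k)) +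
      sc W (D.wt (Sum.inr k) * s) * ξ (Sum.inr k)) ∈ Id W (D.w * s)
  /-- (W) -/
  hW : P1.qs D.z - P0.qs D.z - MvPolynomial.eval (fun a => sc W (D.wt a * s) * ξ a)
    (MvPolynomial.map P0.qs D.J) ∈ Id W (D.w * s)

namespace Pair

variable {D : Dat S β κ} {s : ℝ} (k : Pair D s)

/-- displacement in box coordinates -/
def raw (a : β ⊕ κ) : QS k.W := sc k.W (D.wt a * s) * k.ξ a

/-- (RC) recentring of the first vertical jets -/
def RC : Prop := ∀ l, k.P1.qs (D.c l) - MvPolynomial.eval k.raw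
  (MvPolynomial.pderiv (Sum.inr l) (MvPolynomial.map k.P0.qs D.J)) ∈ Id k.W ((D.w - D.wv l) * s)

end Pair

/-- A WALK of scale `s`: a pair together with the base walk `om` -/
structure Walk (D : Dat S β κ) (s : ℝ) extends Pair D s where
  om : W.L
  p : MvPolynomial κ (QS W)
  ind : I om (P0.map D.inf) (P0.map D.qi) = 0
  kn : ∀ a, dg (ξ a) 1 ≤ om ⊔ P0.map D.qi
  pk : p ∈ PK (om ⊔ P0.map D.qi)
  hp : P1.qs D.z - P0.qs D.z - MvPolynomial.eval (fun k => P0.qs (D.R k)) p ∈ Id W (D.w * s)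
  ℓ : ℝ
  ℓ0 : 0 < ℓ
  ℓ1 : ℓ ≤ 1
  real : Rt ℓ ξ (P0.map D.inf)

/-- (T) for walks: the first vertical jets move by the derivatives of the transport -/
def Walk.T {D : Dat S β κ} {s : ℝ} (k : Walk D s) : Prop := ∀ l, k.P1.qs (D.c l) - k.P0.qs (D.c l) -
  MvPolynomial.eval (fun i => k.P0.qs (D.R i)) (MvPolynomial.pderiv l k.p) ∈ Id k.W (D.w * s)

/-- A TRANSPORT along one curve over the base line `bf` (literally common), from time `t` to time `t'`, up to level
`r` -/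
structure Tran (D : Dat S β κ) {ν : Type} [Fintype ν] (bf : ν → QS S) (t : QS S) (r : ℝ) where
  W : Sp
  P : Pj W S
  P' : Pj W S
  com : ∀ a, P.qs (bf a) = P'.qs (bf a)
  G : κ → MvPolynomial (Fin 2) (QS W)
  p : MvPolynomial (κ ⊕ Fin 2) (QS W)
  Gk : ∀ k, G k ∈ PK (P.map (vd bf 1))
  pk : p ∈ PK (P.map (vd bf 1))
  hG : ∀ k, P'.qs (D.R k) - P.qs (D.R k) - MvPolynomial.eval ![P.qs t, P'.qs t] (G k) ∈ Id W r
  hp : P'.qs D.z - P.qs D.z - MvPolynomial.eval (Sum.elim (fun k => P.qs (D.R k)) ![P.qs t, P'.qs t]) p ∈ Id W r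
  /-- (T) -/
  hT : ∀ l, P'.qs (D.c l) - P.qs (D.c l) - MvPolynomial.eval (Sum.elim (fun k => P.qs (D.R k)) ![P.qs t, P'.qs t])
    (MvPolynomial.pderiv (Sum.inl l) p) ∈ Id W r
  Rreal : Rl (fun k => P.qs (D.R k)) (P.map (vd bf 1) ⊔ (dg (P.qs t) 1 ⊔ dg (P'.qs t) 1))
  treal : h (dg (P'.qs t) 1) (P.map (vd bf 1) ⊔ dg (P.qs t) 1) = 1
  /-- the base point moves along a straight line -/
  lin : ∀ a, ∃ f x : QS S, dg f 1 ≤ vd bf 1 ∧ dg x 1 ≤ vd bf 1 ∧ D.q a = f + t * x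
  tq : dg t 1 ≤ D.qi

/-- functions of the base point which are polynomials along all lines are polynomials with coefficients of rate zero
(in an extension), up to level `r` (= output of (STAR)) -/
def PolQ (q : β → QS S) {ι : Type} (L : ι → S.L) (t : QS S) (r : ℝ) : Prop :=
  ∀ a : QS S, dg a 1 ≤ vd q 1 → (∀ i, WPol (L i) t a r) →
    ∃ (W : Sp) (p : Pj W S) (Θ : MvPolynomial β (QS W)), Θ ∈ PK ⊥ ∧
      p.qs a - MvPolynomial.eval (fun b => p.qs (q b)) Θ ∈ Id W r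

/-! THEOREM A for one coordinate is `ST_AS` (statement) and `st_AS` (proof from (LINE)) in `TA/Fin.lean`. -/

end

end Pool.Agent.Helper57.TA
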