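import Pool.Agent.Helper57.TA.Top
import Pool.Agent.Helper38.NS.Lin

/-! Exact entropy calculus: small polynomials in several variables with full first digits have small coefficients. -/

set_option autoImplicit false

namespace Pool.Agent.Helper57.TA

open Finset Filter Topology Pool.Agent.Helper69.RK Pool.Agent.Helper31.EC Pool.Agent.Helper31.EC.Sp
open Pool.Agent.Helper31.EC.QS

noncomputable section

variable {S : Sp}

/-- evaluation modulo an ideal -/
theorem eval_sub_mem {A σ : Type*} [CommRing A] (J : Ideal A) (P : MvPolynomial σ A) (x y : σ → A)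
    (h : ∀ i, x i - y i ∈ J) : MvPolynomial.eval x P - MvPolynomial.eval y P ∈ J := by
  rw [← Ideal.Quotient.mk_eq_mk_iff_sub_mem]
  have h1 : ∀ z : σ → A, Ideal.Quotient.mk J (MvPolynomial.eval z P) =
      MvPolynomial.eval₂ (Ideal.Quotient.mk J) (fun i => Ideal.Quotient.mk J (z i)) P := by
    intro z
    rw [← MvPolynomial.eval₂_id, MvPolynomial.hom_eval₂, RingHom.comp_id]
  rw [h1, h1]
  congr 1
  funext i
  exact Ideal.Quotient.mk_eq_mk_iff_sub_mem _ _ |>.mpr (h i)

/-- evaluation of polynomials with small coefficients -/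
theorem eval_mem_ideal {A σ : Type*} [CommRing A] (J : Ideal A) {P : MvPolynomial σ A}
    (hP : ∀ m, P.coeff m ∈ J) (x : σ → A) : MvPolynomial.eval x P ∈ J := by
  rw [MvPolynomial.eval_eq]
  exact J.sum_mem fun m _ => J.mul_mem_right _ (hP m)

open Classical in
/-- polynomials whose coefficients are divisible -/
theorem exists_coeffs {A σ : Type*} [CommRing A] (P : MvPolynomial σ A) (R : A → A → Prop) (h0 : R 0 0)
    (h : ∀ m, ∃ g, R (P.coeff m) g) : ∃ Q : MvPolynomial σ A, ∀ m, R (P.coeff m) (Q.coeff m) := by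
  choose g hg using h
  refine ⟨∑ m ∈ P.support, MvPolynomial.monomial m (g m), fun m => ?_⟩
  rw [MvPolynomial.coeff_sum]
  simp only [MvPolynomial.coeff_monomial]
  rw [Finset.sum_ite_eq' P.support m g]
  split_ifs with h1
  · exact hg m
  · rw [MvPolynomial.notMem_support_iff.mp h1]
    exact h0

theorem mv_small0 : ∀ (D : ℕ) {S : Sp} (A : S.L) (x : Fin D → QS S) (P : MvPolynomial (Fin D) (QS S)) {ℓ : ℝ},
    0 < ℓ → ℓ ≤ 1 → Rt ℓ x A → P ∈ PK A → ∀ {r : ℝ}, r ≤ ℓ → MvPolynomial.eval x P ∈ Id S r →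
      ∀ m, P.coeff m ∈ Id S r := by
  classical
  intro D
  induction D with
  | zero =>
    intro S A x P ℓ _ _ _ _ r _ h m
    rw [MvPolynomial.eq_C_of_isEmpty P] at h ⊢
    rw [MvPolynomial.eval_C] at h
    rw [MvPolynomial.coeff_C]
    split_ifs
    · exact h
    · exact (Id S r).zero_mem
  | succ D ih =>
    intro S A x P ℓ hℓ hℓ1 hx hP r hr hev
    have hr1 : r ≤ 1 := hr.trans hℓ1
    set x' : Fin D → QS S := fun i => x i.succ with hx'
    have hround : ∀ i, ∃ g : QS S, QS.dg g 1 ≤ QS.dg (x' i) ℓ ∧ x' i - g ∈ QS.Id S ℓ := fun i =>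
      exists_round (x' i) hℓ.le hℓ1
    choose x'' hx1 hx2 using hround
    have e1 : x = Fin.cons (x 0) x' := by
      funext i
      induction i using Fin.cases with
      | zero => rw [Fin.cons_zero]
      | succ i => rw [Fin.cons_succ]
    have e2 : MvPolynomial.eval (Fin.cons (x 0) x'') P ∈ Id S r := by
      have h1 := eval_sub_mem (Id S r) P x (Fin.cons (x 0) x'') (by
        intro i
        induction i using Fin.cases with
        | zero => rw [Fin.cons_zero, sub_self]; exact (Id S r).zero_mem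
        | succ i => rw [Fin.cons_succ]; exact Id_mono hr (hx2 i))
      have h2 := (Id S r).sub_mem hev h1
      rwa [sub_sub_cancel] at h2
    rw [MvPolynomial.eval_eq_eval_mv_eval'] at e2
    set F := MvPolynomial.finSuccEquiv (QS S) D P with hF
    set Q := Polynomial.map (MvPolynomial.eval x'') F with hQ
    have hFk : ∀ a, F.coeff a ∈ PK A := by
      intro a m
      rw [hF, MvPolynomial.finSuccEquiv_coeff_coeff]
      exact hP _
    set B : S.L := (Finset.univ.sup fun i : Fin D => dg (x' i) ℓ) ⊔ A with hB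
    have hx0 : h (dg (x 0) ℓ) B = ℓ := by
      have h1 := hx.sub hℓ.le (s := {0}) (t := Finset.univ.image Fin.succ) (by
        rw [Finset.disjoint_left]
        intro i hi
        rw [Finset.mem_singleton] at hi
        subst hi
        simp)
      rw [Finset.sup_singleton, Finset.sup_image, Finset.card_singleton, Nat.cast_one, one_mul] at h1
      exact h1
    have hxr : Rt ℓ x' A := hx.comp hℓ.le Fin.succ (Fin.succ_injective D)
    have hc : ∀ a, dg (Q.coeff a) 1 ≤ B := by
      intro a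
      rw [hQ, Polynomial.coeff_map]
      exact eval_mem (hFk a) x'' le_sup_right (fun i => (hx1 i).trans
        (le_trans (Finset.le_sup (f := fun i : Fin D => dg (x' i) ℓ) (Finset.mem_univ i)) le_sup_left))
    have hz : ∀ a, ∀ m, (F.coeff a).coeff m ∈ Id S r := by
      intro a
      apply ih A x' (F.coeff a) hℓ hℓ1 hxr (hFk a) hr
      have hpe : ∀ (P : Polynomial (QS S)) (x : QS S) (k : ℕ), P.natDegree < k + 1 →
          pe (fun a : Fin (k + 1) => P.coeff a) x = P.eval x := by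
        intro P x k hk
        rw [Polynomial.eval_eq_sum_range' hk, ← Fin.sum_univ_eq_sum_range (fun a => P.coeff a * x ^ a) (k + 1)]
        rfl
      have h1 : pe (fun b : Fin (max Q.natDegree a + 1) => Q.coeff b) (x 0) ∈ Id S r := by
        rw [hpe Q (x 0) (max Q.natDegree a) (Nat.lt_succ_of_le (le_max_left _ _))]
        exact e2
      have h2 := top_zero (fun b : Fin (max Q.natDegree a + 1) => Q.coeff b) (x 0) hℓ hℓ1 (by
        apply le_antisymm ((h_le_H _ _).trans (H_dg_le _ hℓ.le))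
        refine hx0.ge.trans (h_anti ?_)
        rw [vd_le]
        intro b
        exact hc b) hr1 h1 ⟨a, Nat.lt_succ_of_le (le_max_right _ _)⟩
      have h3 : Q.coeff a ∈ Id S r := h2
      rw [hQ, Polynomial.coeff_map] at h3
      have h4 := eval_sub_mem (Id S r) (F.coeff a) x' x'' (fun i => Id_mono hr (hx2 i))
      have h5 := (Id S r).add_mem h4 h3
      rwa [sub_add_cancel] at h5
    intro m
    have h1 := hz (m 0) (Finsupp.tail m)
    rw [hF, MvPolynomial.finSuccEquiv_coeff_coeff, Finsupp.cons_tail] at h1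
    exact h1

/-- the same for any level -/
theorem mv_small1 {D : ℕ} {S : Sp} (A : S.L) (x : Fin D → QS S) {ℓ : ℝ} (hℓ : 0 < ℓ) (hℓ1 : ℓ ≤ 1)
    (hx : Rt ℓ x A) : ∀ (N : ℕ) (P : MvPolynomial (Fin D) (QS S)), P ∈ PK A → ∀ {r : ℝ}, r ≤ N * ℓ → r ≤ 1 →
      MvPolynomial.eval x P ∈ Id S r → ∀ m, P.coeff m ∈ Id S r := by
  intro N
  induction N with
  | zero =>
    intro P hP r hr _ _ m
    rw [Nat.cast_zero, zero_mul] at hr
    exact mem_Id_nonpos hr
  | succ N ih =>
    intro P hP r hr hr1 hev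
    rcases le_total r ℓ with h1 | h1
    · exact mv_small0 D A x P hℓ hℓ1 hx hP h1 hev
    · have h2 := mv_small0 D A x P hℓ hℓ1 hx hP le_rfl (Id_mono h1 hev)
      obtain ⟨P1, hP1⟩ := exists_coeffs P (fun c g => c = sc S ℓ * g ∧ dg g 1 ≤ dg c 1)
        ⟨by rw [mul_zero], le_rfl⟩ (fun m => exists_div' hℓ.le hℓ1 (h2 m))
      have e1 : P = MvPolynomial.C (sc S ℓ) * P1 := by
        ext m
        rw [MvPolynomial.coeff_C_mul]
        exact (hP1 m).1
      rw [e1, MvPolynomial.eval_mul, MvPolynomial.eval_C] at hev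
      have h3 := mem_of_sc_mul hℓ.le hr1 hev
      have h4 := ih P1 (fun m => (hP1 m).2.trans (hP m)) (r := r - ℓ) (by
        push_cast at hr
        linarith) (by linarith) h3
      intro m
      rw [(hP1 m).1]
      have h5 := sc_mul_mem hℓ.le (h4 m)
      rwa [add_sub_cancel] at h5

/-- the polynomials whose coefficients have digits of level `r` known to `A` -/
def PKr {σ : Type} (r : ℝ) (hr : r ≤ 1) (A : S.L) : Subring (MvPolynomial σ (QS S)) where
  carrier := {P | ∀ m, dg (P.coeff m) r ≤ A}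
  mul_mem' := by
    classical
    intro P Q hP hQ m
    rw [MvPolynomial.coeff_mul]
    exact (Kn S r hr A).sum_mem fun x _ => (Kn S r hr A).mul_mem (hP x.1) (hQ x.2)
  one_mem' := by
    classical
    intro m
    rw [MvPolynomial.coeff_one]
    split_ifs
    · exact (Kn S r hr A).one_mem
    · exact (Kn S r hr A).zero_mem
  add_mem' := by
    intro P Q hP hQ m
    rw [MvPolynomial.coeff_add]
    exact (Kn S r hr A).add_mem (hP m) (hQ m)
  zero_mem' := by
    intro m
    rw [MvPolynomial.coeff_zero]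
    exact (Kn S r hr A).zero_mem
  neg_mem' := by
    intro P hP m
    rw [MvPolynomial.coeff_neg]
    exact (Kn S r hr A).neg_mem (hP m)

theorem mem_PKr {σ : Type} {r : ℝ} {hr : r ≤ 1} {A : S.L} {P : MvPolynomial σ (QS S)} :
    P ∈ PKr r hr A ↔ ∀ m, dg (P.coeff m) r ≤ A := Iff.rfl

theorem PKr_mono {σ : Type} {r : ℝ} {hr : r ≤ 1} {A B : S.L} (h : A ≤ B) : PKr (σ := σ) r hr A ≤ PKr r hr B :=
  fun _ hP m => (hP m).trans h

theorem PKr_anti {σ : Type} {r s : ℝ} (hs : s ≤ r) (hr : r ≤ 1) {A : S.L} {P : MvPolynomial σ (QS S)}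
    (h : P ∈ PKr r hr A) : P ∈ PKr s (hs.trans hr) A :=
  fun m => (QS.dg_mono _ hs).trans (h m)

theorem PKr_of_PK {σ : Type} {r : ℝ} (hr : r ≤ 1) {A : S.L} {P : MvPolynomial σ (QS S)} (h : P ∈ PK A) :
    P ∈ PKr r hr A := fun m => (QS.dg_mono _ hr).trans (h m)

theorem eval_PKr {σ : Type} {r : ℝ} {hr : r ≤ 1} {A : S.L} {P : MvPolynomial σ (QS S)} (hP : P ∈ PKr r hr A)
    (x : σ → QS S) {B : S.L} (hAB : A ≤ B) (hx : ∀ i, dg (x i) r ≤ B) : dg (MvPolynomial.eval x P) r ≤ B := by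
  rw [MvPolynomial.eval_eq]
  apply (Kn S r hr B).sum_mem
  intro m _
  apply (Kn S r hr B).mul_mem ((hP m).trans hAB)
  exact (Kn S r hr B).prod_mem fun i _ => (Kn S r hr B).pow_mem (hx i) _

theorem map_PKr {T : Sp} (p : Pj T S) {σ : Type} {r : ℝ} {hr : r ≤ 1} {A : S.L} {P : MvPolynomial σ (QS S)}
    (hP : P ∈ PKr r hr A) : MvPolynomial.map p.qs P ∈ PKr r hr (p.map A) := by
  intro m
  rw [MvPolynomial.coeff_map, p.qs_dg]
  exact Pj.map_mono _ (hP m)

/-- rounding of polynomials -/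
theorem exists_round_mv {σ : Type} (P : MvPolynomial σ (QS S)) {r : ℝ} (hr0 : 0 ≤ r) (hr : r ≤ 1) :
    ∃ Q : MvPolynomial σ (QS S), ∀ m, dg (Q.coeff m) 1 ≤ dg (P.coeff m) r ∧ P.coeff m - Q.coeff m ∈ Id S r := by
  apply exists_coeffs P (fun c g => dg g 1 ≤ dg c r ∧ c - g ∈ Id S r)
  · refine ⟨?_, by rw [sub_zero]; exact (Id S r).zero_mem⟩
    have h1 : dg (0 : QS S) 1 ≤ ⊥ := (Kn S 1 le_rfl ⊥).zero_mem
    exact h1.trans bot_le
  · intro m
    exact exists_round _ hr0 hr

/-- SMALL POLYNOMIALS HAVE SMALL COEFFICIENTS: variables with full first digits, coefficients known to level `r₀` -/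
theorem mv_small {σ : Type} [Fintype σ] {A : S.L} {x : σ → QS S} {ℓ : ℝ} (hℓ : 0 < ℓ) (hℓ1 : ℓ ≤ 1)
    (hx : Rt ℓ x A) {P : MvPolynomial σ (QS S)} {r₀ r : ℝ} (hr : r ≤ r₀) (hr1 : r₀ ≤ 1)
    (hP : P ∈ PKr r₀ hr1 A) (hev : MvPolynomial.eval x P ∈ Id S r) (m : σ →₀ ℕ) : P.coeff m ∈ Id S r := by
  classical
  rcases le_total r₀ 0 with h0 | h0
  · exact mem_Id_nonpos (hr.trans h0)
  obtain ⟨Q, hQ⟩ := exists_round_mv P h0 hr1
  have hQP : ∀ m, (P - Q).coeff m ∈ Id S r := by
    intro m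
    rw [MvPolynomial.coeff_sub]
    exact Id_mono hr (hQ m).2
  have hQe : MvPolynomial.eval x Q ∈ Id S r := by
    have h1 := eval_mem_ideal (Id S r) hQP x
    rw [map_sub] at h1
    have h2 := (Id S r).sub_mem hev h1
    rwa [sub_sub_cancel] at h2
  have hQk : Q ∈ PK A := fun m => (hQ m).1.trans (hP m)
  set e : Fin (Fintype.card σ) ≃ σ := (Fintype.equivFin σ).symm with he
  have h1 : ∀ m, (MvPolynomial.rename e.symm Q).coeff m ∈ Id S r := by
    obtain ⟨N, hN⟩ := exists_nat_ge (r / ℓ)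
    apply mv_small1 A (fun i => x (e i)) hℓ hℓ1 (hx.comp hℓ.le e e.injective) N _ (rename_mem _ hQk)
      (by rwa [div_le_iff₀ hℓ] at hN) (hr.trans hr1)
    rw [MvPolynomial.eval_rename]
    have : (fun i => x (e i)) ∘ e.symm = x := by
      funext i
      simp
    rw [this]
    exact hQe
  have h2 := h1 (m.mapDomain e.symm)
  rw [MvPolynomial.coeff_rename_mapDomain _ e.symm.injective] at h2
  have h3 := (Id S r).add_mem (hQP m) h2
  rw [MvPolynomial.coeff_sub, sub_add_cancel] at h3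
  exact h3

/-- uniqueness of the coefficients modulo small functions -/
theorem mv_small_unique {σ : Type} [Fintype σ] {A : S.L} {x : σ → QS S} {ℓ : ℝ} (hℓ : 0 < ℓ) (hℓ1 : ℓ ≤ 1)
    (hx : Rt ℓ x A) {P Q : MvPolynomial σ (QS S)} {r₀ r : ℝ} (hr : r ≤ r₀) (hr1 : r₀ ≤ 1)
    (hP : P ∈ PKr r₀ hr1 A) (hQ : Q ∈ PKr r₀ hr1 A)
    (hev : MvPolynomial.eval x P - MvPolynomial.eval x Q ∈ Id S r) (m : σ →₀ ℕ) :
    P.coeff m - Q.coeff m ∈ Id S r := by
  have h1 := mv_small hℓ hℓ1 hx hr hr1 ((PKr r₀ hr1 A).sub_mem hP hQ) (by rwa [map_sub]) m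
  rwa [MvPolynomial.coeff_sub] at h1

end

end Pool.Agent.Helper57.TA
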