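import Pool.Agent.Helper57.TA.Fla

/-! THEOREM A for one coordinate (from (LINE)). -/

set_option autoImplicit false

namespace Pool.Agent.Helper57.TA

open Finset Filter Topology Pool.Agent.Helper69.RK Pool.Agent.Helper31.EC Pool.Agent.Helper31.EC.Sp
open Pool.Agent.Helper31.EC.QS

noncomputable section

variable {S : Sp}

/-- converse of `small_raw` -/
theorem raw_small {σ : Type} [Fintype σ] {wt : σ → ℝ} (hwt : ∀ a, 0 ≤ wt a) {s : ℝ} (hs : 0 ≤ s) {ξ : σ → QS S}
    {Q : MvPolynomial σ (QS S)} {r : ℝ} (h : ∀ m, Q.coeff m ∈ Id S (r - wgt wt m * s)) :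
    MvPolynomial.eval (fun a => sc S (wt a * s) * ξ a) Q ∈ Id S r := by
  rw [MvPolynomial.eval_eq']
  apply Ideal.sum_mem
  intro m _
  rw [mon_scale hwt hs]
  have h1 := sc_mul_mem (mul_nonneg (wgt_nonneg hwt m) hs) (Ideal.mul_mem_right (∏ a, ξ a ^ m a) _ (h m))
  have e1 : wgt wt m * s + (r - wgt wt m * s) = r := by ring
  rw [e1] at h1
  have e2 : Q.coeff m * (sc S (wgt wt m * s) * ∏ a, ξ a ^ m a) =
      sc S (wgt wt m * s) * (Q.coeff m * ∏ a, ξ a ^ m a) := by ring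
  rw [e2]
  exact h1

theorem Rt.of_sup {ι : Type} [Fintype ι] {x : ι → QS S} {A : S.L} (h : Rl x A) : Rt 1 x A := Rl_iff_Rt.mp h

variable {β κ : Type} [Fintype β] [Fintype κ]

theorem Rl_inl {D : Dat S β κ} (hX : Rl D.X ⊥) : Rl D.q ⊥ := by
  rw [Rl_iff_Rt] at hX ⊢
  exact hX.comp zero_le_one Sum.inl Sum.inl_injective

theorem Rl_inr {D : Dat S β κ} (hX : Rl D.X ⊥) : Rl D.R D.qi := by
  classical
  rw [Rl_iff_Rt] at hX
  have h1 := hX.sub zero_le_one (s := Finset.univ.map ⟨Sum.inr, Sum.inr_injective⟩)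
    (t := Finset.univ.map ⟨Sum.inl, Sum.inl_injective⟩) (by
      rw [Finset.disjoint_left]
      intro a h1 h2
      obtain ⟨b, _, hb⟩ := Finset.mem_map.mp h1
      obtain ⟨c, _, hc⟩ := Finset.mem_map.mp h2
      simp only [Function.Embedding.coeFn_mk] at hb hc
      rw [← hb] at hc
      simp at hc)
  rw [Finset.sup_map, Finset.sup_map, Finset.card_map, sup_bot_eq, Finset.card_univ] at h1
  rw [Rl_iff_Rt]
  exact h1

theorem wgt_inl (wt : β ⊕ κ → ℝ) (n : β →₀ ℕ) : wgt wt (n.mapDomain Sum.inl) = wgt (fun a => wt (Sum.inl a)) n := by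
  unfold wgt
  rw [Fintype.sum_sum_type]
  have h1 : ∀ a : β, (n.mapDomain Sum.inl : β ⊕ κ →₀ ℕ) (Sum.inl a) = n a := fun a =>
    Finsupp.mapDomain_apply Sum.inl_injective n a
  have h2 : ∀ a : κ, (n.mapDomain Sum.inl : β ⊕ κ →₀ ℕ) (Sum.inr a) = 0 := fun a =>
    Finsupp.mapDomain_of_notMem_range _ _ (by simp)
  simp only [h1, h2, Nat.cast_zero, zero_mul, Finset.sum_const_zero, add_zero]

omit [Fintype β] [Fintype κ] in
theorem eq_mapDomain_inl (m : β ⊕ κ →₀ ℕ) (h : ∀ l, m (Sum.inr l) = 0) :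
    ∃ n : β →₀ ℕ, n.mapDomain Sum.inl = m := by
  refine ⟨m.comapDomain Sum.inl Sum.inl_injective.injOn, Finsupp.mapDomain_comapDomain _ Sum.inl_injective _ ?_⟩
  rintro (a | a) ha
  · exact ⟨a, rfl⟩
  · exact absurd (h a) (Finsupp.mem_support_iff.mp ha)

open Classical in
/-- the horizontal part of weight `< w` -/
def hor (wt : β ⊕ κ → ℝ) (w : ℝ) (G : MvPolynomial (β ⊕ κ) (QS S)) : MvPolynomial β (QS S) :=
  ∑ n ∈ (G.support.preimage (fun n : β →₀ ℕ => n.mapDomain Sum.inl)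
    (Finsupp.mapDomain_injective Sum.inl_injective).injOn).filter
      (fun n => n ≠ 0 ∧ wgt (fun a => wt (Sum.inl a)) n < w), MvPolynomial.monomial n (G.coeff (n.mapDomain Sum.inl))

open Classical in
omit [Fintype κ] in
theorem coeff_hor (wt : β ⊕ κ → ℝ) (w : ℝ) (G : MvPolynomial (β ⊕ κ) (QS S)) (n : β →₀ ℕ) :
    (hor wt w G).coeff n = if n ≠ 0 ∧ wgt (fun a => wt (Sum.inl a)) n < w then G.coeff (n.mapDomain Sum.inl) else 0 := by
  unfold hor
  rw [MvPolynomial.coeff_sum]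
  simp only [MvPolynomial.coeff_monomial]
  rw [Finset.sum_ite_eq' _ n]
  by_cases h1 : n ≠ 0 ∧ wgt (fun a => wt (Sum.inl a)) n < w
  · rw [if_pos h1]
    by_cases h2 : n.mapDomain Sum.inl ∈ G.support
    · rw [if_pos]
      rw [Finset.mem_filter, Finset.mem_preimage]
      exact ⟨h2, h1⟩
    · rw [if_neg, MvPolynomial.notMem_support_iff.mp h2]
      rw [Finset.mem_filter, Finset.mem_preimage]
      exact fun h => h2 h.1
  · rw [if_neg h1, if_neg]
    rw [Finset.mem_filter]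
    exact fun h => h1 h.2

/-- the flat coordinate -/
def Dat.hat (D : Dat S β κ) (H : MvPolynomial (β ⊕ κ) (QS S)) (hH : H ∈ PK ⊥) : Dat S β Empty where
  q := D.q
  R := Empty.elim
  z := D.z - MvPolynomial.eval D.X H
  wt := Sum.elim (fun a => D.wt (Sum.inl a)) Empty.elim
  w := D.w
  Pj := Empty.elim
  J := MvPolynomial.rename Sum.inl (hor D.wt D.w (D.J - MvPolynomial.aeval D.tau H))
  inf := D.inf
  wpos := by
    rintro (a | a)
    · exact D.wpos _
    · exact a.elim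
  wlt := fun k => k.elim
  Pjk := fun k => k.elim
  Pj0 := fun k => k.elim
  Jw := by
    classical
    intro m hm
    obtain ⟨n, hn⟩ := eq_mapDomain_inl m fun l => l.elim
    rw [← hn, MvPolynomial.coeff_rename_mapDomain _ Sum.inl_injective, coeff_hor] at hm
    split_ifs at hm with h
    · refine ⟨?_, ?_⟩
      · rw [← hn]
        intro h0
        apply h.1
        exact Finsupp.mapDomain_injective Sum.inl_injective (h0.trans Finsupp.mapDomain_zero.symm)
      · rw [← hn, wgt_inl]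
        exact h.2
    · exact absurd rfl hm
  qinf := D.qinf
  Rinf := by
    rw [vd_le]
    exact fun a => a.elim
  Jinf := by
    classical
    apply rename_PK
    intro n
    rw [coeff_hor]
    split_ifs
    · exact (PK D.inf).sub_mem D.Jinf (sbs_PK (PK_mono bot_le hH) D.tau_know) _
    · exact (Kn S 1 le_rfl _).zero_mem
  zinf := (Kn S 1 le_rfl _).sub_mem D.zinf (QS.eval_mem hH D.X bot_le D.X_know)

/-- (W) for the flat coordinate -/
theorem Pair.hat {D : Dat S β κ} {s : ℝ} (hs : 0 ≤ s) (hws : D.w * s ≤ 1) (k : Pair D s)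
    (H : MvPolynomial (β ⊕ κ) (QS S))
    (hag : ∀ m, k.P1.qs (H.coeff m) - k.P0.qs (H.coeff m) ∈ Id k.W (D.w * s))
    (hv : ∀ m : β ⊕ κ →₀ ℕ, ∀ l, m (Sum.inr l) ≠ 0 →
      D.J.coeff m - (MvPolynomial.aeval D.tau H).coeff m ∈ Id S ((D.w - wgt D.wt m) * s)) :
    k.P1.qs (D.z - MvPolynomial.eval D.X H) - k.P0.qs (D.z - MvPolynomial.eval D.X H) -
      MvPolynomial.eval (fun a => k.raw (Sum.inl a)) (MvPolynomial.map k.P0.qs
        (hor D.wt D.w (D.J - MvPolynomial.aeval D.tau H))) ∈ Id k.W (D.w * s) := by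
  classical
  have hwt : ∀ a, 0 ≤ D.wt a := fun a => (D.wpos a).le
  set G : MvPolynomial (β ⊕ κ) (QS S) := D.J - MvPolynomial.aeval D.tau H with hG
  set Q : MvPolynomial (β ⊕ κ) (QS S) := G + MvPolynomial.C (MvPolynomial.eval D.X H) -
    MvPolynomial.rename Sum.inl (hor D.wt D.w G) with hQ
  have hQc : ∀ m, Q.coeff m ∈ Id S ((D.w - wgt D.wt m) * s) := by
    intro m
    rw [hQ, MvPolynomial.coeff_sub, MvPolynomial.coeff_add, MvPolynomial.coeff_C]
    by_cases hv0 : ∃ l, m (Sum.inr l) ≠ 0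
    · obtain ⟨l, hl⟩ := hv0
      have h0 : ¬ 0 = m := by
        rintro rfl
        exact hl rfl
      have h1 : (MvPolynomial.rename Sum.inl (hor D.wt D.w G)).coeff m = 0 := by
        apply MvPolynomial.coeff_rename_eq_zero
        intro u hu
        exfalso
        apply hl
        rw [← hu]
        exact Finsupp.mapDomain_of_notMem_range _ _ (by simp)
      rw [if_neg h0, h1, sub_zero, add_zero, hG, MvPolynomial.coeff_sub]
      exact hv m l hl
    · push Not at hv0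
      obtain ⟨n, hn⟩ := eq_mapDomain_inl m hv0
      have h1 : (MvPolynomial.rename Sum.inl (hor D.wt D.w G)).coeff m = (hor D.wt D.w G).coeff n := by
        rw [← hn, MvPolynomial.coeff_rename_mapDomain _ Sum.inl_injective]
      rw [h1, coeff_hor]
      by_cases hm : m = 0
      · subst hm
        have hn0 : n = 0 := Finsupp.mapDomain_injective Sum.inl_injective (hn.trans Finsupp.mapDomain_zero.symm)
        have hJ0 : D.J.coeff 0 = 0 := by
          by_contra h
          exact (D.Jw 0 h).1 rfl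
        have hX0 : (MvPolynomial.aeval D.tau H).coeff 0 = MvPolynomial.eval D.X H := by
          rw [coeff_zero_eval, eval_sbs]
          congr 1
          congr 1
          funext a
          exact D.eval0_tau a
        rw [if_pos rfl, if_neg (fun h => h.1 hn0), hG, MvPolynomial.coeff_sub, hJ0, hX0]
        have e1 : (0 - MvPolynomial.eval D.X H + MvPolynomial.eval D.X H - 0 : QS S) = 0 := by ring
        rw [e1]
        exact Ideal.zero_mem _
      · have hn0 : n ≠ 0 := by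
          rintro rfl
          exact hm (hn.symm.trans Finsupp.mapDomain_zero)
        rw [if_neg (Ne.symm hm), add_zero, hn]
        by_cases hw : wgt (fun a => D.wt (Sum.inl a)) n < D.w
        · rw [if_pos ⟨hn0, hw⟩, sub_self]
          exact Ideal.zero_mem _
        · apply mem_Id_nonpos
          rw [← hn, wgt_inl]
          exact mul_nonpos_of_nonpos_of_nonneg (by linarith [not_lt.mp hw]) hs
  have h1 : MvPolynomial.eval k.raw (MvPolynomial.map k.P0.qs Q) ∈ Id k.W (D.w * s) := by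
    apply raw_small hwt hs
    intro m
    have e1 : D.w * s - wgt D.wt m * s = (D.w - wgt D.wt m) * s := by ring
    rw [MvPolynomial.coeff_map, e1, k.P0.qs_mem_Id]
    · exact hQc m
    · exact (mul_le_mul_of_nonneg_right (sub_le_self _ (wgt_nonneg hwt m)) hs).trans hws
  have h2 := map_sub_coeff_mem (Id k.W (D.w * s)) k.P1.qs k.P0.qs H (fun a => k.P1.qs (D.X a)) hag
  have h4 := k.eval_P1 (MvPolynomial.map k.P0.qs H)
  have h3 : MvPolynomial.eval k.raw (MvPolynomial.map k.P0.qs Q) =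
      MvPolynomial.eval k.raw (MvPolynomial.map k.P0.qs D.J) -
        MvPolynomial.eval k.raw (MvPolynomial.aeval (fun a => MvPolynomial.map k.P0.qs (D.tau a))
          (MvPolynomial.map k.P0.qs H)) +
        k.P0.qs (MvPolynomial.eval D.X H) -
        MvPolynomial.eval (fun a => k.raw (Sum.inl a)) (MvPolynomial.map k.P0.qs (hor D.wt D.w G)) := by
    rw [hQ, hG, map_sub, map_add, map_sub, map_sub, map_add, map_sub, MvPolynomial.map_C, MvPolynomial.eval_C,
      MvPolynomial.map_rename, MvPolynomial.eval_rename, map_sbs]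
    rfl
  have e1 : k.P1.qs (D.z - MvPolynomial.eval D.X H) - k.P0.qs (D.z - MvPolynomial.eval D.X H) -
      MvPolynomial.eval (fun a => k.raw (Sum.inl a)) (MvPolynomial.map k.P0.qs (hor D.wt D.w G)) =
      (k.P1.qs D.z - k.P0.qs D.z - MvPolynomial.eval (fun a => sc k.W (D.wt a * s) * k.ξ a)
        (MvPolynomial.map k.P0.qs D.J)) -
      (MvPolynomial.eval (fun a => k.P1.qs (D.X a)) (MvPolynomial.map k.P1.qs H) -
        MvPolynomial.eval (fun a => k.P1.qs (D.X a)) (MvPolynomial.map k.P0.qs H)) +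
      MvPolynomial.eval k.raw (MvPolynomial.map k.P0.qs Q) -
      (MvPolynomial.eval (fun a => k.P1.qs (D.X a)) (MvPolynomial.map k.P0.qs H) -
        MvPolynomial.eval k.raw (MvPolynomial.aeval (fun a => MvPolynomial.map k.P0.qs (D.tau a))
          (MvPolynomial.map k.P0.qs H))) := by
    rw [h3, map_sub, map_sub, qs_eval k.P1]
    have e2 : MvPolynomial.eval (fun a => sc k.W (D.wt a * s) * k.ξ a) (MvPolynomial.map k.P0.qs D.J) =
      MvPolynomial.eval k.raw (MvPolynomial.map k.P0.qs D.J) := rfl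
    rw [e2]
    ring
  rw [e1]
  exact Ideal.sub_mem _ (Ideal.add_mem _ (Ideal.sub_mem _ k.hW h2) h1) h4

/-- the walk of the flat coordinate -/
def Walk.hat {D : Dat S β κ} {s : ℝ} (k : Walk D s) (H : MvPolynomial (β ⊕ κ) (QS S)) (hH : H ∈ PK ⊥)
    (hW : k.P1.qs (D.z - MvPolynomial.eval D.X H) - k.P0.qs (D.z - MvPolynomial.eval D.X H) -
      MvPolynomial.eval (fun a => k.raw (Sum.inl a)) (MvPolynomial.map k.P0.qs
        (hor D.wt D.w (D.J - MvPolynomial.aeval D.tau H))) ∈ Id k.W (D.w * s)) (φ : QS k.W)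
    (hφ : dg φ 1 ≤ k.om ⊔ k.P0.map D.qi)
    (hφc : k.P1.qs (D.z - MvPolynomial.eval D.X H) - k.P0.qs (D.z - MvPolynomial.eval D.X H) - φ ∈
      Id k.W (D.w * s)) : Walk (D.hat H hH) s where
  W := k.W
  P0 := k.P0
  P1 := k.P1
  ξ := fun a => k.ξ (Sum.elim Sum.inl Empty.elim a)
  dq := k.dq
  dR := fun l => l.elim
  hW := by
    show _ - _ - MvPolynomial.eval _ (MvPolynomial.map k.P0.qs (MvPolynomial.rename Sum.inl _)) ∈ _
    rw [MvPolynomial.map_rename, MvPolynomial.eval_rename]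
    exact hW
  om := k.om
  p := MvPolynomial.C φ
  ind := k.ind
  kn := fun a => k.kn _
  pk := C_mem hφ
  hp := by
    rw [MvPolynomial.eval_C]
    exact hφc
  ℓ := k.ℓ
  ℓ0 := k.ℓ0
  ℓ1 := k.ℓ1
  real := k.real.comp k.ℓ0.le (Sum.elim Sum.inl Empty.elim) (by
    rintro (a | a) (b | b) h
    · exact congrArg Sum.inl (Sum.inl_injective h)
    · exact b.elim
    · exact a.elim
    · exact a.elim)

/-- the vertical jets of the flat coordinate vanish -/
theorem vert_small {D : Dat S β κ} {s₂ s₃ : ℝ} (hs3 : 0 ≤ s₃) (hs32 : s₃ ≤ s₂)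
    (Θ : κ → MvPolynomial (β ⊕ κ) (QS S)) (H : MvPolynomial (β ⊕ κ) (QS S))
    (hH : ∀ l m, (MvPolynomial.pderiv (Sum.inr l) H - Θ l).coeff m ∈ Id S (D.w * s₃))
    (hrc : ∀ l m, (MvPolynomial.aeval D.tau (Θ l)).coeff m -
      D.J.coeff (m + Finsupp.single (Sum.inr l) 1) * (m (Sum.inr l) + 1) ∈
        Id S ((D.w - D.wv l - wgt D.wt m) * s₂)) (m : β ⊕ κ →₀ ℕ) (l : κ) (hl : m (Sum.inr l) ≠ 0) :
    D.J.coeff m - (MvPolynomial.aeval D.tau H).coeff m ∈ Id S ((D.w - wgt D.wt m) * s₃) := by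
  have hwt : ∀ a, 0 ≤ D.wt a := fun a => (D.wpos a).le
  by_cases hw : D.w ≤ wgt D.wt m
  · exact mem_Id_nonpos (mul_nonpos_of_nonpos_of_nonneg (by linarith) hs3)
  push Not at hw
  set n : β ⊕ κ →₀ ℕ := m - Finsupp.single (Sum.inr l) 1 with hn
  have hnm : n + Finsupp.single (Sum.inr l) 1 = m := single_sub_add m _ hl
  have hwn : wgt D.wt m = wgt D.wt n + D.wv l := by
    rw [← hnm, wgt_add, wgt_single]
    rfl
  have h1 := hrc l n
  rw [hnm] at h1
  have e1 : (D.w - D.wv l - wgt D.wt n) * s₂ = (D.w - wgt D.wt m) * s₂ := by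
    rw [hwn]
    ring
  rw [e1] at h1
  have h2 : (MvPolynomial.aeval D.tau (MvPolynomial.pderiv (Sum.inr l) H)).coeff n -
      (MvPolynomial.aeval D.tau (Θ l)).coeff n ∈ Id S (D.w * s₃) := by
    rw [← MvPolynomial.coeff_sub, ← map_sub]
    exact sbs_coeff_mem _ (hH l) _ _
  have hle1 : (D.w - wgt D.wt m) * s₃ ≤ (D.w - wgt D.wt m) * s₂ :=
    mul_le_mul_of_nonneg_left hs32 (by linarith)
  have hle2 : (D.w - wgt D.wt m) * s₃ ≤ D.w * s₃ :=
    mul_le_mul_of_nonneg_right (sub_le_self _ (wgt_nonneg hwt m)) hs3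
  have h3 : (((n (Sum.inr l) : ℕ) : QS S) + 1) *
      (D.J.coeff m - (MvPolynomial.aeval D.tau H).coeff m) ∈ Id S ((D.w - wgt D.wt m) * s₃) := by
    have h4 := (Id S ((D.w - wgt D.wt m) * s₃)).neg_mem (Ideal.add_mem _ (Id_mono hle1 h1) (Id_mono hle2 h2))
    rw [← D.pderiv_sbs_tau, MvPolynomial.coeff_pderiv, hnm] at h4
    have e2 : (((n (Sum.inr l) : ℕ) : QS S) + 1) *
        (D.J.coeff m - (MvPolynomial.aeval D.tau H).coeff m) =
        -((MvPolynomial.aeval D.tau (Θ l)).coeff n - D.J.coeff m * (((n (Sum.inr l) : ℕ) : QS S) + 1) +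
        ((MvPolynomial.aeval D.tau H).coeff m * (((n (Sum.inr l) : ℕ) : QS S) + 1) -
          (MvPolynomial.aeval D.tau (Θ l)).coeff n)) := by ring
    rw [e2]
    exact h4
  exact mem_Id_of_unit_mul (isUnit_succ _) h3

/-- THEOREM A, one coordinate, all scales `s ≤ s₃` at once (same `H`, `Jh`), and for all pairs of points in one box at
which the coefficients of `H` agree -/
def ST_AS : Prop :=
  ∀ (S : Sp) (β κ : Type) (_ : Fintype β) (_ : Fintype κ) (D : Dat S β κ) (s₁ s₂ s₃ : ℝ) (ι : Type) (_ : Fintype ι)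
    (ν : ι → Type) (_ : ∀ i, Fintype (ν i)) (bf : ∀ i, ν i → QS S) (t : QS S),
    0 < s₃ → s₃ ≤ s₂ → s₂ ≤ s₁ → D.w * s₁ ≤ 1 → (∀ l, D.w * s₂ ≤ (D.w - D.wv l) * s₁) →
    (∀ l, D.w * s₃ ≤ (D.w - D.wv l) * s₂) → Rl D.X ⊥ →
    Nonempty (Walk D s₁) → (∃ k : Walk D s₂, k.T ∧ k.RC) → (∃ k : Walk D s₃, k.T) →
    (∀ i, Nonempty (Tran D (bf i) t (D.w * s₂))) →
    PolQ D.q (fun i => vd (bf i) 1) t (D.w * s₂) →
    ∃ (H : MvPolynomial (β ⊕ κ) (QS S)) (Jh : MvPolynomial β (QS S)),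
      H ∈ PK ⊥ ∧ Jh ∈ PK D.qi ∧ (∀ m, Jh.coeff m ≠ 0 → m ≠ 0 ∧ wgt (fun a => D.wt (Sum.inl a)) m < D.w) ∧
      (∀ l, D.c l - MvPolynomial.eval D.X (MvPolynomial.pderiv (Sum.inr l) H) ∈ Id S (D.w * s₃)) ∧
      (∀ (i : ι) (r : ℝ), r ≤ D.w * s₃ → ∀ T : Tran D (bf i) t r, ∃ g : MvPolynomial (Fin 2) (QS T.W),
        g ∈ PK (T.P.map (vd (bf i) 1)) ∧
        T.P'.qs (D.z - MvPolynomial.eval D.X H) - T.P.qs (D.z - MvPolynomial.eval D.X H) -
          MvPolynomial.eval ![T.P.qs t, T.P'.qs t] g ∈ Id T.W r) ∧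
      (∀ s, 0 < s → s ≤ s₃ → ∀ k : Walk D s, k.T →
        (∀ m, k.P1.qs (H.coeff m) - k.P0.qs (H.coeff m) ∈ Id k.W (D.w * s)) ∧
        (∃ φ : QS k.W, dg φ 1 ≤ k.om ⊔ k.P0.map D.qi ∧
          k.P1.qs (D.z - MvPolynomial.eval D.X H) -
            k.P0.qs (D.z - MvPolynomial.eval D.X H) - φ ∈ Id k.W (D.w * s))) ∧
      ∀ s, 0 < s → s ≤ s₃ → ∀ k : Pair D s, (∀ m, k.P1.qs (H.coeff m) - k.P0.qs (H.coeff m) ∈ Id k.W (D.w * s)) →
        k.P1.qs (D.z - MvPolynomial.eval D.X H) - k.P0.qs (D.z - MvPolynomial.eval D.X H) -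
          MvPolynomial.eval (fun a => k.raw (Sum.inl a)) (MvPolynomial.map k.P0.qs Jh) ∈ Id k.W (D.w * s)

/-- THEOREM A for one coordinate, from (LINE) -/
theorem st_AS (hL : ST_LINE) : ST_AS := by
  classical
  intro S β κ _ _ D s₁ s₂ s₃ ι _ ν _ bf t hs3 h32 h21 hws1 hA21 hA32 hX hk1 hk2 hk3 hTr hPol
  obtain ⟨k1⟩ := hk1
  obtain ⟨k2, hT2, hRC2⟩ := hk2
  obtain ⟨k₀, hT₀⟩ := hk3
  have hs2 : 0 < s₂ := hs3.trans_le h32
  have hs1 : 0 < s₁ := hs2.trans_le h21
  by_cases hw : D.w ≤ 0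
  · have hn : ∀ s, 0 < s → D.w * s ≤ 0 := fun s hs => mul_nonpos_of_nonpos_of_nonneg hw hs.le
    refine ⟨0, 0, (PK _).zero_mem, (PK _).zero_mem, ?_, ?_, ?_, ?_, ?_⟩
    · intro m hm
      exact absurd (MvPolynomial.coeff_zero m) hm
    · exact fun l => mem_Id_nonpos (hn _ hs3)
    · intro i r hr T
      exact ⟨0, (PK _).zero_mem, mem_Id_nonpos (hr.trans (hn _ hs3))⟩
    · intro s hs _ k _
      exact ⟨fun m => mem_Id_nonpos (hn _ hs), ⟨0, (Kn k.W 1 le_rfl _).zero_mem, mem_Id_nonpos (hn _ hs)⟩⟩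
    · exact fun s hs _ k _ => mem_Id_nonpos (hn _ hs)
  push Not at hw
  have hwt : ∀ a, 0 ≤ D.wt a := fun a => (D.wpos a).le
  have hws2 : D.w * s₂ ≤ 1 := (mul_le_mul_of_nonneg_left h21 hw.le).trans hws1
  have hws3 : D.w * s₃ ≤ 1 := (mul_le_mul_of_nonneg_left h32 hw.le).trans hws2
  have hq : Rl D.q ⊥ := Rl_inl hX
  have hR : Rl D.R D.qi := Rl_inr hX
  -- jets
  obtain ⟨A₀, hA₀⟩ := k1.jet hs1 hws1 hR
  set A : (β ⊕ κ →₀ ℕ) → MvPolynomial κ (QS S) := fun m => if m ∈ D.J.support then A₀ m else 0 with hAdef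
  have hA0 : ∀ m, m ∉ D.J.support → A m = 0 := fun m hm => if_neg hm
  have hAk : ∀ m, A m ∈ PK D.qi := by
    intro m
    by_cases hm : m ∈ D.J.support
    · rw [hAdef]
      show (if m ∈ D.J.support then A₀ m else 0) ∈ _
      rw [if_pos hm]
      exact (hA₀ m).1
    · rw [hA0 m hm]
      exact (PK _).zero_mem
  have hA1 : ∀ m, D.J.coeff m - MvPolynomial.eval D.R (A m) ∈ Id S ((D.w - wgt D.wt m) * s₁) := by
    intro m
    by_cases hm : m ∈ D.J.support
    · rw [hAdef]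
      show _ - MvPolynomial.eval D.R (if m ∈ D.J.support then A₀ m else 0) ∈ _
      rw [if_pos hm]
      exact (hA₀ m).2
    · rw [hA0 m hm, MvPolynomial.notMem_support_iff.mp hm, map_zero, sub_zero]
      exact Ideal.zero_mem _
  have hAs : ∀ s, 0 ≤ s → s ≤ s₁ → ∀ m, A m ∈ PK D.qi ∧
      D.J.coeff m - MvPolynomial.eval D.R (A m) ∈ Id S ((D.w - wgt D.wt m) * s) := by
    intro s hs0 hs m
    refine ⟨hAk m, ?_⟩
    by_cases hm : m ∈ D.J.support
    · exact Id_mono (mul_le_mul_of_nonneg_left hs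
        (by linarith [(D.Jw m (MvPolynomial.mem_support_iff.mp hm)).2])) (hA1 m)
    · rw [hA0 m hm, MvPolynomial.notMem_support_iff.mp hm, map_zero, sub_zero]
      exact Ideal.zero_mem _
  have hAc : ∀ l, D.c l - MvPolynomial.eval D.R (A (Finsupp.single (Sum.inr l) 1)) ∈ Id S (D.w * s₂) := by
    intro l
    have h1 := hA1 (Finsupp.single (Sum.inr l) 1)
    rw [wgt_single] at h1
    exact Id_mono (hA21 l) h1
  -- `Θ`
  have hΘex := fun l => theta hL (mul_pos hw hs2) hws2 bf t hTr hq hPol l (A (Finsupp.single (Sum.inr l) 1))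
    (hAk _) (hAc l)
  choose Θ hΘ hΘc using hΘex
  have hag2 := fun l => k2.agree hs2 hws2 hT2 hX hR A (hAs s₂ hs2.le h21) hA0 (Θ l) l (hΘ l) (hΘc l)
  have hcl := fun k l m => closed h32 hws2 hA32 hX hR A (hAs s₂ hs2.le h21) hAc Θ hΘ hΘc
    (fun l m hm => (hag2 l).2 m hm) k l m
  set H : MvPolynomial (β ⊕ κ) (QS S) := pot (iv S) Θ with hHdef
  have hHk : H ∈ PK ⊥ := pot_PK hΘ
  have hHd : ∀ l m, (MvPolynomial.pderiv (Sum.inr l) H - Θ l).coeff m ∈ Id S (D.w * s₃) :=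
    fun l m => st_POT (QS S) _ (Id S (D.w * s₃)) (iv S) iv_mul β κ _ Θ (fun k l m => hcl l k m) l m
  have hle3 : D.w * s₃ ≤ D.w * s₂ := mul_le_mul_of_nonneg_left h32 hw.le
  have hc : ∀ l, D.c l - MvPolynomial.eval D.X (MvPolynomial.pderiv (Sum.inr l) H) ∈ Id S (D.w * s₃) := by
    intro l
    have h1 := Id_mono hle3 (hΘc l)
    have h2 := eval_mem_ideal (Id S (D.w * s₃)) (hHd l) D.X
    have h3 := Ideal.sub_mem _ h1 h2
    rw [map_sub] at h3
    have e1 : D.c l - MvPolynomial.eval D.X (MvPolynomial.pderiv (Sum.inr l) H) =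
        D.c l - MvPolynomial.eval D.X (Θ l) -
          (MvPolynomial.eval D.X (MvPolynomial.pderiv (Sum.inr l) H) - MvPolynomial.eval D.X (Θ l)) := by ring
    rw [e1]
    exact h3
  have hrc := fun l m => k2.rc hs2 hws2 l (hRC2 l) (Θ l) (hΘ l) (hΘc l) (hag2 l).1 m
  have hvert := vert_small hs3.le h32 Θ H hHd hrc
  have hmul : ∀ s, s ≤ s₃ → D.w * s ≤ D.w * s₃ := fun s hs => mul_le_mul_of_nonneg_left hs hw.le
  -- agreement at walks of scale `s ≤ s₃`
  have hagW : ∀ s, 0 < s → s ≤ s₃ → ∀ k : Walk D s, k.T → ∀ m, k.P1.qs (H.coeff m) - k.P0.qs (H.coeff m) ∈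
      Id k.W (D.w * s) := by
    intro s hs hss k hT
    have h1 := fun l => k.agree hs ((hmul s hss).trans hws3) hT hX hR A (hAs s hs.le (hss.trans (h32.trans h21)))
      hA0 (Θ l) l (hΘ l) (Id_mono ((hmul s hss).trans hle3) (hΘc l))
    exact pot_agree k.P0 k.P1 fun l m => (h1 l).1 m
  have hvs : ∀ s, 0 < s → s ≤ s₃ → ∀ m : β ⊕ κ →₀ ℕ, ∀ l, m (Sum.inr l) ≠ 0 →
      D.J.coeff m - (MvPolynomial.aeval D.tau H).coeff m ∈ Id S ((D.w - wgt D.wt m) * s) := by
    intro s hs hss m l hl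
    by_cases hm : wgt D.wt m ≤ D.w
    · exact Id_mono (mul_le_mul_of_nonneg_left hss (by linarith)) (hvert m l hl)
    · exact mem_Id_nonpos (mul_nonpos_of_nonpos_of_nonneg (by linarith [not_le.mp hm]) hs.le)
  have hPhat : ∀ s, 0 < s → s ≤ s₃ → ∀ k : Pair D s,
      (∀ m, k.P1.qs (H.coeff m) - k.P0.qs (H.coeff m) ∈ Id k.W (D.w * s)) →
      k.P1.qs (D.z - MvPolynomial.eval D.X H) -
        k.P0.qs (D.z - MvPolynomial.eval D.X H) - MvPolynomial.eval (fun a => k.raw (Sum.inl a))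
        (MvPolynomial.map k.P0.qs (hor D.wt D.w (D.J - MvPolynomial.aeval D.tau H))) ∈ Id k.W (D.w * s) :=
    fun s hs hss k hag => Pair.hat hs.le ((hmul s hss).trans hws3) k H hag (hvs s hs hss)
  obtain ⟨φ, hφ, hφc⟩ := k₀.flat hws3 hT₀ hR H hHk hc
  obtain ⟨B, hB⟩ := Walk.jet (D := D.hat H hHk) hs3 hws3
    (k₀.hat H hHk (hPhat s₃ hs3 le_rfl k₀.toPair (hagW s₃ hs3 le_rfl k₀ hT₀)) φ hφ hφc) (by
    unfold Rl
    have e1 : vd (D.hat H hHk).R 1 = ⊥ := by
      apply le_antisymm _ bot_le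
      rw [vd_le]
      exact fun a => a.elim
    rw [e1, Fintype.card_empty, Nat.cast_zero]
    simp [h])
  set J' := hor D.wt D.w (D.J - MvPolynomial.aeval D.tau H) with hJ'
  set Jh : MvPolynomial β (QS S) := ∑ n ∈ J'.support, MvPolynomial.monomial n
    ((B (n.mapDomain Sum.inl)).coeff 0) with hJh
  have hJhc : ∀ n, Jh.coeff n = if n ∈ J'.support then (B (n.mapDomain Sum.inl)).coeff 0 else 0 := by
    intro n
    rw [hJh, MvPolynomial.coeff_sum]
    simp only [MvPolynomial.coeff_monomial]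
    rw [Finset.sum_ite_eq' _ n]
  have hJw : ∀ n, J'.coeff n ≠ 0 → n ≠ 0 ∧ wgt (fun a => D.wt (Sum.inl a)) n < D.w := by
    intro n h1
    rw [hJ', coeff_hor] at h1
    by_contra hc'
    rw [if_neg hc'] at h1
    exact h1 rfl
  have hdiff : ∀ n, (J' - Jh).coeff n ∈ Id S ((D.w - wgt (fun a => D.wt (Sum.inl a)) n) * s₃) := by
    intro n
    rw [MvPolynomial.coeff_sub, hJhc]
    split_ifs with h
    · have h3 := (hB (n.mapDomain Sum.inl)).2
      have e2 : (D.hat H hHk).J.coeff (n.mapDomain Sum.inl) = J'.coeff n :=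
        MvPolynomial.coeff_rename_mapDomain _ Sum.inl_injective _ _
      have e3 : wgt (D.hat H hHk).wt (n.mapDomain Sum.inl) = wgt (fun a => D.wt (Sum.inl a)) n :=
        wgt_inl _ _
      have e4 : MvPolynomial.eval (D.hat H hHk).R (B (n.mapDomain Sum.inl)) =
          (B (n.mapDomain Sum.inl)).coeff 0 := by
        rw [coeff_zero_eval]
        congr 1
        congr 1
        funext a
        exact a.elim
      rw [e2, e3, e4] at h3
      exact h3
    · rw [sub_zero, MvPolynomial.notMem_support_iff.mp h]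
      exact Ideal.zero_mem _
  refine ⟨H, Jh, hHk, ?_, ?_, hc, ?_, ?_, ?_⟩
  · intro n
    rw [hJhc]
    split_ifs
    · exact (hB (n.mapDomain Sum.inl)).1 0
    · exact (Kn S 1 le_rfl _).zero_mem
  · intro n hn
    rw [hJhc] at hn
    by_cases h : n ∈ J'.support
    · exact hJw n (MvPolynomial.mem_support_iff.mp h)
    · rw [if_neg h] at hn
      exact absurd rfl hn
  · intro i r hr T
    exact T.flat (hr.trans hws3) H hHk fun l => Id_mono hr (hc l)
  · intro s hs hss k hT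
    exact ⟨hagW s hs hss k hT, k.flat ((hmul s hss).trans hws3) hT hR H hHk fun l => Id_mono (hmul s hss) (hc l)⟩
  · intro s hs hss k hag
    have h1 := hPhat s hs hss k hag
    have h2 : MvPolynomial.eval (fun a => k.raw (Sum.inl a)) (MvPolynomial.map k.P0.qs (J' - Jh)) ∈
        Id k.W (D.w * s) := by
      apply raw_small (wt := fun a => D.wt (Sum.inl a)) (fun a => hwt _) hs.le
      intro n
      have e1 : D.w * s - wgt (fun a => D.wt (Sum.inl a)) n * s =
          (D.w - wgt (fun a => D.wt (Sum.inl a)) n) * s := by ring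
      rw [MvPolynomial.coeff_map, e1, k.P0.qs_mem_Id]
      · by_cases hn : wgt (fun a => D.wt (Sum.inl a)) n ≤ D.w
        · exact Id_mono (mul_le_mul_of_nonneg_left hss (by linarith)) (hdiff n)
        · exact mem_Id_nonpos (mul_nonpos_of_nonpos_of_nonneg (by linarith [not_le.mp hn]) hs.le)
      · exact (mul_le_mul_of_nonneg_right (sub_le_self _ (wgt_nonneg (fun a => hwt _) n)) hs.le).trans
          ((hmul s hss).trans hws3)
    rw [map_sub (MvPolynomial.map k.P0.qs), map_sub (MvPolynomial.eval _)] at h2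
    have h3 := Ideal.add_mem _ h1 h2
    have e1 : k.P1.qs (D.z - MvPolynomial.eval D.X H) - k.P0.qs (D.z - MvPolynomial.eval D.X H) -
        MvPolynomial.eval (fun a => k.raw (Sum.inl a)) (MvPolynomial.map k.P0.qs Jh) =
        k.P1.qs (D.z - MvPolynomial.eval D.X H) - k.P0.qs (D.z - MvPolynomial.eval D.X H) -
        MvPolynomial.eval (fun a => k.raw (Sum.inl a)) (MvPolynomial.map k.P0.qs J') +
        (MvPolynomial.eval (fun a => k.raw (Sum.inl a)) (MvPolynomial.map k.P0.qs J') -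
        MvPolynomial.eval (fun a => k.raw (Sum.inl a)) (MvPolynomial.map k.P0.qs Jh)) := by ring
    rw [e1]
    exact h3

end

end Pool.Agent.Helper57.TA
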