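import Pool.Agent.Helper57.TA.Mv

/-! Exact entropy calculus: DESCENT. A function on an extension which agrees for two conditionally independent copies
over the space below comes from below. -/

set_option autoImplicit false

namespace Pool.Agent.Helper57.TA

open Finset Filter Topology Pool.Agent.Helper69.RK Pool.Agent.Helper31.EC Pool.Agent.Helper31.EC.Sp
open Pool.Agent.Helper31.EC.QS

noncomputable section

open Classical in
/-- best section of a projection -/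
theorem fin_section {Ω Ω' : Type} [Fintype Ω] [Nonempty Ω] (μ : Ω → ℝ) (h0 : ∀ ω, 0 ≤ μ ω) (π : Ω → Ω')
    (E : Ω × Ω → Prop) :
    ∃ σ : Ω' → Ω, (∀ ω, μ ω ≠ 0 → μ (σ (π ω)) ≠ 0 ∧ π (σ (π ω)) = π ω) ∧
      mass (res μ (fun ω => ¬ E (σ (π ω), ω))) ≤ mass (res (amw μ μ π π) (fun w => ¬ E w)) := by
  set b : Ω → ℝ := fun ω => ∑ ω', if ¬ E (ω, ω') then e1_ind (π ω = π ω') * (μ ω' / ms μ π (π ω)) else 0 with hb
  have hσ : ∀ s : Ω', ∃ ω₀ : Ω, (∃ ω, μ ω ≠ 0 ∧ π ω = s) →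
      (μ ω₀ ≠ 0 ∧ π ω₀ = s) ∧ ∀ ω, μ ω ≠ 0 → π ω = s → b ω₀ ≤ b ω := by
    intro s
    by_cases h : ∃ ω, μ ω ≠ 0 ∧ π ω = s
    · obtain ⟨ω, hω⟩ := h
      obtain ⟨ω₀, h1, h2⟩ := Finset.exists_min_image (Finset.univ.filter fun ω => μ ω ≠ 0 ∧ π ω = s) b
        ⟨ω, by simpa using hω⟩
      refine ⟨ω₀, fun _ => ⟨by simpa using h1, fun ω' a c => h2 ω' (by simpa using ⟨a, c⟩)⟩⟩
    · exact ⟨Classical.arbitrary Ω, fun h' => absurd h' h⟩
  choose σ hσ using hσ
  have hσ1 : ∀ ω, μ ω ≠ 0 → μ (σ (π ω)) ≠ 0 ∧ π (σ (π ω)) = π ω := fun ω hω => (hσ (π ω) ⟨ω, hω, rfl⟩).1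
  have hσ2 : ∀ ω, μ ω ≠ 0 → b (σ (π ω)) ≤ b ω := fun ω hω => (hσ (π ω) ⟨ω, hω, rfl⟩).2 ω hω rfl
  refine ⟨σ, hσ1, ?_⟩
  have e1 : mass (res (amw μ μ π π) (fun w => ¬ E w)) = ∑ ω, μ ω * b ω := by
    unfold mass res
    rw [Fintype.sum_prod_type]
    apply Finset.sum_congr rfl
    intro ω _
    rw [hb, Finset.mul_sum]
    apply Finset.sum_congr rfl
    intro ω' _
    by_cases h : ¬ E (ω, ω')
    · rw [if_pos h, if_pos h]
      unfold amw
      ring
    · rw [if_neg h, if_neg h, mul_zero]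
  have e2 : mass (res μ (fun ω => ¬ E (σ (π ω), ω))) = ∑ ω, μ ω * b (σ (π ω)) := by
    have f1 : ∀ ω, μ ω * b (σ (π ω)) = ∑ ω', if ¬ E (σ (π ω'), ω') then
        e1_ind (π ω = π ω') * μ ω * (μ ω' / ms μ π (π ω')) else 0 := by
      intro ω
      by_cases hω : μ ω = 0
      · rw [hω, zero_mul]
        symm
        apply Finset.sum_eq_zero
        intro ω' _
        split_ifs
        · rfl
        · rw [mul_zero, zero_mul]
      · rw [hb, Finset.mul_sum]
        apply Finset.sum_congr rfl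
        intro ω' _
        rw [(hσ1 ω hω).2]
        by_cases hc : π ω = π ω'
        · rw [hc]
          split_ifs
          · ring
          · ring
        · rw [e1_ind_neg hc]
          split_ifs <;> ring
    rw [Finset.sum_congr rfl fun ω _ => f1 ω, Finset.sum_comm]
    unfold mass res
    apply Finset.sum_congr rfl
    intro ω' _
    by_cases h : ¬ E (σ (π ω'), ω')
    · simp only [if_pos h]
      by_cases hω : μ ω' = 0
      · rw [hω]
        symm
        apply Finset.sum_eq_zero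
        intro ω _
        ring
      · rw [← Finset.sum_mul]
        have h1 : ∑ ω, e1_ind (π ω = π ω') * μ ω = ms μ π (π ω') := rfl
        rw [h1, mul_div_cancel₀ _ (ms_pos μ π h0 ω' hω).ne']
    · simp only [if_neg h]
      rw [Finset.sum_const_zero]
  rw [e1, e2]
  apply Finset.sum_le_sum
  intro ω _
  by_cases hω : μ ω = 0
  · rw [hω, zero_mul, zero_mul]
  · exact mul_le_mul_of_nonneg_left (hσ2 ω hω) (h0 ω)

variable {T S : Sp}

/-- the double of `T` over `S` -/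
def dbl (p : Pj T S) : AmD T T where
  α := fun k => (S.F k).Ω
  f := p.π
  g := p.π
  law := fun _ _ => rfl
  Zr := fun k => (S.F k).Z
  hZ1 := p.hZ
  hZ2 := p.hZ
  hn := fun _ => rfl

theorem FSp_nonempty (F : FSp) : Nonempty F.Ω := by
  by_contra hc
  rw [not_nonempty_iff] at hc
  have h1 := F.ms
  unfold mass at h1
  rw [Fintype.sum_empty] at h1
  exact zero_ne_one h1

open Classical in
/-- DESCENT -/
theorem descend (p : Pj T S) (f : QS T) {r : ℝ} (hr : r ≤ 1)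
    (h : (dbl p).p1.qs f - (dbl p).p2.qs f ∈ Id (dbl p).sp r) : ∃ g : QS S, p.qs g - f ∈ Id T r := by
  obtain ⟨f, rfl⟩ := mk_surj f
  rw [(dbl p).p1.qs_mk, (dbl p).p2.qs_mk, ← map_sub, mem_Id_iff, min_eq_left hr] at h
  obtain ⟨E, K, hE, hK, hh⟩ := h
  have hsec : ∀ k, ∃ σ : (S.F k).Ω → (T.F k).Ω,
      (∀ ω, (T.F k).μ ω ≠ 0 → (T.F k).μ (σ (p.π k ω)) ≠ 0 ∧ p.π k (σ (p.π k ω)) = p.π k ω) ∧
      mass (res (T.F k).μ (fun ω => ¬ E k (σ (p.π k ω), ω))) ≤
        mass (res (amw (T.F k).μ (T.F k).μ (p.π k) (p.π k)) (fun w => ¬ E k w)) := by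
    intro k
    have := FSp_nonempty (T.F k)
    exact fin_section (T.F k).μ (T.F k).nn (p.π k) (E k)
  choose σ hσ1 hσ2 using hsec
  obtain ⟨K', hK', hf⟩ := f.2
  have hKS : S.Sub K' := by
    refine ⟨hK'.1, ?_⟩
    have h1 := hK'.2
    have h2 : ∀ k, (T.F k).n = (S.F k).n := p.hn
    simp only [h2] at h1
    exact h1
  set g : TR S := ⟨fun k s => TR.ev f k (σ k s), K', hKS, by
    filter_upwards [hf] with k hk s hs
    obtain ⟨ω, h1, h2⟩ := p.exists_lift k s hs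
    have h3 := (hσ1 k ω h1).1
    rw [h2] at h3
    exact hk _ h3⟩ with hg
  refine ⟨mk g, ?_⟩
  rw [p.qs_mk, ← map_sub, mem_Id_iff, min_eq_left hr]
  refine ⟨fun k ω => E k (σ k (p.π k ω), ω), K, ?_, hK, ?_⟩
  · refine tendsto_of_tendsto_of_tendsto_of_le_of_le tendsto_const_nhds hE
      (fun k => mass_res_nonneg k _) (fun k => hσ2 k)
  · filter_upwards [hh] with k hk ω hω hEω
    obtain ⟨h1, h2⟩ := hσ1 k ω hω
    have h3 := hk (σ k (p.π k ω), ω) (by
      show amw (T.F k).μ (T.F k).μ (p.π k) (p.π k) (σ k (p.π k ω), ω) ≠ 0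
      unfold amw
      rw [e1_ind_pos h2, one_mul]
      apply div_ne_zero (mul_ne_zero h1 hω)
      exact (ms_pos (T.F k).μ (p.π k) (T.F k).nn _ h1).ne') hEω
    exact h3

/-- descent with knowledge -/
theorem descend' (p : Pj T S) (f : QS T) {r : ℝ} (hr0 : 0 ≤ r) (hr : r ≤ 1) {A : S.L} (hA : dg f r ≤ p.map A)
    (h : (dbl p).p1.qs f - (dbl p).p2.qs f ∈ Id (dbl p).sp r) :
    ∃ g : QS S, dg g 1 ≤ A ∧ p.qs g - f ∈ Id T r := by
  obtain ⟨g, hg⟩ := descend p f hr h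
  obtain ⟨g', h1, h2⟩ := exists_round g hr0 hr
  refine ⟨g', h1.trans ?_, ?_⟩
  · rw [← p.map_le, ← p.qs_dg, dg_eq_of_sub_mem hg le_rfl hr]
    exact hA
  · have h3 := (p.qs_mem_Id hr).mpr h2
    rw [map_sub] at h3
    have h4 := (Id T r).sub_mem hg h3
    have e : p.qs g - f - (p.qs g - p.qs g') = p.qs g' - f := by ring
    rwa [e] at h4

/-- the two projections of the double agree below -/
theorem dbl_comp (p : Pj T S) (f : QS S) : (dbl p).p1.qs (p.qs f) = (dbl p).p2.qs (p.qs f) := by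
  obtain ⟨f, rfl⟩ := mk_surj f
  rw [p.qs_mk, (dbl p).p1.qs_mk, (dbl p).p2.qs_mk, mk_eq]
  apply TR.Te.ag
  refine ⟨fun _ _ => True, Typ_true, Eventually.of_forall fun k w hw _ => ?_⟩
  obtain ⟨a, _, _⟩ := (dbl p).supp k w hw
  show TR.ev f k (p.π k w.1) = TR.ev f k (p.π k w.2)
  have a' : p.π k w.1 = p.π k w.2 := a
  rw [a']

/-- information from below is common -/
theorem dbl_map (p : Pj T S) (x : S.L) : (dbl p).p1.map (p.map x) = (dbl p).p2.map (p.map x) := by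
  induction x using cl_ind with | _ A
  set X : ∀ k, (S.F k).Ω → Quotient (A.1 k) := fun k ω => Quotient.mk (A.1 k) ω with hX
  have hker : (fun k => Setoid.ker (X k)) = A.1 := by
    funext k
    ext ω ω'
    exact Quotient.eq (r := A.1 k)
  have hXb : Bdd X := by
    show S.VB _
    rw [hker]
    exact A.2
  have e : cl A = io X := by
    rw [io_eq hXb]
    congr 1
    exact Subtype.ext hker.symm
  rw [e, p.map_io, (dbl p).p1.map_io, (dbl p).p2.map_io]
  have hXT : Bdd (S := T) (fun k ω => X k (p.π k ω)) := (p.bdd_iff X).mpr hXb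
  apply le_antisymm
  · apply io_le_of_fun (((dbl p).p2.bdd_iff _).mpr hXT)
    refine Eventually.of_forall fun k w w' hw hw' _ hc => ?_
    obtain ⟨a, _, _⟩ := (dbl p).supp k w hw
    obtain ⟨a', _, _⟩ := (dbl p).supp k w' hw'
    have b : p.π k w.1 = p.π k w.2 := a
    have b' : p.π k w'.1 = p.π k w'.2 := a'
    show X k (p.π k w.1) = X k (p.π k w'.1)
    rw [b, b']
    exact hc
  · apply io_le_of_fun (((dbl p).p1.bdd_iff _).mpr hXT)
    refine Eventually.of_forall fun k w w' hw hw' _ hc => ?_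
    obtain ⟨a, _, _⟩ := (dbl p).supp k w hw
    obtain ⟨a', _, _⟩ := (dbl p).supp k w' hw'
    have b : p.π k w.1 = p.π k w.2 := a
    have b' : p.π k w'.1 = p.π k w'.2 := a'
    show X k (p.π k w.2) = X k (p.π k w'.2)
    rw [← b, ← b']
    exact hc

open Classical in
/-- polynomials from coefficients in another ring -/
theorem exists_coeffs2 {A B σ : Type*} [CommRing A] [CommRing B] (P : MvPolynomial σ A) (R : A → B → Prop)
    (h0 : R 0 0) (h : ∀ m, ∃ g, R (P.coeff m) g) : ∃ Q : MvPolynomial σ B, ∀ m, R (P.coeff m) (Q.coeff m) := by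
  choose g hg using h
  refine ⟨∑ m ∈ P.support, MvPolynomial.monomial m (g m), fun m => ?_⟩
  rw [MvPolynomial.coeff_sum]
  simp only [MvPolynomial.coeff_monomial]
  rw [Finset.sum_ite_eq' P.support m g]
  split_ifs with h1
  · exact hg m
  · rw [MvPolynomial.notMem_support_iff.mp h1]
    exact h0

theorem Rt.pull (p : Pj T S) {ι : Type} [Fintype ι] {x : ι → QS S} {ℓ : ℝ} {A : S.L} (hx : Rt ℓ x A) :
    Rt ℓ (fun i => p.qs (x i)) (p.map A) := by
  unfold Rt at hx ⊢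
  rw [vd_qs, p.h_map]
  exact hx

/-- DESCENT OF COEFFICIENTS: a function below which is a polynomial in full variables from below, in an extension, is a
polynomial below -/
theorem descend_coeff (p : Pj T S) {σ : Type} [Fintype σ] (c : QS S) {x : σ → QS S} {A : S.L} {ℓ : ℝ} (hℓ : 0 < ℓ)
    (hℓ1 : ℓ ≤ 1) (hx : Rt ℓ x A) {r₀ r : ℝ} (hr0 : 0 ≤ r) (hr : r ≤ r₀) (hr1 : r₀ ≤ 1)
    {P : MvPolynomial σ (QS T)} (hP : P ∈ PKr r₀ hr1 (p.map A))
    (hc : p.qs c - MvPolynomial.eval (fun i => p.qs (x i)) P ∈ Id T r) :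
    ∃ Q : MvPolynomial σ (QS S), Q ∈ PK A ∧ (∀ m, p.qs (Q.coeff m) - P.coeff m ∈ Id T r) ∧
      c - MvPolynomial.eval x Q ∈ Id S r := by
  set D := dbl p with hD
  have e1 : ∀ i, D.p1.qs (p.qs (x i)) = D.p2.qs (p.qs (x i)) := fun i => dbl_comp p (x i)
  have hx1 : Rt ℓ (fun i => D.p1.qs (p.qs (x i))) (D.p1.map (p.map A)) := Rt.pull D.p1 (Rt.pull p hx)
  have h1 : D.p1.qs (p.qs c) - MvPolynomial.eval (fun i => D.p1.qs (p.qs (x i))) (MvPolynomial.map D.p1.qs P) ∈
      Id D.sp r := by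
    rw [← qs_eval, ← map_sub]
    exact (D.p1.qs_mem_Id (hr.trans hr1)).mpr hc
  have h2 : D.p1.qs (p.qs c) - MvPolynomial.eval (fun i => D.p1.qs (p.qs (x i))) (MvPolynomial.map D.p2.qs P) ∈
      Id D.sp r := by
    have h3 : D.p2.qs (p.qs c - MvPolynomial.eval (fun i => p.qs (x i)) P) ∈ Id D.sp r :=
      (D.p2.qs_mem_Id (hr.trans hr1)).mpr hc
    rw [map_sub, qs_eval, ← dbl_comp] at h3
    have e2 : (fun i => D.p2.qs (p.qs (x i))) = fun i => D.p1.qs (p.qs (x i)) := by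
      funext i
      exact (e1 i).symm
    rw [e2] at h3
    exact h3
  have h4 : ∀ m, D.p1.qs (P.coeff m) - D.p2.qs (P.coeff m) ∈ Id D.sp r := by
    intro m
    have h5 := mv_small_unique hℓ hℓ1 hx1 hr hr1 (map_PKr D.p1 hP)
      (by rw [dbl_map]; exact map_PKr D.p2 hP) (by
        have h6 := (Id D.sp r).sub_mem h2 h1
        rwa [sub_sub_sub_cancel_left] at h6) m
    rwa [MvPolynomial.coeff_map, MvPolynomial.coeff_map] at h5
  obtain ⟨Q, hQ⟩ := exists_coeffs2 P (fun c g => dg g 1 ≤ A ∧ p.qs g - c ∈ Id T r)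
    ⟨by
      have h1 : dg (0 : QS S) 1 ≤ ⊥ := (Kn S 1 le_rfl ⊥).zero_mem
      exact h1.trans bot_le, by rw [map_zero, sub_zero]; exact (Id T r).zero_mem⟩
    (fun m => descend' p (P.coeff m) hr0 (hr.trans hr1) ((QS.dg_mono _ hr).trans (hP m)) (h4 m))
  refine ⟨Q, fun m => (hQ m).1, fun m => (hQ m).2, ?_⟩
  rw [← p.qs_mem_Id (hr.trans hr1), map_sub, qs_eval]
  have h7 : MvPolynomial.eval (fun i => p.qs (x i)) (MvPolynomial.map p.qs Q - P) ∈ Id T r := by
    apply eval_mem_ideal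
    intro m
    rw [MvPolynomial.coeff_sub, MvPolynomial.coeff_map]
    exact (hQ m).2
  rw [map_sub] at h7
  have h8 := (Id T r).sub_mem hc h7
  have e : p.qs c - MvPolynomial.eval (fun i => p.qs (x i)) P -
      (MvPolynomial.eval (fun i => p.qs (x i)) (MvPolynomial.map p.qs Q) -
        MvPolynomial.eval (fun i => p.qs (x i)) P) =
      p.qs c - MvPolynomial.eval (fun i => p.qs (x i)) (MvPolynomial.map p.qs Q) := by ring
  rwa [e] at h8

end

end Pool.Agent.Helper57.TA
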