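import Pool.Agent.Helper57.TA.Alg

/-! THEOREM A, step (4): agreement of the coefficients, closedness. -/

set_option autoImplicit false

namespace Pool.Agent.Helper57.TA

open Finset Filter Topology Pool.Agent.Helper69.RK Pool.Agent.Helper31.EC Pool.Agent.Helper31.EC.Sp
open Pool.Agent.Helper31.EC.QS

noncomputable section

theorem sbs_coeff_mem {A : Type*} [CommRing A] {σ τ : Type*} (J : Ideal A) {P : MvPolynomial σ A}
    (hP : ∀ m, P.coeff m ∈ J) (φ : σ → MvPolynomial τ A) (m : τ →₀ ℕ) : (MvPolynomial.aeval φ P).coeff m ∈ J := by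
  rw [MvPolynomial.aeval_def, MvPolynomial.eval₂_eq, MvPolynomial.coeff_sum]
  apply J.sum_mem
  intro n _
  rw [MvPolynomial.algebraMap_eq, MvPolynomial.coeff_C_mul]
  exact J.mul_mem_right _ (hP n)

theorem coeff_zero_eval {A : Type*} [CommRing A] {σ : Type*} (P : MvPolynomial σ A) :
    P.coeff 0 = MvPolynomial.eval (fun _ => 0) P := by
  induction P using MvPolynomial.induction_on with
  | C a => rw [MvPolynomial.coeff_zero_C, MvPolynomial.eval_C]
  | add p q hp hq => rw [MvPolynomial.coeff_add, map_add, hp, hq]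
  | mul_X p a hp =>
    classical
    rw [map_mul, MvPolynomial.eval_X, mul_zero, MvPolynomial.coeff_mul_X', if_neg]
    simp

variable {S : Sp} {β κ : Type} [Fintype β] [Fintype κ]

namespace Dat

variable (D : Dat S β κ)

/-- coordinates of the point (base and lower vertical ones) -/
def X : β ⊕ κ → QS S := Sum.elim D.q D.R

/-- the displaced point, as a polynomial in the box coordinates -/
def tau : β ⊕ κ → MvPolynomial (β ⊕ κ) (QS S) :=
  Sum.elim (fun a => MvPolynomial.C (D.q a) + MvPolynomial.X (Sum.inl a))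
    (fun k => MvPolynomial.C (D.R k) + MvPolynomial.rename Sum.inl (D.Pj k) + MvPolynomial.X (Sum.inr k))

theorem qi_le : D.qi ≤ D.inf := D.qinf

theorem X_know (a : β ⊕ κ) : dg (D.X a) 1 ≤ D.inf := by
  rcases a with a | a
  · exact (dg_le_vd D.q 1 a).trans D.qinf
  · exact (dg_le_vd D.R 1 a).trans D.Rinf

theorem tau_know (a : β ⊕ κ) : D.tau a ∈ PK D.inf := by
  rcases a with a | k
  · exact (PK _).add_mem (C_mem ((dg_le_vd D.q 1 a).trans D.qinf)) (X_mem _ _)
  · exact (PK _).add_mem ((PK _).add_mem (C_mem ((dg_le_vd D.R 1 k).trans D.Rinf))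
      (rename_PK (PK_mono D.qinf (D.Pjk k)) _)) (X_mem _ _)

theorem eval0_tau (a : β ⊕ κ) : MvPolynomial.eval (fun _ => 0) (D.tau a) = D.X a := by
  rcases a with a | k
  · show MvPolynomial.eval _ (MvPolynomial.C (D.q a) + MvPolynomial.X (Sum.inl a)) = D.q a
    rw [map_add, MvPolynomial.eval_C, MvPolynomial.eval_X, add_zero]
  · show MvPolynomial.eval _ (MvPolynomial.C (D.R k) + MvPolynomial.rename Sum.inl (D.Pj k) +
      MvPolynomial.X (Sum.inr k)) = D.R k
    rw [map_add, map_add, MvPolynomial.eval_C, MvPolynomial.eval_X, add_zero, MvPolynomial.eval_rename]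
    have h1 : MvPolynomial.eval ((fun _ => 0 : β ⊕ κ → QS S) ∘ Sum.inl) (D.Pj k) = 0 :=
      (coeff_zero_eval (D.Pj k)).symm.trans (D.Pj0 k)
    rw [h1, add_zero]

open Classical in
theorem pderiv_tau (l : κ) (a : β ⊕ κ) :
    MvPolynomial.pderiv (Sum.inr l) (D.tau a) = if a = Sum.inr l then 1 else 0 := by
  rcases a with a | k
  · show MvPolynomial.pderiv _ (MvPolynomial.C (D.q a) + MvPolynomial.X (Sum.inl a)) = _
    rw [map_add, MvPolynomial.pderiv_C, MvPolynomial.pderiv_X_of_ne (by simp), if_neg (by simp), add_zero]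
  · show MvPolynomial.pderiv _ (MvPolynomial.C (D.R k) + MvPolynomial.rename Sum.inl (D.Pj k) +
      MvPolynomial.X (Sum.inr k)) = _
    have h1 : MvPolynomial.pderiv (Sum.inr l : β ⊕ κ) (MvPolynomial.rename Sum.inl (D.Pj k)) = 0 := by
      apply MvPolynomial.pderiv_eq_zero_of_notMem_vars
      intro h
      have h2 := MvPolynomial.vars_rename (Sum.inl : β → β ⊕ κ) (D.Pj k) h
      obtain ⟨x, _, hx⟩ := Finset.mem_image.mp h2
      simp at hx
    rw [map_add, map_add, MvPolynomial.pderiv_C, h1, zero_add, zero_add, MvPolynomial.pderiv_X]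
    by_cases hk : k = l
    · subst hk
      rw [Pi.single_eq_same, if_pos rfl]
    · rw [Pi.single_eq_of_ne (by simpa using hk), if_neg (by simpa using hk)]

theorem pderiv_sbs_tau (l : κ) (P : MvPolynomial (β ⊕ κ) (QS S)) :
    MvPolynomial.pderiv (Sum.inr l) (MvPolynomial.aeval D.tau P) =
      MvPolynomial.aeval D.tau (MvPolynomial.pderiv (Sum.inr l) P) := by
  classical
  exact pderiv_sbs D.tau (Sum.inr l) (Sum.inr l) (fun a => by
    rw [D.pderiv_tau]) P

end Dat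

namespace Pair

variable {D : Dat S β κ} {s : ℝ} (k : Pair D s)

theorem eval_tau (a : β ⊕ κ) :
    k.P1.qs (D.X a) - MvPolynomial.eval k.raw (MvPolynomial.map k.P0.qs (D.tau a)) ∈ Id k.W (D.w * s) := by
  rcases a with a | l
  · show k.P1.qs (D.q a) - MvPolynomial.eval _ (MvPolynomial.map _ (MvPolynomial.C (D.q a) +
      MvPolynomial.X (Sum.inl a))) ∈ _
    rw [map_add, map_add, MvPolynomial.map_C, MvPolynomial.map_X, MvPolynomial.eval_C, MvPolynomial.eval_X, k.dq a]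
    have e1 : k.P0.qs (D.q a) + sc k.W (D.wt (Sum.inl a) * s) * k.ξ (Sum.inl a) -
        (k.P0.qs (D.q a) + k.raw (Sum.inl a)) = 0 := sub_self _
    rw [e1]
    exact Ideal.zero_mem _
  · show k.P1.qs (D.R l) - MvPolynomial.eval _ (MvPolynomial.map _ (MvPolynomial.C (D.R l) +
      MvPolynomial.rename Sum.inl (D.Pj l) + MvPolynomial.X (Sum.inr l))) ∈ _
    rw [map_add, map_add, map_add, map_add, MvPolynomial.map_C, MvPolynomial.map_X, MvPolynomial.eval_C,
      MvPolynomial.eval_X, MvPolynomial.map_rename, MvPolynomial.eval_rename]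
    exact k.dR l

/-- a function of the displaced point -/
theorem eval_P1 (P : MvPolynomial (β ⊕ κ) (QS k.W)) :
    MvPolynomial.eval (fun a => k.P1.qs (D.X a)) P -
      MvPolynomial.eval k.raw (MvPolynomial.aeval (fun a => MvPolynomial.map k.P0.qs (D.tau a)) P) ∈
      Id k.W (D.w * s) := by
  rw [eval_sbs]
  exact eval_sub_mem _ P _ _ k.eval_tau

end Pair

/-- the vertical coordinates are full over the base walk -/
theorem Walk.fullR {D : Dat S β κ} {s : ℝ} (k : Walk D s) (hR : Rl D.R D.qi) :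
    Rl (fun l => k.P0.qs (D.R l)) (k.om ⊔ k.P0.map D.qi) := by
  have h0 : vd (fun l => k.P0.qs (D.R l)) 1 = k.P0.map (vd D.R 1) := k.P0.qs_vd D.R 1
  have h1 : I k.om (vd (fun l => k.P0.qs (D.R l)) 1) (k.P0.map D.qi) = 0 := by
    rw [h0]
    exact I_zero_mono k.ind le_sup_left ((Pj.map_mono _ D.Rinf).trans le_sup_left)
  have h2 := I_zero_iff_h'.mp h1
  unfold Rl
  rw [h2, h0, Pj.h_map]
  exact hR

open Classical in
/-- STEP (4a): AGREEMENT at the ends of walks, and the derivatives of the jets -/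
theorem Walk.agree {D : Dat S β κ} {s : ℝ} (hs : 0 < s) (hws : D.w * s ≤ 1) (k : Walk D s) (hT : k.T)
    (hX : Rl D.X ⊥) (hR : Rl D.R D.qi) (A : (β ⊕ κ →₀ ℕ) → MvPolynomial κ (QS S))
    (hA : ∀ m, A m ∈ PK D.qi ∧ D.J.coeff m - MvPolynomial.eval D.R (A m) ∈ Id S ((D.w - wgt D.wt m) * s))
    (hA0 : ∀ m, m ∉ D.J.support → A m = 0)
    (Θ : MvPolynomial (β ⊕ κ) (QS S)) (l : κ) (hΘ : Θ ∈ PK ⊥) (hΘc : D.c l - MvPolynomial.eval D.X Θ ∈ Id S (D.w * s)) :
    (∀ m, k.P1.qs (Θ.coeff m) - k.P0.qs (Θ.coeff m) ∈ Id k.W (D.w * s)) ∧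
      ∀ m, m ≠ 0 → (MvPolynomial.aeval D.tau Θ).coeff m - MvPolynomial.eval D.R (MvPolynomial.pderiv l (A m)) ∈
        Id S ((D.w - wgt D.wt m) * s) := by
  have hwt : ∀ a, 0 ≤ D.wt a := fun a => (D.wpos a).le
  set rw' : (β ⊕ κ →₀ ℕ) → QS k.W := fun m => ∏ a, k.raw a ^ m a with hrw
  have hraw : ∀ a, dg (k.raw a) 1 ≤ k.om ⊔ k.P0.map D.qi := by
    intro a
    apply (Kn k.W 1 le_rfl _).mul_mem _ (k.kn a)
    show dg _ _ ≤ _
    rw [dg_sc]
    exact bot_le
  have hrwk : ∀ m, dg (rw' m) 1 ≤ k.om ⊔ k.P0.map D.qi := fun m =>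
    (Kn k.W 1 le_rfl _).prod_mem fun a _ => (Kn k.W 1 le_rfl _).pow_mem (hraw a) _
  have hrwe : ∀ m, rw' m = sc k.W (wgt D.wt m * s) * ∏ a, k.ξ a ^ m a := fun m => mon_scale hwt hs.le k.ξ m
  have hle : ∀ m, (D.w - wgt D.wt m) * s ≤ D.w * s := fun m =>
    mul_le_mul_of_nonneg_right (sub_le_self _ (wgt_nonneg hwt m)) hs.le
  -- the transport as a polynomial in `R`
  set F : MvPolynomial κ (QS k.W) :=
    k.p - ∑ m ∈ D.J.support, MvPolynomial.C (rw' m) * MvPolynomial.map k.P0.qs (A m) with hF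
  have hFk : F ∈ PK (k.om ⊔ k.P0.map D.qi) := by
    apply (PK _).sub_mem k.pk
    apply (PK _).sum_mem
    intro m _
    exact (PK _).mul_mem (C_mem (hrwk m)) (PK_mono le_sup_right (map_PK k.P0 (hA m).1))
  have hFe : MvPolynomial.eval (fun l => k.P0.qs (D.R l)) F ∈ Id k.W (D.w * s) := by
    have h1 := sub_sub_mem _ k.hp k.hW
    have h2 : MvPolynomial.eval (fun a => sc k.W (D.wt a * s) * k.ξ a) (MvPolynomial.map k.P0.qs D.J) -
        ∑ m ∈ D.J.support, rw' m * k.P0.qs (MvPolynomial.eval D.R (A m)) ∈ Id k.W (D.w * s) := by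
      rw [eval_map_eq, ← Finset.sum_sub_distrib]
      apply Ideal.sum_mem
      intro m _
      have e1 : k.P0.qs (D.J.coeff m) * ∏ a, (sc k.W (D.wt a * s) * k.ξ a) ^ m a -
          rw' m * k.P0.qs (MvPolynomial.eval D.R (A m)) =
          sc k.W (wgt D.wt m * s) * (k.P0.qs (D.J.coeff m - MvPolynomial.eval D.R (A m)) * ∏ a, k.ξ a ^ m a) := by
        rw [mon_scale hwt hs.le, hrwe, map_sub]
        ring
      rw [e1]
      have h3 := (k.P0.qs_mem_Id ((hle m).trans hws)).mpr (hA m).2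
      have h4 := sc_mul_mem (mul_nonneg (wgt_nonneg hwt m) hs.le)
        (Ideal.mul_mem_right (∏ a, k.ξ a ^ m a) _ h3)
      have e2 : wgt D.wt m * s + (D.w - wgt D.wt m) * s = D.w * s := by ring
      rwa [e2] at h4
    have e3 : MvPolynomial.eval (fun l => k.P0.qs (D.R l)) F =
        (MvPolynomial.eval (fun k' => k.P0.qs (D.R k')) k.p -
          MvPolynomial.eval (fun a => sc k.W (D.wt a * s) * k.ξ a) (MvPolynomial.map k.P0.qs D.J)) +
        (MvPolynomial.eval (fun a => sc k.W (D.wt a * s) * k.ξ a) (MvPolynomial.map k.P0.qs D.J) -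
          ∑ m ∈ D.J.support, rw' m * k.P0.qs (MvPolynomial.eval D.R (A m))) := by
      rw [hF, map_sub, map_sum]
      simp only [map_mul, MvPolynomial.eval_C, ← qs_eval]
      ring
    rw [e3]
    exact Ideal.add_mem _ h1 h2
  have hFc := fun m => mv_small one_pos le_rfl (Rl_iff_Rt.mp (k.fullR hR)) hws le_rfl (PKr_of_PK le_rfl hFk) hFe m
  have hdF : MvPolynomial.eval (fun l => k.P0.qs (D.R l)) (MvPolynomial.pderiv l F) ∈ Id k.W (D.w * s) :=
    eval_mem_ideal _ (pderiv_coeff_mem _ hFc l) _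
  have edF : MvPolynomial.eval (fun l => k.P0.qs (D.R l)) (MvPolynomial.pderiv l F) =
      MvPolynomial.eval (fun l => k.P0.qs (D.R l)) (MvPolynomial.pderiv l k.p) -
        ∑ m ∈ D.J.support, rw' m * k.P0.qs (MvPolynomial.eval D.R (MvPolynomial.pderiv l (A m))) := by
    rw [hF, map_sub, map_sum, map_sub, map_sum]
    congr 1
    apply Finset.sum_congr rfl
    intro m _
    rw [MvPolynomial.pderiv_C_mul, MvPolynomial.pderiv_map, map_mul, MvPolynomial.eval_C, ← qs_eval]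
  -- the equation
  set φ : β ⊕ κ → MvPolynomial (β ⊕ κ) (QS k.W) := fun a => MvPolynomial.map k.P0.qs (D.tau a) with hφ
  set Q : MvPolynomial (β ⊕ κ) (QS k.W) := MvPolynomial.aeval φ (MvPolynomial.map k.P1.qs Θ) -
    MvPolynomial.C (k.P0.qs (MvPolynomial.eval D.X Θ)) - ∑ m ∈ D.J.support, MvPolynomial.monomial m
      (k.P0.qs (MvPolynomial.eval D.R (MvPolynomial.pderiv l (A m)))) with hQ
  have hQe : MvPolynomial.eval k.raw Q ∈ Id k.W (D.w * s) := by
    have h1 := hT l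
    have h2 := (k.P1.qs_mem_Id hws).mpr hΘc
    have h3 := (k.P0.qs_mem_Id hws).mpr hΘc
    rw [map_sub] at h2 h3
    have e1 : MvPolynomial.eval k.raw Q = MvPolynomial.eval k.raw (MvPolynomial.aeval φ (MvPolynomial.map k.P1.qs Θ)) -
        k.P0.qs (MvPolynomial.eval D.X Θ) -
        ∑ m ∈ D.J.support, rw' m * k.P0.qs (MvPolynomial.eval D.R (MvPolynomial.pderiv l (A m))) := by
      rw [hQ, map_sub, map_sub, map_sum, MvPolynomial.eval_C]
      congr 1
      apply Finset.sum_congr rfl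
      intro m _
      rw [MvPolynomial.eval_monomial, Finsupp.prod_fintype _ _ fun a => pow_zero _, mul_comm]
    have h4 := k.eval_P1 (MvPolynomial.map k.P1.qs Θ)
    have e2 : MvPolynomial.eval k.raw Q = (k.P1.qs (D.c l) - k.P0.qs (D.c l) -
        MvPolynomial.eval (fun l => k.P0.qs (D.R l)) (MvPolynomial.pderiv l k.p)) -
        (k.P1.qs (D.c l) - k.P1.qs (MvPolynomial.eval D.X Θ)) +
        (k.P0.qs (D.c l) - k.P0.qs (MvPolynomial.eval D.X Θ)) +
        MvPolynomial.eval (fun l => k.P0.qs (D.R l)) (MvPolynomial.pderiv l F) -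
        (MvPolynomial.eval (fun a => k.P1.qs (D.X a)) (MvPolynomial.map k.P1.qs Θ) -
          MvPolynomial.eval k.raw (MvPolynomial.aeval φ (MvPolynomial.map k.P1.qs Θ))) := by
      rw [e1, edF, qs_eval k.P1]
      ring
    rw [e2]
    exact Ideal.sub_mem _ (Ideal.add_mem _ (Ideal.add_mem _ (Ideal.sub_mem _ h1 h2) h3) hdF) h4
  have hXk : ∀ {P : MvPolynomial (β ⊕ κ) (QS S)}, P ∈ PK ⊥ → dg (MvPolynomial.eval D.X P) 1 ≤ D.inf :=
    fun hP => QS.eval_mem hP D.X bot_le D.X_know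
  have hQk : Q ∈ PK (k.P0.map D.inf) := by
    apply (PK _).sub_mem
    · apply (PK _).sub_mem
      · apply sbs_PK
        · exact PK_mono ((Pj.map_bot _).le.trans bot_le) (map_PK k.P1 hΘ)
        · exact fun a => map_PK k.P0 (D.tau_know a)
      · apply C_mem
        rw [k.P0.qs_dg]
        exact Pj.map_mono _ (hXk hΘ)
    · apply (PK _).sum_mem
      intro m _ n
      rw [MvPolynomial.coeff_monomial]
      split_ifs
      · rw [k.P0.qs_dg]
        apply Pj.map_mono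
        exact QS.eval_mem (pderiv_PK (hA m).1 l) D.R D.qinf
          (fun a => (dg_le_vd D.R 1 a).trans D.Rinf)
      · exact (Kn k.W 1 le_rfl _).zero_mem
  have hsm := small_raw hwt hs.le k.ℓ0 k.ℓ1 k.real hws le_rfl (PKr_of_PK le_rfl hQk) hQe
  have hcoef : ∀ m, Q.coeff m = (MvPolynomial.aeval φ (MvPolynomial.map k.P1.qs Θ)).coeff m -
      (if 0 = m then k.P0.qs (MvPolynomial.eval D.X Θ) else 0) -
      (if m ∈ D.J.support then k.P0.qs (MvPolynomial.eval D.R (MvPolynomial.pderiv l (A m))) else 0) := by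
    intro m
    rw [hQ, MvPolynomial.coeff_sub, MvPolynomial.coeff_sub, MvPolynomial.coeff_C, MvPolynomial.coeff_sum]
    simp only [MvPolynomial.coeff_monomial]
    rw [Finset.sum_ite_eq' D.J.support m]
  have hJ0 : (0 : β ⊕ κ →₀ ℕ) ∉ D.J.support := by
    intro h
    exact (D.Jw 0 (MvPolynomial.mem_support_iff.mp h)).1 rfl
  have hagree : ∀ m, k.P1.qs (Θ.coeff m) - k.P0.qs (Θ.coeff m) ∈ Id k.W (D.w * s) := by
    have h1 := hsm 0
    rw [hcoef, if_pos rfl, if_neg hJ0, sub_zero, coeff_zero_eval, eval_sbs] at h1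
    have e1 : (fun a => MvPolynomial.eval (fun _ => 0) (φ a)) = fun a => k.P0.qs (D.X a) := by
      funext a
      rw [hφ]
      show MvPolynomial.eval (fun _ => 0) (MvPolynomial.map k.P0.qs (D.tau a)) = _
      rw [← D.eval0_tau, qs_eval]
      simp only [map_zero]
    have e2 : wgt D.wt (0 : β ⊕ κ →₀ ℕ) = 0 := by
      unfold wgt
      simp
    rw [e1, e2, zero_mul, sub_zero, qs_eval] at h1
    have hX1 : Rt 1 (fun a => k.P0.qs (D.X a)) (⊥ : k.W.L) := by
      have h2 := Rt.pull k.P0 (Rl_iff_Rt.mp hX)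
      rwa [Pj.map_bot] at h2
    have hb : ∀ (p : Pj k.W S), MvPolynomial.map p.qs Θ ∈ PK (⊥ : k.W.L) := by
      intro p
      have h3 := map_PK p hΘ
      rwa [Pj.map_bot] at h3
    intro m
    have h4 := mv_small_unique one_pos le_rfl hX1 hws le_rfl (PKr_of_PK le_rfl (hb k.P1))
      (PKr_of_PK le_rfl (hb k.P0)) h1 m
    rwa [MvPolynomial.coeff_map, MvPolynomial.coeff_map] at h4
  refine ⟨hagree, ?_⟩
  intro m hm
  have h1 := hsm m
  have hite : (if m ∈ D.J.support then k.P0.qs (MvPolynomial.eval D.R (MvPolynomial.pderiv l (A m))) else 0) =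
      k.P0.qs (MvPolynomial.eval D.R (MvPolynomial.pderiv l (A m))) := by
    split_ifs with h
    · rfl
    · rw [hA0 m h, map_zero, map_zero, map_zero]
  rw [hcoef, if_neg (Ne.symm hm), hite, sub_zero] at h1
  have h2 : (MvPolynomial.aeval φ (MvPolynomial.map k.P1.qs Θ)).coeff m -
      k.P0.qs ((MvPolynomial.aeval D.tau Θ).coeff m) ∈ Id k.W (D.w * s) := by
    have e1 : k.P0.qs ((MvPolynomial.aeval D.tau Θ).coeff m) =
        (MvPolynomial.aeval φ (MvPolynomial.map k.P0.qs Θ)).coeff m := by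
      rw [← MvPolynomial.coeff_map, map_sbs]
    rw [e1, ← MvPolynomial.coeff_sub, ← map_sub]
    apply sbs_coeff_mem
    intro n
    rw [MvPolynomial.coeff_sub, MvPolynomial.coeff_map, MvPolynomial.coeff_map]
    exact hagree n
  rw [← k.P0.qs_mem_Id ((hle m).trans hws), map_sub]
  have e3 : D.w * s - wgt D.wt m * s = (D.w - wgt D.wt m) * s := by ring
  rw [e3] at h1
  have h3 := Ideal.sub_mem _ h1 (Id_mono (hle m) h2)
  rwa [sub_sub_sub_cancel_left] at h3

/-- (RC): the higher vertical jets are derivatives of the first ones -/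
theorem Walk.rc {D : Dat S β κ} {s : ℝ} (hs : 0 < s) (hws : D.w * s ≤ 1) (k : Walk D s) (l : κ)
    (hRC : k.P1.qs (D.c l) - MvPolynomial.eval k.raw (MvPolynomial.pderiv (Sum.inr l)
      (MvPolynomial.map k.P0.qs D.J)) ∈ Id k.W ((D.w - D.wv l) * s))
    (Θ : MvPolynomial (β ⊕ κ) (QS S)) (hΘ : Θ ∈ PK ⊥) (hΘc : D.c l - MvPolynomial.eval D.X Θ ∈ Id S (D.w * s))
    (hag : ∀ m, k.P1.qs (Θ.coeff m) - k.P0.qs (Θ.coeff m) ∈ Id k.W (D.w * s)) (m : β ⊕ κ →₀ ℕ) :
    (MvPolynomial.aeval D.tau Θ).coeff m - D.J.coeff (m + Finsupp.single (Sum.inr l) 1) * (m (Sum.inr l) + 1) ∈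
      Id S ((D.w - D.wv l - wgt D.wt m) * s) := by
  have hwt : ∀ a, 0 ≤ D.wt a := fun a => (D.wpos a).le
  have hle1 : (D.w - D.wv l) * s ≤ D.w * s :=
    mul_le_mul_of_nonneg_right (sub_le_self _ (hwt _)) hs.le
  have hle2 : (D.w - D.wv l - wgt D.wt m) * s ≤ (D.w - D.wv l) * s :=
    mul_le_mul_of_nonneg_right (sub_le_self _ (wgt_nonneg hwt m)) hs.le
  set Q : MvPolynomial (β ⊕ κ) (QS S) := MvPolynomial.aeval D.tau Θ - MvPolynomial.pderiv (Sum.inr l) D.J with hQ
  have hQk : Q ∈ PK D.inf := (PK _).sub_mem (sbs_PK (PK_mono bot_le hΘ) D.tau_know) (pderiv_PK D.Jinf _)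
  have hQe : MvPolynomial.eval k.raw (MvPolynomial.map k.P0.qs Q) ∈ Id k.W ((D.w - D.wv l) * s) := by
    have h1 := (k.P1.qs_mem_Id hws).mpr hΘc
    rw [map_sub, qs_eval] at h1
    have h2 := map_sub_coeff_mem (Id k.W (D.w * s)) k.P1.qs k.P0.qs Θ (fun a => k.P1.qs (D.X a)) hag
    have h3 := k.eval_P1 (MvPolynomial.map k.P0.qs Θ)
    have e1 : MvPolynomial.eval k.raw (MvPolynomial.map k.P0.qs Q) =
        (k.P1.qs (D.c l) - MvPolynomial.eval k.raw (MvPolynomial.pderiv (Sum.inr l)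
          (MvPolynomial.map k.P0.qs D.J))) -
        (((k.P1.qs (D.c l) - MvPolynomial.eval (fun a => k.P1.qs (D.X a)) (MvPolynomial.map k.P1.qs Θ)) +
        (MvPolynomial.eval (fun a => k.P1.qs (D.X a)) (MvPolynomial.map k.P1.qs Θ) -
          MvPolynomial.eval (fun a => k.P1.qs (D.X a)) (MvPolynomial.map k.P0.qs Θ))) +
        (MvPolynomial.eval (fun a => k.P1.qs (D.X a)) (MvPolynomial.map k.P0.qs Θ) -
          MvPolynomial.eval k.raw (MvPolynomial.aeval (fun a => MvPolynomial.map k.P0.qs (D.tau a))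
            (MvPolynomial.map k.P0.qs Θ)))) := by
      rw [hQ, map_sub, map_sub, map_sbs, ← MvPolynomial.pderiv_map]
      ring
    rw [e1]
    exact Ideal.sub_mem _ hRC (Id_mono hle1 (Ideal.add_mem _ (Ideal.add_mem _ h1 h2) h3))
  have h3 := small_raw hwt hs.le k.ℓ0 k.ℓ1 k.real (hle1.trans hws) le_rfl
    (PKr_of_PK le_rfl (map_PK k.P0 hQk)) hQe m
  have e2 : (D.w - D.wv l) * s - wgt D.wt m * s = (D.w - D.wv l - wgt D.wt m) * s := by ring
  rw [e2, MvPolynomial.coeff_map, k.P0.qs_mem_Id (hle2.trans (hle1.trans hws))] at h3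
  rwa [hQ, MvPolynomial.coeff_sub, MvPolynomial.coeff_pderiv] at h3

theorem coeff_single_eq {A : Type*} [CommRing A] {σ : Type*} (P : MvPolynomial σ A) (i : σ) :
    P.coeff (Finsupp.single i 1) = (MvPolynomial.pderiv i P).coeff 0 := by
  rw [MvPolynomial.coeff_pderiv, zero_add, Finsupp.zero_apply, Nat.cast_zero, zero_add, mul_one]

/-- the first vertical coefficient of `Θ ∘ τ` -/
theorem Dat.coeff_tau_single (D : Dat S β κ) (Θ : MvPolynomial (β ⊕ κ) (QS S)) (l : κ) :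
    (MvPolynomial.aeval D.tau Θ).coeff (Finsupp.single (Sum.inr l) 1) =
      MvPolynomial.eval D.X (MvPolynomial.pderiv (Sum.inr l) Θ) := by
  rw [coeff_single_eq, D.pderiv_sbs_tau, coeff_zero_eval, eval_sbs]
  congr 1
  congr 1
  funext a
  exact D.eval0_tau a

theorem wgt_single {σ : Type} [Fintype σ] (wt : σ → ℝ) (i : σ) : wgt wt (Finsupp.single i 1) = wt i := by
  classical
  unfold wgt
  rw [Finset.sum_eq_single i]
  · rw [Finsupp.single_eq_same, Nat.cast_one, one_mul]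
  · intro a _ ha
    rw [Finsupp.single_eq_of_ne ha, Nat.cast_zero, zero_mul]
  · intro h
    exact absurd (Finset.mem_univ i) h

theorem wgt_add {σ : Type} [Fintype σ] (wt : σ → ℝ) (m n : σ →₀ ℕ) : wgt wt (m + n) = wgt wt m + wgt wt n := by
  unfold wgt
  rw [← Finset.sum_add_distrib]
  apply Finset.sum_congr rfl
  intro a _
  rw [Finsupp.add_apply, Nat.cast_add, add_mul]

open Classical in
/-- evaluation of the base variables -/
def Dat.bas (D : Dat S β κ) : MvPolynomial (β ⊕ κ) (QS S) →ₐ[QS S] MvPolynomial κ (QS S) :=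
  MvPolynomial.aeval (Sum.elim (fun a => MvPolynomial.C (D.q a)) MvPolynomial.X)

theorem Dat.eval_bas (D : Dat S β κ) (P : MvPolynomial (β ⊕ κ) (QS S)) :
    MvPolynomial.eval D.R (D.bas P) = MvPolynomial.eval D.X P := by
  unfold Dat.bas
  rw [eval_sbs]
  congr 1
  congr 1
  funext a
  rcases a with a | a
  · exact MvPolynomial.eval_C _
  · exact MvPolynomial.eval_X _

theorem Dat.bas_PK (D : Dat S β κ) {P : MvPolynomial (β ⊕ κ) (QS S)} (hP : P ∈ PK ⊥) : D.bas P ∈ PK D.qi := by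
  apply sbs_PK (PK_mono bot_le hP)
  rintro (a | a)
  · exact C_mem (dg_le_vd D.q 1 a)
  · exact X_mem _ _

theorem Dat.pderiv_bas (D : Dat S β κ) (P : MvPolynomial (β ⊕ κ) (QS S)) (l : κ) :
    MvPolynomial.pderiv l (D.bas P) = D.bas (MvPolynomial.pderiv (Sum.inr l) P) := by
  classical
  apply pderiv_sbs
  rintro (a | a)
  · rw [if_neg (by simp)]
    exact MvPolynomial.pderiv_C
  · show MvPolynomial.pderiv l (MvPolynomial.X a) = _
    rw [MvPolynomial.pderiv_X]
    by_cases h : a = l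
    · subst h
      rw [Pi.single_eq_same, if_pos rfl]
    · rw [Pi.single_eq_of_ne h, if_neg (by simpa using h)]

/-- STEP (4b): CLOSEDNESS -/
theorem closed {D : Dat S β κ} {s₂ s₃ : ℝ} (hs32 : s₃ ≤ s₂) (hws : D.w * s₂ ≤ 1)
    (h32 : ∀ l, D.w * s₃ ≤ (D.w - D.wv l) * s₂) (hX : Rl D.X ⊥) (hR : Rl D.R D.qi)
    (A : (β ⊕ κ →₀ ℕ) → MvPolynomial κ (QS S))
    (hA : ∀ m, A m ∈ PK D.qi ∧ D.J.coeff m - MvPolynomial.eval D.R (A m) ∈ Id S ((D.w - wgt D.wt m) * s₂))
    (hA1 : ∀ l, D.c l - MvPolynomial.eval D.R (A (Finsupp.single (Sum.inr l) 1)) ∈ Id S (D.w * s₂))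
    (Θ : κ → MvPolynomial (β ⊕ κ) (QS S)) (hΘ : ∀ l, Θ l ∈ PK ⊥)
    (hΘc : ∀ l, D.c l - MvPolynomial.eval D.X (Θ l) ∈ Id S (D.w * s₂))
    (hag : ∀ l m, m ≠ 0 → (MvPolynomial.aeval D.tau (Θ l)).coeff m -
      MvPolynomial.eval D.R (MvPolynomial.pderiv l (A m)) ∈ Id S ((D.w - wgt D.wt m) * s₂)) (k l : κ)
    (m : β ⊕ κ →₀ ℕ) :
    (MvPolynomial.pderiv (Sum.inr k) (Θ l) - MvPolynomial.pderiv (Sum.inr l) (Θ k)).coeff m ∈ Id S (D.w * s₃) := by
  have hw0 : 0 ≤ D.w := (D.wpos (Sum.inr l)).le.trans (D.wlt l).le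
  have hle3 : D.w * s₃ ≤ D.w * s₂ := mul_le_mul_of_nonneg_left hs32 hw0
  set e : β ⊕ κ →₀ ℕ := Finsupp.single (Sum.inr k) 1 with he
  have he0 : e ≠ 0 := by
    rw [he]
    exact Finsupp.single_ne_zero.mpr one_ne_zero
  have h1 := hag l e he0
  rw [he, D.coeff_tau_single, ← he, wgt_single] at h1
  have h1' := Id_mono (h32 k) h1
  -- the coefficients of `A e`
  have h2 : MvPolynomial.eval D.R (A e) - MvPolynomial.eval D.R (D.bas (Θ k)) ∈ Id S (D.w * s₂) := by
    rw [D.eval_bas]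
    exact sub_sub_mem _ (hA1 k) (hΘc k)
  have h3 := fun m => mv_small_unique one_pos le_rfl (Rl_iff_Rt.mp hR) hws le_rfl (PKr_of_PK le_rfl (hA e).1)
    (PKr_of_PK le_rfl (D.bas_PK (hΘ k))) h2 m
  have h4 : MvPolynomial.eval D.R (MvPolynomial.pderiv l (A e)) -
      MvPolynomial.eval D.X (MvPolynomial.pderiv (Sum.inr l) (Θ k)) ∈ Id S (D.w * s₂) := by
    rw [← D.eval_bas, ← D.pderiv_bas, ← map_sub, ← map_sub]
    apply eval_mem_ideal
    apply pderiv_coeff_mem
    intro m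
    rw [MvPolynomial.coeff_sub]
    exact h3 m
  have h5 : MvPolynomial.eval D.X (MvPolynomial.pderiv (Sum.inr k) (Θ l)) -
      MvPolynomial.eval D.X (MvPolynomial.pderiv (Sum.inr l) (Θ k)) ∈ Id S (D.w * s₃) := by
    have h6 := Ideal.add_mem _ h1' (Id_mono hle3 h4)
    rwa [sub_add_sub_cancel] at h6
  rw [MvPolynomial.coeff_sub]
  exact mv_small_unique one_pos le_rfl (Rl_iff_Rt.mp hX) (hle3.trans hws) le_rfl
    (PKr_of_PK le_rfl (pderiv_PK (hΘ l) _)) (PKr_of_PK le_rfl (pderiv_PK (hΘ k) _)) h5 m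

end

end Pool.Agent.Helper57.TA
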