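import Pool.Agent.Helper57.TA.Alg
import Pool.Agent.Helper57.TA.Jet
import Pool.Agent.Helper31.EC.Ext

/-! Diagonals of sequences of extensions: relations between finitely many functions and finitely many entropies pass
to a diagonal. -/

set_option autoImplicit false

namespace Pool.Agent.Helper57.TA

open Finset Filter Topology Pool.Agent.Helper69.RK Pool.Agent.Helper31.EC Pool.Agent.Helper31.EC.Sp
open Pool.Agent.Helper31.EC.QS

noncomputable section

variable {S : Sp}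

section gd

variable (W : ℕ → Sp) (J : ℕ → ℕ) (hn : Tendsto (fun k => ((W (J k)).F k).n) UF atTop)

/-- sequences of tame functions with a tame diagonal -/
def Gd (f : ∀ j, TR (W j)) : Prop :=
  ∃ K : ℕ → ℝ, (dsp W J hn).Sub K ∧ ∀ᶠ k in UF, ∀ ω, ((W (J k)).F k).μ ω ≠ 0 → |(f (J k)).1 k ω| ≤ K k

variable {W J hn}

theorem Gd.add {f g : ∀ j, TR (W j)} (hf : Gd W J hn f) (hg : Gd W J hn g) : Gd W J hn (fun j => f j + g j) := by
  obtain ⟨K, hK, h⟩ := hf
  obtain ⟨L, hL, h'⟩ := hg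
  refine ⟨_, hK.add hL, ?_⟩
  filter_upwards [h, h'] with k a b ω hω
  exact (abs_add_le _ _).trans (add_le_add (a ω hω) (b ω hω))

theorem Gd.mul {f g : ∀ j, TR (W j)} (hf : Gd W J hn f) (hg : Gd W J hn g) : Gd W J hn (fun j => f j * g j) := by
  obtain ⟨K, hK, h⟩ := hf
  obtain ⟨L, hL, h'⟩ := hg
  refine ⟨_, hK.mul hL, ?_⟩
  filter_upwards [h, h', hK.1] with k a b c ω hω
  show |TR.ev (f (J k)) k ω * TR.ev (g (J k)) k ω| ≤ _
  rw [abs_mul]
  exact mul_le_mul (a ω hω) (b ω hω) (abs_nonneg _) c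

theorem Gd.neg {f : ∀ j, TR (W j)} (hf : Gd W J hn f) : Gd W J hn (fun j => -f j) := by
  obtain ⟨K, hK, h⟩ := hf
  refine ⟨_, hK, ?_⟩
  filter_upwards [h] with k a ω hω
  show |-TR.ev (f (J k)) k ω| ≤ _
  rw [abs_neg]
  exact a ω hω

theorem Gd.const {f : ∀ j, TR (W j)} {C : ℝ} (hC : 0 ≤ C) (h : ∀ j k ω, |TR.ev (f j) k ω| ≤ C) : Gd W J hn f :=
  ⟨fun _ => C, Sub_const _ hC, Eventually.of_forall fun k ω _ => h (J k) k ω⟩

end gd

variable {W : ℕ → Sp} {ι : Type} {b : ι → ∀ j, TR (W j)}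

variable (W b) in
/-- a diagonal along which the functions `b i` are tame -/
structure DJ where
  J : ℕ → ℕ
  hn : Tendsto (fun k => ((W (J k)).F k).n) UF atTop
  hJ : Tendsto J UF atTop
  hb : ∀ i, Gd W J hn (b i)

namespace DJ

variable (c : DJ W b)

/-- the diagonal space -/
def sp : Sp := dsp W c.J c.hn

/-- the diagonal of projections onto a fixed space -/
def pj (P : ∀ j, Pj (W j) S) : Pj c.sp S where
  π := fun k => (P (c.J k)).π k
  law := fun k => (P (c.J k)).law k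
  hZ := fun k => (P (c.J k)).hZ k
  hn := fun k => (P (c.J k)).hn k

/-- the diagonal of functions -/
def fn (f : ∀ j, TR (W j)) (hf : Gd W c.J c.hn f) : TR c.sp := ⟨fun k ω => (f (c.J k)).1 k ω, hf⟩

theorem gd_tr (P : ∀ j, Pj (W j) S) (g : TR S) : Gd W c.J c.hn (fun j => (P j).tr g) := ((c.pj P).tr g).2

end DJ

/-- the functions `X c` are the diagonals of the functions `f j` (up to full precision) -/
def Rp (b : ι → ∀ j, TR (W j)) (f : ∀ j, QS (W j)) (X : ∀ c : DJ W b, QS c.sp) : Prop :=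
  ∃ g : ∀ j, TR (W j), (∀ j, QS.mk (g j) = f j) ∧ ∀ c : DJ W b, ∃ hg : Gd W c.J c.hn g, QS.mk (c.fn g hg) = X c

namespace Rp

theorem base (i : ι) : Rp b (fun j => QS.mk (b i j)) (fun c => QS.mk (c.fn (b i) (c.hb i))) :=
  ⟨b i, fun _ => rfl, fun c => ⟨c.hb i, rfl⟩⟩

theorem pull (P : ∀ j, Pj (W j) S) (f : QS S) : Rp b (fun j => (P j).qs f) (fun c => (c.pj P).qs f) := by
  obtain ⟨g, rfl⟩ := QS.mk_surj f
  exact ⟨fun j => (P j).tr g, fun j => ((P j).qs_mk g).symm, fun c => ⟨c.gd_tr P g, ((c.pj P).qs_mk g).symm⟩⟩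

theorem add {f g : ∀ j, QS (W j)} {X Y : ∀ c : DJ W b, QS c.sp} (hf : Rp b f X) (hg : Rp b g Y) :
    Rp b (fun j => f j + g j) (fun c => X c + Y c) := by
  obtain ⟨u, hu, hu'⟩ := hf
  obtain ⟨v, hv, hv'⟩ := hg
  refine ⟨fun j => u j + v j, fun j => by rw [map_add, hu, hv], fun c => ?_⟩
  obtain ⟨a, ha⟩ := hu' c
  obtain ⟨e, he⟩ := hv' c
  refine ⟨a.add e, ?_⟩
  beta_reduce
  rw [← ha, ← he, ← map_add]
  rfl

theorem mul {f g : ∀ j, QS (W j)} {X Y : ∀ c : DJ W b, QS c.sp} (hf : Rp b f X) (hg : Rp b g Y) :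
    Rp b (fun j => f j * g j) (fun c => X c * Y c) := by
  obtain ⟨u, hu, hu'⟩ := hf
  obtain ⟨v, hv, hv'⟩ := hg
  refine ⟨fun j => u j * v j, fun j => by rw [map_mul, hu, hv], fun c => ?_⟩
  obtain ⟨a, ha⟩ := hu' c
  obtain ⟨e, he⟩ := hv' c
  refine ⟨a.mul e, ?_⟩
  beta_reduce
  rw [← ha, ← he, ← map_mul]
  rfl

theorem neg {f : ∀ j, QS (W j)} {X : ∀ c : DJ W b, QS c.sp} (hf : Rp b f X) :
    Rp b (fun j => -f j) (fun c => -X c) := by
  obtain ⟨u, hu, hu'⟩ := hf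
  refine ⟨fun j => -u j, fun j => by rw [map_neg, hu], fun c => ?_⟩
  obtain ⟨a, ha⟩ := hu' c
  refine ⟨a.neg, ?_⟩
  beta_reduce
  rw [← ha, ← map_neg]
  rfl

theorem sub {f g : ∀ j, QS (W j)} {X Y : ∀ c : DJ W b, QS c.sp} (hf : Rp b f X) (hg : Rp b g Y) :
    Rp b (fun j => f j - g j) (fun c => X c - Y c) := by
  have h := hf.add hg.neg
  simpa only [← sub_eq_add_neg] using h

theorem one : Rp b (fun _ => 1) (fun _ => 1) :=
  ⟨fun _ => 1, fun _ => map_one _, fun c => ⟨Gd.const zero_le_one fun j k ω => by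
    rw [TR.ev_one, abs_one], map_one QS.mk⟩⟩

theorem zero : Rp b (fun _ => 0) (fun _ => 0) :=
  ⟨fun _ => 0, fun _ => map_zero _, fun c => ⟨Gd.const le_rfl fun j k ω => by
    rw [TR.ev_zero, abs_zero], map_zero QS.mk⟩⟩

theorem scl (u : ℝ) : Rp b (fun j => sc (W j) u) (fun c => sc c.sp u) :=
  ⟨fun j => scT (W j) u, fun _ => rfl, fun c => ⟨Gd.const zero_le_one fun j k ω => by
    show |(W j).dl (max u 0) k| ≤ 1
    rw [abs_of_pos ((W j).dl_pos _ _)]
    have h1 := (W j).dl_anti (le_max_right u 0) k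
    rwa [(W j).dl_zero] at h1, rfl⟩⟩

theorem natC (m : ℕ) : Rp b (fun _ => (m : _)) (fun _ => (m : _)) := by
  induction m with
  | zero => simpa using zero (b := b)
  | succ m ih => simpa using ih.add (one (b := b))

theorem pow {f : ∀ j, QS (W j)} {X : ∀ c : DJ W b, QS c.sp} (hf : Rp b f X) (m : ℕ) :
    Rp b (fun j => f j ^ m) (fun c => X c ^ m) := by
  induction m with
  | zero => simpa using one (b := b)
  | succ m ih => simpa only [pow_succ] using ih.mul hf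

theorem sum {σ : Type*} (s : Finset σ) {f : σ → ∀ j, QS (W j)} {X : σ → ∀ c : DJ W b, QS c.sp}
    (h : ∀ a ∈ s, Rp b (f a) (X a)) : Rp b (fun j => ∑ a ∈ s, f a j) (fun c => ∑ a ∈ s, X a c) := by
  classical
  induction s using Finset.induction_on with
  | empty => simpa using zero (b := b)
  | insert a s ha ih =>
    have h1 := (h a (Finset.mem_insert_self a s)).add (ih fun x hx => h x (Finset.mem_insert_of_mem hx))
    simpa only [Finset.sum_insert ha] using h1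

theorem prod {σ : Type*} (s : Finset σ) {f : σ → ∀ j, QS (W j)} {X : σ → ∀ c : DJ W b, QS c.sp}
    (h : ∀ a ∈ s, Rp b (f a) (X a)) : Rp b (fun j => ∏ a ∈ s, f a j) (fun c => ∏ a ∈ s, X a c) := by
  classical
  induction s using Finset.induction_on with
  | empty => simpa using one (b := b)
  | insert a s ha ih =>
    have h1 := (h a (Finset.mem_insert_self a s)).mul (ih fun x hx => h x (Finset.mem_insert_of_mem hx))
    simpa only [Finset.prod_insert ha] using h1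

/-- values of polynomials pulled back from the fixed space -/
theorem eval {σ : Type} [Fintype σ] (P : ∀ j, Pj (W j) S) (F : MvPolynomial σ (QS S)) {x : σ → ∀ j, QS (W j)}
    {X : σ → ∀ c : DJ W b, QS c.sp} (h : ∀ a, Rp b (x a) (X a)) :
    Rp b (fun j => MvPolynomial.eval (fun a => x a j) (MvPolynomial.map (P j).qs F))
      (fun c => MvPolynomial.eval (fun a => X a c) (MvPolynomial.map (c.pj P).qs F)) := by
  simp only [MvPolynomial.eval_map, MvPolynomial.eval₂_eq']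
  exact sum _ fun m _ => (pull P _).mul (prod _ fun a _ => (h a).pow _)

/-- values of polynomials with variable coefficients and a fixed support -/
theorem evalM {σ : Type} [Fintype σ] (M : Finset (σ →₀ ℕ)) {C : (σ →₀ ℕ) → ∀ j, QS (W j)}
    {C' : (σ →₀ ℕ) → ∀ c : DJ W b, QS c.sp} (hC : ∀ m ∈ M, Rp b (C m) (C' m)) {x : σ → ∀ j, QS (W j)}
    {X : σ → ∀ c : DJ W b, QS c.sp} (h : ∀ a, Rp b (x a) (X a)) :
    Rp b (fun j => MvPolynomial.eval (fun a => x a j) (∑ m ∈ M, MvPolynomial.monomial m (C m j)))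
      (fun c => MvPolynomial.eval (fun a => X a c) (∑ m ∈ M, MvPolynomial.monomial m (C' m c))) := by
  classical
  simp only [map_sum, MvPolynomial.eval_monomial, Finsupp.prod_fintype _ _ fun _ => pow_zero _]
  exact sum _ fun m hm => (hC m hm).mul (prod _ fun a _ => (h a).pow _)

end Rp

/-- the informations `X c` are the diagonals of the informations `x j` -/
def Lm (b : ι → ∀ j, TR (W j)) (x : ∀ j, (W j).L) (X : ∀ c : DJ W b, c.sp.L) : Prop :=
  ∃ A : ∀ j, (W j).Inf, (∀ j, cl (A j) = x j) ∧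
    ∀ c : DJ W b, ∃ hv : c.sp.VB (fun k => (A (c.J k)).1 k), X c = cl ⟨_, hv⟩

namespace Lm

theorem bot : Lm b (fun _ => ⊥) (fun _ => ⊥) := ⟨fun _ => Inf.bot, fun _ => rfl, fun _ => ⟨VB_tr, rfl⟩⟩

theorem sup {x y : ∀ j, (W j).L} {X Y : ∀ c : DJ W b, c.sp.L} (hx : Lm b x X) (hy : Lm b y Y) :
    Lm b (fun j => x j ⊔ y j) (fun c => X c ⊔ Y c) := by
  obtain ⟨A, hA, hA'⟩ := hx
  obtain ⟨B, hB, hB'⟩ := hy
  refine ⟨fun j => Inf.sup (A j) (B j), fun j => by rw [cl_sup, hA, hB], fun c => ?_⟩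
  obtain ⟨u, hu⟩ := hA' c
  obtain ⟨v, hv⟩ := hB' c
  refine ⟨u.inf v, ?_⟩
  beta_reduce
  rw [hu, hv]
  exact (cl_sup (S := c.sp) ⟨_, u⟩ ⟨_, v⟩).symm

theorem fsup {σ : Type*} (s : Finset σ) {x : σ → ∀ j, (W j).L} {X : σ → ∀ c : DJ W b, c.sp.L}
    (h : ∀ a ∈ s, Lm b (x a) (X a)) : Lm b (fun j => s.sup fun a => x a j) (fun c => s.sup fun a => X a c) := by
  classical
  induction s using Finset.induction_on with
  | empty => simpa using bot (b := b)
  | insert a s ha ih =>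
    have h1 := (h a (Finset.mem_insert_self a s)).sup (ih fun x hx => h x (Finset.mem_insert_of_mem hx))
    simpa only [Finset.sup_insert] using h1

theorem pull (P : ∀ j, Pj (W j) S) (x : S.L) : Lm b (fun j => (P j).map x) (fun c => (c.pj P).map x) := by
  induction x using cl_ind with | _ A
  refine ⟨fun j => (P j).mapI A, fun j => rfl, fun c => ⟨((c.pj P).mapI A).2, rfl⟩⟩

theorem dig {f : ∀ j, QS (W j)} {X : ∀ c : DJ W b, QS c.sp} (hf : Rp b f X) {r : ℝ} (hr : r ≤ 1) :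
    Lm b (fun j => QS.dg (f j) r) (fun c => QS.dg (X c) r) := by
  obtain ⟨u, hu, hu'⟩ := hf
  refine ⟨fun j => ((TR.vec (fun _ : Fin 1 => u j)).bdd r).toInf, fun j => ?_, fun c => ?_⟩
  · beta_reduce
    rw [← hu, QS.dg_mk _ hr]
    exact (io_eq _).symm
  · obtain ⟨a, ha⟩ := hu' c
    refine ⟨((TR.vec (fun _ : Fin 1 => c.fn u a)).bdd r), ?_⟩
    beta_reduce
    rw [← ha, QS.dg_mk _ hr]
    exact io_eq _

theorem vdg {σ : Type} [Fintype σ] {f : σ → ∀ j, QS (W j)} {X : σ → ∀ c : DJ W b, QS c.sp}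
    (hf : ∀ a, Rp b (f a) (X a)) {r : ℝ} (hr : r ≤ 1) :
    Lm b (fun j => vd (fun a => f a j) r) (fun c => vd (fun a => X a c) r) :=
  fsup _ fun a _ => dig (hf a) hr

end Lm

/-- subexponential sequences are eventually small -/
theorem sub_ev {T : Sp} {K : ℕ → ℝ} (hK : T.Sub K) (j : ℕ) : ∀ᶠ k in UF, 0 ≤ K k ∧
    Real.logb 2 (K k + 2) / (T.F k).n ≤ 1 / ((j : ℝ) + 1) := by
  have h5 : (0 : ℝ) < 1 / ((j : ℝ) + 1) := by positivity
  filter_upwards [hK.1, hK.2.eventually (gt_mem_nhds h5)] with k a b using ⟨a, b.le⟩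

/-- `X` is small along the diagonal if it is small on all spaces, at a good diagonal -/
theorem mem_of_mass {g : ∀ j, TR (W j)} {r : ℝ} (hr : r ≤ 1) (c : DJ W b) (hg : Gd W c.J c.hn g)
    (h : ∀ᶠ k in UF, mass (res ((W (c.J k)).F k).μ
      (fun ω => ¬ |TR.ev (g (c.J k)) k ω| ≤ (W (c.J k)).dl (r - 1 / ((c.J k : ℝ) + 1)) k)) ≤ 1 / ((c.J k : ℝ) + 1)) :
    QS.mk (c.fn g hg) ∈ Id c.sp r := by
  rw [mk_mem_Id hr, TR.ag_iff_levels]
  intro δ hδ
  have h1 : Tendsto (fun k => 1 / ((c.J k : ℝ) + 1)) UF (𝓝 0) :=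
    tendsto_one_div_add_atTop_nhds_zero_nat.comp c.hJ
  have h2 : Typ (S := c.sp) (fun k ω => |TR.ev (g (c.J k)) k ω| ≤ (W (c.J k)).dl (r - 1 / ((c.J k : ℝ) + 1)) k) :=
    tendsto_of_tendsto_of_tendsto_of_le_of_le' tendsto_const_nhds h1
      (Eventually.of_forall fun k => mass_res_nonneg (S := c.sp) k _) h
  apply h2.mono
  filter_upwards [h1.eventually (gt_mem_nhds hδ)] with k hk ω _ hω
  have e1 : TR.ev (c.fn g hg) k ω - TR.ev (0 : TR c.sp) k ω = TR.ev (g (c.J k)) k ω := by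
    rw [TR.ev_zero, sub_zero]
    rfl
  rw [e1]
  refine hω.trans ?_
  exact (W (c.J k)).dl_anti (by linarith) k

/-- DIAGONALS: finitely many smallness relations and finitely many entropies pass to a diagonal -/
theorem diag_main {W : ℕ → Sp} {ι : Type} [Fintype ι] (b : ι → ∀ j, TR (W j)) {ρ : Type} [Fintype ρ]
    (f : ρ → ∀ j, QS (W j)) (X : ρ → ∀ c : DJ W b, QS c.sp) (hX : ∀ a, Rp b (f a) (X a)) (lev : ρ → ℝ)
    (hlev : ∀ a, lev a ≤ 1) (hf : ∀ a j, f a j ∈ Id (W j) (lev a)) {η : Type} [Fintype η]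
    (x y : η → ∀ j, (W j).L) (Xx Yy : η → ∀ c : DJ W b, c.sp.L) (hx : ∀ e, Lm b (x e) (Xx e))
    (hy : ∀ e, Lm b (y e) (Yy e)) :
    ∃ c : DJ W b, (∀ a, X a c ∈ Id c.sp (lev a)) ∧
      ∀ e, Tendsto (fun k => h (x e (c.J k)) (y e (c.J k))) UF (𝓝 (h (Xx e c) (Yy e c))) := by
  classical
  choose g hg hg' using hX
  choose A hA hA' using hx
  choose B hB hB' using hy
  choose K hK hK' using fun (i : ι) (j : ℕ) => (b i j).2
  set G : ℕ → ℕ → ℕ → Prop := fun _ j k => (j : ℝ) ≤ ((W j).F k).n ∧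
    (∀ i, (0 ≤ K i j k ∧ Real.logb 2 (K i j k + 2) / ((W j).F k).n ≤ 1 / ((j : ℝ) + 1)) ∧
      ∀ ω, ((W j).F k).μ ω ≠ 0 → |(b i j).1 k ω| ≤ K i j k) ∧
    (∀ a, mass (res ((W j).F k).μ (fun ω => ¬ |TR.ev (g a j) k ω| ≤ (W j).dl (lev a - 1 / ((j : ℝ) + 1)) k)) ≤
      1 / ((j : ℝ) + 1)) ∧
    ∀ e, |(W j).rt (A e j).1 (B e j).1 k - ul ((W j).rt (A e j).1 (B e j).1)| ≤ 1 / ((j : ℝ) + 1) with hG
  have hpos : ∀ j : ℕ, (0 : ℝ) < 1 / ((j : ℝ) + 1) := fun j => by positivity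
  have hGe : ∀ i j, ∀ᶠ k in UF, G i j k := by
    intro i j
    refine ((W j).lim.eventually (eventually_ge_atTop (j : ℝ))).and (Eventually.and ?_ (Eventually.and ?_ ?_))
    · rw [Filter.eventually_all]
      intro i
      exact (sub_ev (hK i j) j).and (hK' i j)
    · rw [Filter.eventually_all]
      intro a
      have h1 : TR.Ag (lev a) (g a j) 0 := by
        rw [← mk_mem_Id (hlev a), hg]
        exact hf a j
      have h2 := h1.levels (hpos j)
      have h2' : Tendsto (fun k => mass (res ((W j).F k).μ (fun ω => ¬ |TR.ev (g a j) k ω -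
          TR.ev (0 : TR (W j)) k ω| ≤ (W j).dl (lev a - 1 / ((j : ℝ) + 1)) k))) UF (𝓝 0) := h2
      have h3 := h2'.eventually (gt_mem_nhds (hpos j))
      filter_upwards [h3] with k hk
      refine le_trans (le_of_eq ?_) hk.le
      congr 2
      funext ω
      rw [TR.ev_zero, sub_zero]
    · rw [Filter.eventually_all]
      intro e
      have h3 := (ul_tendsto (UB_rt (A e j) (B e j).1)).sub_const (ul ((W j).rt (A e j).1 (B e j).1))
      rw [sub_self] at h3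
      have h4 := h3.abs
      rw [abs_zero] at h4
      filter_upwards [h4.eventually (gt_mem_nhds (hpos j))] with k hk using hk.le
  obtain ⟨J, hJ, _, hJ2⟩ := diag_in_place (fun _ _ _ => 0) G (fun _ _ => UB_const 0) hGe
  have hJG := hJ2 0
  have h1J : Tendsto (fun k => 1 / ((J k : ℝ) + 1)) UF (𝓝 0) := tendsto_one_div_add_atTop_nhds_zero_nat.comp hJ
  have hn : Tendsto (fun k => ((W (J k)).F k).n) UF atTop := by
    rw [tendsto_atTop]
    intro M
    filter_upwards [hJG, hJ.eventually (eventually_ge_atTop ⌈M⌉₊)] with k a b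
    have h1 : M ≤ (J k : ℝ) := (Nat.le_ceil M).trans (by exact_mod_cast b)
    exact h1.trans a.1
  have hb : ∀ i, Gd W J hn (b i) := by
    intro i
    refine ⟨fun k => K i (J k) k, ⟨?_, ?_⟩, ?_⟩
    · filter_upwards [hJG] with k hk using (hk.2.1 i).1.1
    · refine tendsto_of_tendsto_of_tendsto_of_le_of_le' tendsto_const_nhds h1J ?_ ?_
      · filter_upwards [hJG] with k hk
        exact div_nonneg (Real.logb_nonneg (by norm_num) (by linarith [(hk.2.1 i).1.1])) ((W (J k)).F k).pos.le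
      · filter_upwards [hJG] with k hk using (hk.2.1 i).1.2
    · filter_upwards [hJG] with k hk using (hk.2.1 i).2
  refine ⟨⟨J, hn, hJ, hb⟩, fun a => ?_, fun e => ?_⟩
  · obtain ⟨u, hu⟩ := hg' a ⟨J, hn, hJ, hb⟩
    rw [← hu]
    apply mem_of_mass (hlev a)
    filter_upwards [hJG] with k hk using hk.2.2.1 a
  · obtain ⟨u, hu⟩ := hA' e ⟨J, hn, hJ, hb⟩
    obtain ⟨u', hu'⟩ := hB' e ⟨J, hn, hJ, hb⟩
    rw [hu, hu']
    have e0 : h (cl (S := (⟨J, hn, hJ, hb⟩ : DJ W b).sp) ⟨_, u⟩) (cl ⟨_, u'⟩) = _ :=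
      h_cl (S := (⟨J, hn, hJ, hb⟩ : DJ W b).sp) ⟨_, u⟩ ⟨_, u'⟩
    rw [e0]
    have e1 : Tendsto (fun k => (W (J k)).rt (A e (J k)).1 (B e (J k)).1 k -
        ul ((W (J k)).rt (A e (J k)).1 (B e (J k)).1)) UF (𝓝 0) := by
      rw [tendsto_zero_iff_abs_tendsto_zero]
      refine squeeze_zero' (Eventually.of_forall fun k => abs_nonneg _) ?_ h1J
      filter_upwards [hJG] with k hk using hk.2.2.2 e
    have e2 := ul_tendsto (UB_rt (S := (⟨J, hn, hJ, hb⟩ : DJ W b).sp) ⟨_, u⟩ (⟨_, u'⟩ : Inf _).1)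
    have e4 := e2.sub e1
    rw [sub_zero] at e4
    refine e4.congr fun k => ?_
    show _ = h (x e (J k)) (y e (J k))
    rw [← hA, ← hB, h_cl]
    show (W (J k)).rt (A e (J k)).1 (B e (J k)).1 k - _ = _
    ring

end

end Pool.Agent.Helper57.TA
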