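import Pool.Agent.Helper57.TA.Clo
import Pool.Agent.Helper57.TA.Dsc

/-! THEOREM A, step (3): the first vertical jets are polynomials in the base point and the vertical coordinates. -/

set_option autoImplicit false

namespace Pool.Agent.Helper57.TA

open Finset Filter Topology Pool.Agent.Helper69.RK Pool.Agent.Helper31.EC Pool.Agent.Helper31.EC.Sp
open Pool.Agent.Helper31.EC.QS

noncomputable section

variable {S : Sp} {β κ : Type} [Fintype β] [Fintype κ]

theorem Tran.qi_le {D : Dat S β κ} {ν : Type} [Fintype ν] {bf : ν → QS S} {t : QS S} {r : ℝ} (T : Tran D bf t r) :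
    D.qi ≤ vd bf 1 ⊔ dg t 1 := by
  unfold Dat.qi
  rw [vd_le]
  intro a
  obtain ⟨f, x, hf, hx, hq⟩ := T.lin a
  rw [hq]
  exact (Kn S 1 le_rfl _).add_mem (hf.trans le_sup_left)
    ((Kn S 1 le_rfl _).mul_mem (show dg t 1 ≤ _ from le_sup_right) (hx.trans le_sup_left))

/-- STEP (3) -/
theorem theta (hL : ST_LINE) {D : Dat S β κ} {r : ℝ} (hr0 : 0 < r) (hr1 : r ≤ 1) {ι : Type}
    {ν : ι → Type} [∀ i, Fintype (ν i)] (bf : ∀ i, ν i → QS S) (t : QS S)
    (hT : ∀ i, Nonempty (Tran D (bf i) t r)) (hq : Rl D.q ⊥)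
    (hP : PolQ D.q (fun i => vd (bf i) 1) t r) (l : κ) (A : MvPolynomial κ (QS S)) (hA : A ∈ PK D.qi)
    (hAc : D.c l - MvPolynomial.eval D.R A ∈ Id S r) :
    ∃ Θ : MvPolynomial (β ⊕ κ) (QS S), Θ ∈ PK ⊥ ∧ D.c l - MvPolynomial.eval D.X Θ ∈ Id S r := by
  have h1 : ∀ m, ∃ θ : MvPolynomial β (QS S), θ ∈ PK ⊥ ∧ A.coeff m - MvPolynomial.eval D.q θ ∈ Id S r := by
    intro m
    obtain ⟨W, p, Θ, hΘ, hΘc⟩ := hP (A.coeff m) (hA m) (by
      intro i
      obtain ⟨T⟩ := hT i
      exact hL S T.W T.P T.P' (ν i) κ _ _ (bf i) t D.R D.qi A (D.c l) r T.G (MvPolynomial.pderiv (Sum.inl l) T.p)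
        hr0 hr1 T.com T.qi_le hA hAc T.Gk T.hG (pderiv_PK T.pk _) (T.hT l) T.Rreal T.treal m)
    obtain ⟨Q, hQ1, _, hQ3⟩ := descend_coeff p (A.coeff m) one_pos le_rfl (Rl_iff_Rt.mp hq) hr0.le hr1 le_rfl
      (P := Θ) (PKr_of_PK le_rfl (PK_mono bot_le hΘ)) hΘc
    exact ⟨Q, hQ1, hQ3⟩
  choose θ hθ hθc using h1
  refine ⟨∑ m ∈ A.support, MvPolynomial.rename Sum.inl (θ m) *
    MvPolynomial.rename Sum.inr (MvPolynomial.monomial m 1), ?_, ?_⟩
  · apply (PK _).sum_mem
    intro m _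
    apply (PK _).mul_mem (rename_PK (hθ m) _) (rename_PK _ _)
    classical
    intro n
    rw [MvPolynomial.coeff_monomial]
    split_ifs
    · exact (Kn S 1 le_rfl _).one_mem
    · exact (Kn S 1 le_rfl _).zero_mem
  · have e1 : MvPolynomial.eval D.X (∑ m ∈ A.support, MvPolynomial.rename Sum.inl (θ m) *
        MvPolynomial.rename Sum.inr (MvPolynomial.monomial m 1)) =
        ∑ m ∈ A.support, MvPolynomial.eval D.q (θ m) * MvPolynomial.eval D.R (MvPolynomial.monomial m 1) := by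
      rw [map_sum]
      apply Finset.sum_congr rfl
      intro m _
      rw [map_mul, MvPolynomial.eval_rename, MvPolynomial.eval_rename]
      rfl
    have e2 : MvPolynomial.eval D.R A =
        ∑ m ∈ A.support, A.coeff m * MvPolynomial.eval D.R (MvPolynomial.monomial m 1) := by
      conv_lhs => rw [A.as_sum]
      rw [map_sum]
      apply Finset.sum_congr rfl
      intro m _
      rw [MvPolynomial.eval_monomial, MvPolynomial.eval_monomial, one_mul]
    have e3 : MvPolynomial.eval D.R A - MvPolynomial.eval D.X (∑ m ∈ A.support, MvPolynomial.rename Sum.inl (θ m) *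
        MvPolynomial.rename Sum.inr (MvPolynomial.monomial m 1)) ∈ Id S r := by
      rw [e1, e2, ← Finset.sum_sub_distrib]
      apply Ideal.sum_mem
      intro m _
      rw [← sub_mul]
      exact Ideal.mul_mem_right _ _ (hθc m)
    have e4 := Ideal.add_mem _ hAc e3
    rwa [sub_add_sub_cancel] at e4

end

end Pool.Agent.Helper57.TA
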