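import Pool.Agent.Helper57.TA.Pot
import Pool.Agent.Helper57.TA.Tht

/-! THEOREM A: flatness. -/

set_option autoImplicit false

namespace Pool.Agent.Helper57.TA

open Finset Filter Topology Pool.Agent.Helper69.RK Pool.Agent.Helper31.EC Pool.Agent.Helper31.EC.Sp
open Pool.Agent.Helper31.EC.QS

noncomputable section

theorem flat_core {W : Sp} {β κ : Type} [Fintype κ] (A : W.L) (R0 : κ → QS W) (hR0 : Rl R0 A)
    (y0 y1 : β → QS W) (g : κ → QS W) (hy0 : ∀ a, dg (y0 a) 1 ≤ A) (hy1 : ∀ a, dg (y1 a) 1 ≤ A)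
    (hg : ∀ k, dg (g k) 1 ≤ A) (H0 H1 : MvPolynomial (β ⊕ κ) (QS W)) (hH0 : H0 ∈ PK A) (hH1 : H1 ∈ PK A)
    (p : MvPolynomial κ (QS W)) (hp : p ∈ PK A) {r : ℝ} (hr1 : r ≤ 1)
    (h : ∀ l, MvPolynomial.eval (Sum.elim y1 fun k => g k + R0 k) (MvPolynomial.pderiv (Sum.inr l) H1) -
      MvPolynomial.eval (Sum.elim y0 R0) (MvPolynomial.pderiv (Sum.inr l) H0) -
      MvPolynomial.eval R0 (MvPolynomial.pderiv l p) ∈ Id W r) (y : κ → QS W) :
    (MvPolynomial.eval R0 p - MvPolynomial.eval (Sum.elim y1 fun k => g k + R0 k) H1 +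
      MvPolynomial.eval (Sum.elim y0 R0) H0) -
    (MvPolynomial.eval y p - MvPolynomial.eval (Sum.elim y1 fun k => g k + y k) H1 +
      MvPolynomial.eval (Sum.elim y0 y) H0) ∈ Id W r := by
  classical
  set σ1 : β ⊕ κ → MvPolynomial κ (QS W) :=
    Sum.elim (fun a => MvPolynomial.C (y1 a)) (fun k => MvPolynomial.C (g k) + MvPolynomial.X k) with hσ1
  set σ0 : β ⊕ κ → MvPolynomial κ (QS W) := Sum.elim (fun a => MvPolynomial.C (y0 a)) MvPolynomial.X with hσ0
  have hd1 : ∀ l a, MvPolynomial.pderiv l (σ1 a) = if a = Sum.inr l then 1 else 0 := by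
    intro l a
    rcases a with a | k
    · rw [if_neg (by simp)]
      exact MvPolynomial.pderiv_C
    · show MvPolynomial.pderiv l (MvPolynomial.C (g k) + MvPolynomial.X k) = _
      rw [map_add, MvPolynomial.pderiv_C, zero_add, MvPolynomial.pderiv_X]
      by_cases hk : k = l
      · subst hk
        rw [Pi.single_eq_same, if_pos rfl]
      · rw [Pi.single_eq_of_ne hk, if_neg (by simpa using hk)]
  have hd0 : ∀ l a, MvPolynomial.pderiv l (σ0 a) = if a = Sum.inr l then 1 else 0 := by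
    intro l a
    rcases a with a | k
    · rw [if_neg (by simp)]
      exact MvPolynomial.pderiv_C
    · show MvPolynomial.pderiv l (MvPolynomial.X k) = _
      rw [MvPolynomial.pderiv_X]
      by_cases hk : k = l
      · subst hk
        rw [Pi.single_eq_same, if_pos rfl]
      · rw [Pi.single_eq_of_ne hk, if_neg (by simpa using hk)]
  have he1 : ∀ (y : κ → QS W) (H : MvPolynomial (β ⊕ κ) (QS W)), MvPolynomial.eval y (MvPolynomial.aeval σ1 H) =
      MvPolynomial.eval (Sum.elim y1 fun k => g k + y k) H := by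
    intro y H
    rw [eval_sbs]
    congr 1
    congr 1
    funext a
    rcases a with a | k
    · exact MvPolynomial.eval_C _
    · show MvPolynomial.eval y (MvPolynomial.C (g k) + MvPolynomial.X k) = g k + y k
      rw [map_add, MvPolynomial.eval_C, MvPolynomial.eval_X]
  have he0 : ∀ (y : κ → QS W) (H : MvPolynomial (β ⊕ κ) (QS W)), MvPolynomial.eval y (MvPolynomial.aeval σ0 H) =
      MvPolynomial.eval (Sum.elim y0 y) H := by
    intro y H
    rw [eval_sbs]
    congr 1
    congr 1
    funext a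
    rcases a with a | k
    · exact MvPolynomial.eval_C _
    · exact MvPolynomial.eval_X _
  set P : MvPolynomial κ (QS W) := p - MvPolynomial.aeval σ1 H1 + MvPolynomial.aeval σ0 H0 with hP
  have hPk : P ∈ PK A := by
    apply (PK A).add_mem ((PK A).sub_mem hp (sbs_PK hH1 _)) (sbs_PK hH0 _)
    · rintro (a | k)
      · exact C_mem (hy1 a)
      · exact (PK A).add_mem (C_mem (hg k)) (X_mem _ _)
    · rintro (a | k)
      · exact C_mem (hy0 a)
      · exact X_mem _ _
  have hPe : ∀ y : κ → QS W, MvPolynomial.eval y P = MvPolynomial.eval y p -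
      MvPolynomial.eval (Sum.elim y1 fun k => g k + y k) H1 + MvPolynomial.eval (Sum.elim y0 y) H0 := by
    intro y
    rw [hP, map_add, map_sub, he1, he0]
  have hPd : ∀ l, MvPolynomial.eval R0 (MvPolynomial.pderiv l P) ∈ Id W r := by
    intro l
    have h1 := (Id W r).neg_mem (h l)
    have e1 : MvPolynomial.eval R0 (MvPolynomial.pderiv l P) =
        -(MvPolynomial.eval (Sum.elim y1 fun k => g k + R0 k) (MvPolynomial.pderiv (Sum.inr l) H1) -
      MvPolynomial.eval (Sum.elim y0 R0) (MvPolynomial.pderiv (Sum.inr l) H0) -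
      MvPolynomial.eval R0 (MvPolynomial.pderiv l p)) := by
      rw [hP, map_add, map_sub, pderiv_sbs σ1 (Sum.inr l) l (hd1 l), pderiv_sbs σ0 (Sum.inr l) l (hd0 l), map_add,
        map_sub, he1, he0]
      ring
    rw [e1]
    exact h1
  have h2 := const_of_pderiv one_pos le_rfl (Rl_iff_Rt.mp hR0) hr1 hPk hPd y
  rwa [hPe, hPe] at h2

variable {S : Sp} {β κ : Type} [Fintype β] [Fintype κ]

/-- flatness along transports -/
theorem Tran.flat {D : Dat S β κ} {ν : Type} [Fintype ν] {bf : ν → QS S} {t : QS S} {r : ℝ} (hr1 : r ≤ 1)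
    (T : Tran D bf t r) (H : MvPolynomial (β ⊕ κ) (QS S)) (hH : H ∈ PK ⊥)
    (hc : ∀ l, D.c l - MvPolynomial.eval D.X (MvPolynomial.pderiv (Sum.inr l) H) ∈ Id S r) :
    ∃ g : MvPolynomial (Fin 2) (QS T.W), g ∈ PK (T.P.map (vd bf 1)) ∧
      T.P'.qs (D.z - MvPolynomial.eval D.X H) - T.P.qs (D.z - MvPolynomial.eval D.X H) -
        MvPolynomial.eval ![T.P.qs t, T.P'.qs t] g ∈ Id T.W r := by
  classical
  set b : T.W.L := T.P.map (vd bf 1) with hb
  have hb' : T.P'.map (vd bf 1) = b := by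
    rw [hb, ← T.P.qs_vd, ← T.P'.qs_vd]
    congr 1
    funext a
    exact (T.com a).symm
  choose f x hf hx hq using T.lin
  set A : T.W.L := b ⊔ (dg (T.P.qs t) 1 ⊔ dg (T.P'.qs t) 1) with hA
  have hPf : ∀ a, dg (T.P.qs (f a)) 1 ≤ b := fun a => by
    rw [T.P.qs_dg]
    exact Pj.map_mono _ (hf a)
  have hPx : ∀ a, dg (T.P.qs (x a)) 1 ≤ b := fun a => by
    rw [T.P.qs_dg]
    exact Pj.map_mono _ (hx a)
  have hPf' : ∀ a, dg (T.P'.qs (f a)) 1 ≤ b := fun a => by
    rw [T.P'.qs_dg, ← hb']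
    exact Pj.map_mono _ (hf a)
  have hPx' : ∀ a, dg (T.P'.qs (x a)) 1 ≤ b := fun a => by
    rw [T.P'.qs_dg, ← hb']
    exact Pj.map_mono _ (hx a)
  have hbA : b ≤ A := le_sup_left
  have htA : dg (T.P.qs t) 1 ≤ A := le_sup_left.trans le_sup_right
  have htA' : dg (T.P'.qs t) 1 ≤ A := le_sup_right.trans le_sup_right
  have hH0 : ∀ (p : Pj T.W S) (B : T.W.L), MvPolynomial.map p.qs H ∈ PK B := by
    intro p B
    have h3 := map_PK p hH
    rw [Pj.map_bot] at h3
    exact PK_mono bot_le h3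
  set tt : Fin 2 → QS T.W := ![T.P.qs t, T.P'.qs t] with htt
  have htt1 : ∀ j, dg (tt j) 1 ≤ A := by
    intro j
    fin_cases j
    · exact htA
    · exact htA'
  set R0 : κ → QS T.W := fun k => T.P.qs (D.R k) with hR0
  set g : κ → QS T.W := fun k => MvPolynomial.eval tt (T.G k) with hg
  set σ : κ ⊕ Fin 2 → MvPolynomial κ (QS T.W) := Sum.elim MvPolynomial.X (fun j => MvPolynomial.C (tt j)) with hσ
  set pt : MvPolynomial κ (QS T.W) := MvPolynomial.aeval σ T.p with hpt
  have hd : ∀ l a, MvPolynomial.pderiv l (σ a) = if a = Sum.inl l then 1 else 0 := by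
    intro l a
    rcases a with k | a
    · show MvPolynomial.pderiv l (MvPolynomial.X k) = _
      rw [MvPolynomial.pderiv_X]
      by_cases hk : k = l
      · subst hk
        rw [Pi.single_eq_same, if_pos rfl]
      · rw [Pi.single_eq_of_ne hk, if_neg (by simpa using hk)]
    · rw [if_neg (by simp)]
      exact MvPolynomial.pderiv_C
  have hes : ∀ (y : κ → QS T.W) (Q : MvPolynomial (κ ⊕ Fin 2) (QS T.W)),
      MvPolynomial.eval y (MvPolynomial.aeval σ Q) = MvPolynomial.eval (Sum.elim y tt) Q := by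
    intro y Q
    rw [eval_sbs]
    congr 1
    congr 1
    funext a
    rcases a with a | k
    · exact MvPolynomial.eval_X _
    · exact MvPolynomial.eval_C _
  have hXs : ∀ p : Pj T.W S, (fun a => p.qs (D.X a)) = Sum.elim (fun a => p.qs (D.q a)) (fun k => p.qs (D.R k)) := by
    intro p
    funext a
    rcases a with a | a <;> rfl
  have hmv : ∀ Q : MvPolynomial (β ⊕ κ) (QS T.W), MvPolynomial.eval (fun a => T.P'.qs (D.X a)) Q -
      MvPolynomial.eval (Sum.elim (fun a => T.P'.qs (D.q a)) fun k => g k + R0 k) Q ∈ Id T.W r := by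
    intro Q
    apply eval_sub_mem
    rintro (a | k)
    · show T.P'.qs (D.q a) - T.P'.qs (D.q a) ∈ _
      rw [sub_self]
      exact Ideal.zero_mem _
    · show T.P'.qs (D.R k) - (g k + R0 k) ∈ _
      have h1 := T.hG k
      have e1 : T.P'.qs (D.R k) - (g k + R0 k) = T.P'.qs (D.R k) - T.P.qs (D.R k) -
          MvPolynomial.eval ![T.P.qs t, T.P'.qs t] (T.G k) := by
        rw [hg, hR0]
        ring
      rw [e1]
      exact h1
  have hcore := flat_core A R0 T.Rreal (fun a => T.P.qs (D.q a)) (fun a => T.P'.qs (D.q a)) g (by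
      intro a
      rw [hq a, map_add, map_mul]
      exact (Kn T.W 1 le_rfl A).add_mem ((hPf a).trans hbA) ((Kn T.W 1 le_rfl A).mul_mem htA ((hPx a).trans hbA)))
    (by
      intro a
      rw [hq a, map_add, map_mul]
      exact (Kn T.W 1 le_rfl A).add_mem ((hPf' a).trans hbA) ((Kn T.W 1 le_rfl A).mul_mem htA' ((hPx' a).trans hbA)))
    (by
      intro k
      exact QS.eval_mem (T.Gk k) tt hbA htt1)
    (MvPolynomial.map T.P.qs H) (MvPolynomial.map T.P'.qs H) (hH0 _ _) (hH0 _ _) pt (by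
      apply sbs_PK (PK_mono hbA T.pk)
      rintro (k | j)
      · exact X_mem _ _
      · exact C_mem (htt1 j)) hr1 (by
      intro l
      have h1 := T.hT l
      have h2 := (T.P'.qs_mem_Id hr1).mpr (hc l)
      have h3 := (T.P.qs_mem_Id hr1).mpr (hc l)
      rw [map_sub, qs_eval, ← MvPolynomial.pderiv_map] at h2 h3
      have h4 := hmv (MvPolynomial.pderiv (Sum.inr l) (MvPolynomial.map T.P'.qs H))
      rw [hpt, pderiv_sbs σ (Sum.inl l) l (hd l), hes]
      rw [hXs T.P] at h3
      have h5 := Ideal.add_mem _ (Ideal.sub_mem _ (Ideal.sub_mem _ h1 h2) h4) h3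
      have e1 : (T.P'.qs (D.c l) - T.P.qs (D.c l) -
          MvPolynomial.eval (Sum.elim (fun k => T.P.qs (D.R k)) ![T.P.qs t, T.P'.qs t])
            (MvPolynomial.pderiv (Sum.inl l) T.p) -
          (T.P'.qs (D.c l) - MvPolynomial.eval (fun a => T.P'.qs (D.X a))
            (MvPolynomial.pderiv (Sum.inr l) (MvPolynomial.map T.P'.qs H))) -
          (MvPolynomial.eval (fun a => T.P'.qs (D.X a)) (MvPolynomial.pderiv (Sum.inr l) (MvPolynomial.map T.P'.qs H)) -
            MvPolynomial.eval (Sum.elim (fun a => T.P'.qs (D.q a)) fun k => g k + R0 k)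
              (MvPolynomial.pderiv (Sum.inr l) (MvPolynomial.map T.P'.qs H))) +
          (T.P.qs (D.c l) - MvPolynomial.eval (Sum.elim (fun a => T.P.qs (D.q a)) fun k => T.P.qs (D.R k))
            (MvPolynomial.pderiv (Sum.inr l) (MvPolynomial.map T.P.qs H)))) =
          MvPolynomial.eval (Sum.elim (fun a => T.P'.qs (D.q a)) fun k => g k + R0 k)
              (MvPolynomial.pderiv (Sum.inr l) (MvPolynomial.map T.P'.qs H)) -
            MvPolynomial.eval (Sum.elim (fun a => T.P.qs (D.q a)) R0)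
              (MvPolynomial.pderiv (Sum.inr l) (MvPolynomial.map T.P.qs H)) -
            MvPolynomial.eval (Sum.elim R0 tt) (MvPolynomial.pderiv (Sum.inl l) T.p) := by
        rw [hR0, htt]
        ring
      rw [e1] at h5
      exact h5) (fun _ => 0)
  -- the polynomial `g`
  set σ1 : β ⊕ κ → MvPolynomial (Fin 2) (QS T.W) :=
    Sum.elim (fun a => MvPolynomial.C (T.P'.qs (f a)) + MvPolynomial.X 1 * MvPolynomial.C (T.P'.qs (x a))) T.G with hσ1
  set σ0 : β ⊕ κ → MvPolynomial (Fin 2) (QS T.W) :=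
    Sum.elim (fun a => MvPolynomial.C (T.P.qs (f a)) + MvPolynomial.X 0 * MvPolynomial.C (T.P.qs (x a)))
      (fun _ => 0) with hσ0
  set σp : κ ⊕ Fin 2 → MvPolynomial (Fin 2) (QS T.W) := Sum.elim (fun _ => 0) MvPolynomial.X with hσp
  refine ⟨MvPolynomial.aeval σp T.p - MvPolynomial.aeval σ1 (MvPolynomial.map T.P'.qs H) +
    MvPolynomial.aeval σ0 (MvPolynomial.map T.P.qs H), ?_, ?_⟩
  · apply (PK b).add_mem ((PK b).sub_mem (sbs_PK T.pk _) (sbs_PK (hH0 _ _) _)) (sbs_PK (hH0 _ _) _)
    · rintro (k | j)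
      · exact (PK b).zero_mem
      · exact X_mem _ _
    · rintro (a | k)
      · exact (PK b).add_mem (C_mem (hPf' a)) ((PK b).mul_mem (X_mem _ _) (C_mem (hPx' a)))
      · exact T.Gk k
    · rintro (a | k)
      · exact (PK b).add_mem (C_mem (hPf a)) ((PK b).mul_mem (X_mem _ _) (C_mem (hPx a)))
      · exact (PK b).zero_mem
  · have e1 : MvPolynomial.eval tt (MvPolynomial.aeval σp T.p - MvPolynomial.aeval σ1 (MvPolynomial.map T.P'.qs H) +
        MvPolynomial.aeval σ0 (MvPolynomial.map T.P.qs H)) = MvPolynomial.eval (fun _ => 0) pt -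
        MvPolynomial.eval (Sum.elim (fun a => T.P'.qs (D.q a)) fun k => g k + 0) (MvPolynomial.map T.P'.qs H) +
        MvPolynomial.eval (Sum.elim (fun a => T.P.qs (D.q a)) fun _ => 0) (MvPolynomial.map T.P.qs H) := by
      rw [map_add, map_sub, hpt, hes, eval_sbs, eval_sbs, eval_sbs]
      congr 1
      · congr 1
        · congr 1
          congr 1
          funext a
          rcases a with k | j
          · exact map_zero _
          · exact MvPolynomial.eval_X _
        · congr 1
          congr 1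
          funext a
          rcases a with a | k
          · show MvPolynomial.eval tt (MvPolynomial.C (T.P'.qs (f a)) + MvPolynomial.X 1 *
              MvPolynomial.C (T.P'.qs (x a))) = T.P'.qs (D.q a)
            rw [map_add, map_mul, MvPolynomial.eval_C, MvPolynomial.eval_C, MvPolynomial.eval_X, hq a, map_add,
              map_mul]
            rfl
          · show MvPolynomial.eval tt (T.G k) = g k + 0
            rw [add_zero]
      · congr 1
        congr 1
        funext a
        rcases a with a | k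
        · show MvPolynomial.eval tt (MvPolynomial.C (T.P.qs (f a)) + MvPolynomial.X 0 *
            MvPolynomial.C (T.P.qs (x a))) = T.P.qs (D.q a)
          rw [map_add, map_mul, MvPolynomial.eval_C, MvPolynomial.eval_C, MvPolynomial.eval_X, hq a, map_add,
            map_mul]
          rfl
        · exact map_zero _
    rw [e1]
    have h1 := T.hp
    have h2 := hmv (MvPolynomial.map T.P'.qs H)
    have e2 : T.P'.qs (D.z - MvPolynomial.eval D.X H) - T.P.qs (D.z - MvPolynomial.eval D.X H) -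
        (MvPolynomial.eval (fun _ => 0) pt -
        MvPolynomial.eval (Sum.elim (fun a => T.P'.qs (D.q a)) fun k => g k + 0) (MvPolynomial.map T.P'.qs H) +
        MvPolynomial.eval (Sum.elim (fun a => T.P.qs (D.q a)) fun _ => 0) (MvPolynomial.map T.P.qs H)) =
        (T.P'.qs D.z - T.P.qs D.z -
          MvPolynomial.eval (Sum.elim (fun k => T.P.qs (D.R k)) ![T.P.qs t, T.P'.qs t]) T.p) -
        (MvPolynomial.eval (fun a => T.P'.qs (D.X a)) (MvPolynomial.map T.P'.qs H) -
          MvPolynomial.eval (Sum.elim (fun a => T.P'.qs (D.q a)) fun k => g k + R0 k) (MvPolynomial.map T.P'.qs H)) +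
        ((MvPolynomial.eval R0 pt - MvPolynomial.eval (Sum.elim (fun a => T.P'.qs (D.q a)) fun k => g k + R0 k)
            (MvPolynomial.map T.P'.qs H) +
          MvPolynomial.eval (Sum.elim (fun a => T.P.qs (D.q a)) R0) (MvPolynomial.map T.P.qs H)) -
        (MvPolynomial.eval (fun _ => 0) pt -
          MvPolynomial.eval (Sum.elim (fun a => T.P'.qs (D.q a)) fun k => g k + 0) (MvPolynomial.map T.P'.qs H) +
          MvPolynomial.eval (Sum.elim (fun a => T.P.qs (D.q a)) fun _ => 0) (MvPolynomial.map T.P.qs H))) := by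
      have e3 : MvPolynomial.eval R0 pt = MvPolynomial.eval (Sum.elim (fun k => T.P.qs (D.R k))
          ![T.P.qs t, T.P'.qs t]) T.p := hes R0 T.p
      have e4 : T.P.qs (MvPolynomial.eval D.X H) =
          MvPolynomial.eval (Sum.elim (fun a => T.P.qs (D.q a)) R0) (MvPolynomial.map T.P.qs H) := by
        rw [qs_eval, hXs T.P]
      rw [e3, map_sub, map_sub, e4, qs_eval T.P']
      ring
    rw [e2]
    exact Ideal.add_mem _ (Ideal.sub_mem _ h1 h2) hcore

/-- flatness along walks -/
theorem Walk.flat {D : Dat S β κ} {s : ℝ} (hws : D.w * s ≤ 1) (k : Walk D s) (hT : k.T)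
    (hR : Rl D.R D.qi) (H : MvPolynomial (β ⊕ κ) (QS S)) (hH : H ∈ PK ⊥)
    (hc : ∀ l, D.c l - MvPolynomial.eval D.X (MvPolynomial.pderiv (Sum.inr l) H) ∈ Id S (D.w * s)) :
    ∃ φ : QS k.W, dg φ 1 ≤ k.om ⊔ k.P0.map D.qi ∧
      k.P1.qs (D.z - MvPolynomial.eval D.X H) - k.P0.qs (D.z - MvPolynomial.eval D.X H) - φ ∈ Id k.W (D.w * s) := by
  classical
  set A : k.W.L := k.om ⊔ k.P0.map D.qi with hA
  have hraw : ∀ a, dg (k.raw a) 1 ≤ A := by
    intro a
    apply (Kn k.W 1 le_rfl _).mul_mem _ (k.kn a)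
    show dg _ _ ≤ _
    rw [dg_sc]
    exact bot_le
  have hH0 : ∀ (p : Pj k.W S) (B : k.W.L), MvPolynomial.map p.qs H ∈ PK B := by
    intro p B
    have h3 := map_PK p hH
    rw [Pj.map_bot] at h3
    exact PK_mono bot_le h3
  set R0 : κ → QS k.W := fun l => k.P0.qs (D.R l) with hR0
  set g : κ → QS k.W := fun l => MvPolynomial.eval (fun a => k.raw (Sum.inl a)) (MvPolynomial.map k.P0.qs (D.Pj l)) +
    k.raw (Sum.inr l) with hg
  have hgR : ∀ l, k.P1.qs (D.R l) - (g l + R0 l) ∈ Id k.W (D.w * s) := by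
    intro l
    have e1 : g l + R0 l = k.P0.qs (D.R l) + MvPolynomial.eval (fun a => sc k.W (D.wt (Sum.inl a) * s) *
        k.ξ (Sum.inl a)) (MvPolynomial.map k.P0.qs (D.Pj l)) + sc k.W (D.wt (Sum.inr l) * s) * k.ξ (Sum.inr l) := by
      show _ + _ + _ = _ + _ + _
      rw [add_comm (_ + _) (R0 l), ← add_assoc]
      rfl
    rw [e1]
    exact k.dR l
  have hq0 : ∀ a, dg (k.P0.qs (D.q a)) 1 ≤ A := by
    intro a
    rw [k.P0.qs_dg]
    exact (Pj.map_mono _ (dg_le_vd D.q 1 a)).trans le_sup_right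
  have hX1 : ∀ Q : MvPolynomial (β ⊕ κ) (QS k.W), MvPolynomial.eval (fun a => k.P1.qs (D.X a)) Q -
      MvPolynomial.eval (Sum.elim (fun a => k.P1.qs (D.q a)) (fun l => g l + R0 l)) Q ∈ Id k.W (D.w * s) := by
    intro Q
    apply eval_sub_mem
    rintro (a | a)
    · show k.P1.qs (D.q a) - k.P1.qs (D.q a) ∈ _
      rw [sub_self]
      exact Ideal.zero_mem _
    · exact hgR a
  have hX0 : (fun a => k.P0.qs (D.X a)) = Sum.elim (fun a => k.P0.qs (D.q a)) R0 := by
    funext a
    rcases a with a | a <;> rfl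
  have hcore := flat_core A R0 (k.fullR hR) (fun a => k.P0.qs (D.q a)) (fun a => k.P1.qs (D.q a)) g hq0
    (by
      intro a
      rw [k.dq a]
      exact (Kn k.W 1 le_rfl A).add_mem (hq0 a) (hraw (Sum.inl a)))
    (by
      intro l
      exact (Kn k.W 1 le_rfl A).add_mem (QS.eval_mem (map_PK k.P0 (D.Pjk l)) _ le_sup_right fun a => hraw (Sum.inl a))
        (hraw (Sum.inr l)))
    (MvPolynomial.map k.P0.qs H) (MvPolynomial.map k.P1.qs H) (hH0 _ _) (hH0 _ _) k.p k.pk hws (by
      intro l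
      have h1 := hT l
      have h2 := (k.P1.qs_mem_Id hws).mpr (hc l)
      have h3 := (k.P0.qs_mem_Id hws).mpr (hc l)
      rw [map_sub, qs_eval, ← MvPolynomial.pderiv_map] at h2 h3
      rw [hX0] at h3
      have h4 := hX1 (MvPolynomial.pderiv (Sum.inr l) (MvPolynomial.map k.P1.qs H))
      have h5 := Ideal.add_mem _ (Ideal.sub_mem _ (Ideal.sub_mem _ h1 h2) h4) h3
      have e1 : (k.P1.qs (D.c l) - k.P0.qs (D.c l) -
          MvPolynomial.eval (fun i => k.P0.qs (D.R i)) (MvPolynomial.pderiv l k.p) -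
          (k.P1.qs (D.c l) - MvPolynomial.eval (fun a => k.P1.qs (D.X a))
            (MvPolynomial.pderiv (Sum.inr l) (MvPolynomial.map k.P1.qs H))) -
          (MvPolynomial.eval (fun a => k.P1.qs (D.X a)) (MvPolynomial.pderiv (Sum.inr l) (MvPolynomial.map k.P1.qs H)) -
            MvPolynomial.eval (Sum.elim (fun a => k.P1.qs (D.q a)) (fun l => g l + R0 l))
            (MvPolynomial.pderiv (Sum.inr l) (MvPolynomial.map k.P1.qs H))) +
          (k.P0.qs (D.c l) - MvPolynomial.eval (Sum.elim (fun a => k.P0.qs (D.q a)) R0)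
            (MvPolynomial.pderiv (Sum.inr l) (MvPolynomial.map k.P0.qs H)))) =
          MvPolynomial.eval (Sum.elim (fun a => k.P1.qs (D.q a)) fun l => g l + R0 l)
              (MvPolynomial.pderiv (Sum.inr l) (MvPolynomial.map k.P1.qs H)) -
            MvPolynomial.eval (Sum.elim (fun a => k.P0.qs (D.q a)) R0)
              (MvPolynomial.pderiv (Sum.inr l) (MvPolynomial.map k.P0.qs H)) -
            MvPolynomial.eval R0 (MvPolynomial.pderiv l k.p) := by
        rw [hR0]
        ring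
      rw [e1] at h5
      exact h5) (fun _ => 0)
  refine ⟨MvPolynomial.eval (fun _ => 0) k.p -
    MvPolynomial.eval (Sum.elim (fun a => k.P1.qs (D.q a)) fun l => g l + 0) (MvPolynomial.map k.P1.qs H) +
    MvPolynomial.eval (Sum.elim (fun a => k.P0.qs (D.q a)) fun _ => 0) (MvPolynomial.map k.P0.qs H), ?_, ?_⟩
  · apply (Kn k.W 1 le_rfl A).add_mem ((Kn k.W 1 le_rfl A).sub_mem _ _) _
    · exact QS.eval_mem k.pk _ le_rfl fun a => (Kn k.W 1 le_rfl A).zero_mem
    · apply QS.eval_mem (hH0 _ A) _ le_rfl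
      rintro (a | l)
      · show dg (k.P1.qs (D.q a)) 1 ≤ A
        rw [k.dq a]
        exact (Kn k.W 1 le_rfl A).add_mem (hq0 a) (hraw (Sum.inl a))
      · show dg (g l + 0) 1 ≤ A
        rw [add_zero]
        exact (Kn k.W 1 le_rfl A).add_mem (QS.eval_mem (map_PK k.P0 (D.Pjk l)) _ le_sup_right
          fun a => hraw (Sum.inl a)) (hraw (Sum.inr l))
    · apply QS.eval_mem (hH0 _ A) _ le_rfl
      rintro (a | l)
      · exact hq0 a
      · exact (Kn k.W 1 le_rfl A).zero_mem
  · have h1 := k.hp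
    have h2 := hX1 (MvPolynomial.map k.P1.qs H)
    have e2 : k.P1.qs (D.z - MvPolynomial.eval D.X H) - k.P0.qs (D.z - MvPolynomial.eval D.X H) -
        (MvPolynomial.eval (fun _ => 0) k.p -
        MvPolynomial.eval (Sum.elim (fun a => k.P1.qs (D.q a)) fun l => g l + 0) (MvPolynomial.map k.P1.qs H) +
        MvPolynomial.eval (Sum.elim (fun a => k.P0.qs (D.q a)) fun _ => 0) (MvPolynomial.map k.P0.qs H)) =
        (k.P1.qs D.z - k.P0.qs D.z - MvPolynomial.eval R0 k.p) -
        (MvPolynomial.eval (fun a => k.P1.qs (D.X a)) (MvPolynomial.map k.P1.qs H) -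
          MvPolynomial.eval (Sum.elim (fun a => k.P1.qs (D.q a)) (fun l => g l + R0 l))
            (MvPolynomial.map k.P1.qs H)) +
        ((MvPolynomial.eval R0 k.p - MvPolynomial.eval (Sum.elim (fun a => k.P1.qs (D.q a)) fun l => g l + R0 l)
            (MvPolynomial.map k.P1.qs H) +
          MvPolynomial.eval (Sum.elim (fun a => k.P0.qs (D.q a)) R0) (MvPolynomial.map k.P0.qs H)) -
        (MvPolynomial.eval (fun _ => 0) k.p -
          MvPolynomial.eval (Sum.elim (fun a => k.P1.qs (D.q a)) fun l => g l + 0) (MvPolynomial.map k.P1.qs H) +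
          MvPolynomial.eval (Sum.elim (fun a => k.P0.qs (D.q a)) fun _ => 0) (MvPolynomial.map k.P0.qs H))) := by
      rw [map_sub, map_sub, qs_eval k.P1, qs_eval k.P0, hX0]
      ring
    rw [e2]
    exact Ideal.add_mem _ (Ideal.sub_mem _ h1 h2) hcore

end

end Pool.Agent.Helper57.TA
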