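import Pool.Agent.Helper57.TA.Alg
import Pool.Agent.Helper57.TA.Def

/-! THEOREM A: the potential. -/

set_option autoImplicit false

namespace Pool.Agent.Helper57.TA

open Finset Filter Topology Pool.Agent.Helper69.RK Pool.Agent.Helper31.EC Pool.Agent.Helper31.EC.Sp
open Pool.Agent.Helper31.EC.QS

noncomputable section

section pot

variable {A : Type} [CommRing A] {β κ : Type} [Fintype κ]

theorem coeff_intg (iv : ℕ → A) (P : MvPolynomial (β ⊕ κ) A) (m : β ⊕ κ →₀ ℕ) :
    (intg iv P).coeff m = P.coeff m * iv (vdeg m) := by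
  classical
  unfold intg
  rw [MvPolynomial.coeff_sum]
  simp only [MvPolynomial.coeff_monomial]
  rw [Finset.sum_ite_eq' P.support m]
  split_ifs with hm
  · rfl
  · rw [MvPolynomial.notMem_support_iff.mp hm, zero_mul]

open Classical in
theorem coeff_pot (iv : ℕ → A) (Θ : κ → MvPolynomial (β ⊕ κ) A) (m : β ⊕ κ →₀ ℕ) :
    (pot iv Θ).coeff m = ∑ k, if Sum.inr k ∈ m.support then
      (Θ k).coeff (m - Finsupp.single (Sum.inr k) 1) * iv (vdeg (m - Finsupp.single (Sum.inr k) 1)) else 0 := by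
  unfold pot
  rw [MvPolynomial.coeff_sum]
  apply Finset.sum_congr rfl
  intro k _
  rw [MvPolynomial.coeff_X_mul']
  split_ifs
  · rw [coeff_intg]
  · rfl

theorem vdeg_add (m n : β ⊕ κ →₀ ℕ) : vdeg (m + n) = vdeg m + vdeg n := by
  unfold vdeg
  rw [← Finset.sum_add_distrib]
  rfl

theorem vdeg_single (k : κ) : vdeg (Finsupp.single (Sum.inr k : β ⊕ κ) 1) = 1 := by
  classical
  unfold vdeg
  rw [Finset.sum_eq_single k]
  · rw [Finsupp.single_eq_same]
  · intro b _ hb
    rw [Finsupp.single_eq_of_ne]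
    simpa using hb
  · intro h
    exact absurd (Finset.mem_univ k) h

theorem single_sub_add {σ : Type} (m : σ →₀ ℕ) (l : σ) (hl : m l ≠ 0) :
    m - Finsupp.single l 1 + Finsupp.single l 1 = m := by
  classical
  ext a
  by_cases ha : a = l
  · subst ha
    simp only [Finsupp.add_apply, Finsupp.tsub_apply, Finsupp.single_eq_same]
    omega
  · simp [Ne.symm ha]

theorem st_POT : ST_POT := by
  classical
  intro A _ J iv hiv β κ _ Θ hcl l m
  rw [MvPolynomial.coeff_sub, MvPolynomial.coeff_pderiv, coeff_pot]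
  have h1 : ∀ k : κ, (if Sum.inr k ∈ (m + Finsupp.single (Sum.inr l) 1).support then
      (Θ k).coeff (m + Finsupp.single (Sum.inr l) 1 - Finsupp.single (Sum.inr k) 1) *
        iv (vdeg (m + Finsupp.single (Sum.inr l) 1 - Finsupp.single (Sum.inr k) 1)) else 0) *
          ((m (Sum.inr l) : A) + 1) -
      (Θ l).coeff m * iv (vdeg m) * ((m (Sum.inr k) : A) + if k = l then 1 else 0) ∈ J := by
    intro k
    by_cases hk : k = l
    · subst hk
      rw [if_pos, if_pos rfl, add_tsub_cancel_right, sub_self]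
      · exact J.zero_mem
      · rw [Finsupp.mem_support_iff, Finsupp.add_apply, Finsupp.single_eq_same]
        omega
    · have hne : (Sum.inr k : β ⊕ κ) ≠ Sum.inr l := by simpa using hk
      have e0 : (m + Finsupp.single (Sum.inr l) 1 : β ⊕ κ →₀ ℕ) (Sum.inr k) = m (Sum.inr k) := by
        rw [Finsupp.add_apply, Finsupp.single_eq_of_ne hne, add_zero]
      rw [if_neg hk, add_zero]
      by_cases hm : m (Sum.inr k) = 0
      · rw [if_neg, hm, Nat.cast_zero, mul_zero, zero_mul, sub_zero]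
        · exact J.zero_mem
        · rw [Finsupp.mem_support_iff, e0, hm]
          simp
      · rw [if_pos (by rw [Finsupp.mem_support_iff, e0]; exact hm)]
        set n : β ⊕ κ →₀ ℕ := m - Finsupp.single (Sum.inr k) 1 with hn
        have e1 : n + Finsupp.single (Sum.inr k) 1 = m := single_sub_add m _ hm
        have e2 : m + Finsupp.single (Sum.inr l) 1 - Finsupp.single (Sum.inr k) 1 =
            n + Finsupp.single (Sum.inr l) 1 := by
          rw [← e1, add_right_comm, add_tsub_cancel_right]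
        have e3 : vdeg (n + Finsupp.single (Sum.inr l : β ⊕ κ) 1) = vdeg m := by
          rw [← e1, vdeg_add, vdeg_add, vdeg_single, vdeg_single]
        have e4 : n (Sum.inr l) = m (Sum.inr l) := by
          rw [← e1, Finsupp.add_apply, Finsupp.single_eq_of_ne (Ne.symm hne), add_zero]
        have e5 : (n (Sum.inr k) : A) + 1 = m (Sum.inr k) := by
          rw [← e1, Finsupp.add_apply, Finsupp.single_eq_same]
          push_cast
          rfl
        have h2 := hcl k l n
        rw [MvPolynomial.coeff_sub, MvPolynomial.coeff_pderiv, MvPolynomial.coeff_pderiv, e4, e5, e1] at h2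
        rw [e2, e3]
        have h3 := J.mul_mem_left (iv (vdeg m)) h2
        have e6 : (Θ k).coeff (n + Finsupp.single (Sum.inr l) 1) * iv (vdeg m) * ((m (Sum.inr l) : A) + 1) -
            (Θ l).coeff m * iv (vdeg m) * (m (Sum.inr k) : A) = iv (vdeg m) *
              ((Θ k).coeff (n + Finsupp.single (Sum.inr l) 1) * ((m (Sum.inr l) : A) + 1) -
                (Θ l).coeff m * (m (Sum.inr k) : A)) := by ring
        rw [e6]
        exact h3
  have h2 := J.sum_mem (t := Finset.univ) fun k _ => h1 k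
  rw [Finset.sum_sub_distrib, ← Finset.sum_mul, ← Finset.mul_sum, Finset.sum_add_distrib] at h2
  have e1 : (∑ k : κ, (m (Sum.inr k) : A)) + (∑ k : κ, if k = l then (1 : A) else 0) = (vdeg m : A) + 1 := by
    rw [Finset.sum_ite_eq' Finset.univ l, if_pos (Finset.mem_univ l)]
    unfold vdeg
    push_cast
    rfl
  rw [e1, mul_assoc, hiv, mul_one] at h2
  exact h2

/-- difference of potentials -/
theorem pot_coeff_mem (J : Ideal A) (iv : ℕ → A) (Θ Θ' : κ → MvPolynomial (β ⊕ κ) A)
    (h : ∀ k m, (Θ k).coeff m - (Θ' k).coeff m ∈ J) (m : β ⊕ κ →₀ ℕ) :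
    (pot iv Θ).coeff m - (pot iv Θ').coeff m ∈ J := by
  classical
  rw [coeff_pot, coeff_pot, ← Finset.sum_sub_distrib]
  apply J.sum_mem
  intro k _
  split_ifs
  · rw [← sub_mul]
    exact J.mul_mem_right _ (h _ _)
  · rw [sub_zero]
    exact J.zero_mem

theorem map_pot {B : Type} [CommRing B] (ψ : A →+* B) (iv : ℕ → A) (iv' : ℕ → B) (hiv : ∀ n, ψ (iv n) = iv' n)
    (Θ : κ → MvPolynomial (β ⊕ κ) A) (m : β ⊕ κ →₀ ℕ) :
    ψ ((pot iv Θ).coeff m) = (pot iv' fun k => MvPolynomial.map ψ (Θ k)).coeff m := by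
  classical
  rw [coeff_pot, coeff_pot, map_sum]
  apply Finset.sum_congr rfl
  intro k _
  split_ifs
  · rw [map_mul, hiv, MvPolynomial.coeff_map]
  · exact map_zero _

end pot

variable {S : Sp} {β κ : Type} [Fintype κ]

theorem pot_PK {A : S.L} {Θ : κ → MvPolynomial (β ⊕ κ) (QS S)} (h : ∀ k, Θ k ∈ PK A) : pot (iv S) Θ ∈ PK A := by
  classical
  intro m
  rw [coeff_pot]
  apply (Kn S 1 le_rfl A).sum_mem
  intro k _
  split_ifs
  · apply (Kn S 1 le_rfl A).mul_mem (h k _)
    show dg _ _ ≤ _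
    rw [dg_iv]
    exact bot_le
  · exact (Kn S 1 le_rfl A).zero_mem

/-- agreement of potentials under two projections -/
theorem pot_agree {W : Sp} (P0 P1 : Pj W S) {r : ℝ} {Θ : κ → MvPolynomial (β ⊕ κ) (QS S)}
    (h : ∀ k m, P1.qs ((Θ k).coeff m) - P0.qs ((Θ k).coeff m) ∈ Id W r) (m : β ⊕ κ →₀ ℕ) :
    P1.qs ((pot (iv S) Θ).coeff m) - P0.qs ((pot (iv S) Θ).coeff m) ∈ Id W r := by
  rw [map_pot P1.qs (iv S) (iv W) (qs_iv P1), map_pot P0.qs (iv S) (iv W) (qs_iv P0)]
  apply pot_coeff_mem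
  intro k m
  rw [MvPolynomial.coeff_map, MvPolynomial.coeff_map]
  exact h k m

end

end Pool.Agent.Helper57.TA
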