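import Pool.Agent.Helper57.TA.Fin
import Pool.Agent.Helper71.LINE.Line
import Pool.Agent.Helper95.RIG.Gl
import Pool.Agent.Helper14.WLK.Cop

/-! THEOREM A for one coordinate, with base lines given as labels (literal variables). -/

set_option autoImplicit false

namespace Pool.Agent.Helper57.TA

open Finset Filter Topology Pool.Agent.Helper69.RK Pool.Agent.Helper31.EC Pool.Agent.Helper31.EC.Sp
open Pool.Agent.Helper31.EC.QS
open Pool.Agent.Helper71.LINE (TP TP_const TP_fst TP_snd TP_small TP_eval Cf C_Cf X_Cf sbs_Cf coeff_shift wpol_of_mv)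

noncomputable section

section two

variable {S W : Sp}

/-- two copies of a space given a label and finitely many functions -/
theorem exists_copyL (b : W.L) {ι : Type} [Fintype ι] (f : ι → QS W) : ∃ (D : Sp) (p1 p2 : Pj D W),
    p1.map b = p2.map b ∧ (∀ i, p1.qs (f i) = p2.qs (f i)) ∧
      ∀ x y, I (p1.map x) (p2.map y) (p1.map (b ⊔ vd f 1)) = 0 := by
  obtain ⟨α, V, hV, hVb⟩ := Pool.Agent.Helper95.RIG.exists_io b
  obtain ⟨γ, U, hU, hio, ⟨e, he⟩, hf⟩ := Pool.Agent.Helper14.WLK.exists_lvar hV f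
  obtain ⟨C⟩ := Cps.exists U hU 1
  have hA := Pool.Agent.Helper14.WLK.Cps_Ag C 0 1
  refine ⟨C.W, C.p 0, C.p 1, ?_, hf _ _ _ hA, fun x y => ?_⟩
  · have h1 := (hA.fn e he).map_io hV
    rwa [hVb] at h1
  · have h3 := Pool.Agent.Helper14.WLK.I_block C (s := {0}) (t := {1}) (by simp) (fun i => if i = 0 then x else y)
      (fun i => if i = 0 then x else y)
    rw [Finset.sup_singleton, Finset.sup_singleton, if_pos rfl, if_neg (by decide)] at h3
    rw [← hVb, ← hio]
    exact h3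

/-- TWO COPIES -/
theorem wpol_of_incrL (P P' : Pj W S) (B : S.L) (t a : QS S) {r : ℝ} (hr0 : 0 < r)
    (hr : r ≤ 1) (hbf : P.map B = P'.map B) (ha : dg a 1 ≤ B ⊔ dg t 1)
    {Ψ : MvPolynomial (Fin 2) (QS W)} (hΨ : Ψ ∈ PK (P.map B))
    (he : P'.qs a - P.qs a - MvPolynomial.eval ![P.qs t, P'.qs t] Ψ ∈ Id W r)
    (ht : h (dg (P'.qs t) 1) (P.map B ⊔ dg (P.qs t) 1) = 1) : WPol B t a r := by
  obtain ⟨b, hb⟩ : ∃ b, b = P.map B := ⟨_, rfl⟩
  have hb' : P'.map B = b := by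
    rw [hb]
    exact hbf.symm
  obtain ⟨τ, hτ⟩ : ∃ τ, τ = P.qs t := ⟨_, rfl⟩
  obtain ⟨τ', hτ'⟩ : ∃ τ', τ' = P'.qs t := ⟨_, rfl⟩
  rw [← hb] at hΨ
  rw [← hτ, ← hτ'] at he
  rw [← hb, ← hτ, ← hτ'] at ht
  have ha1 : dg (P.qs a) 1 ≤ b ⊔ dg τ 1 := by
    rw [P.qs_dg, hb, hτ, P.qs_dg, ← P.map_sup]
    exact P.map_mono ha
  have ha2 : dg (P'.qs a) 1 ≤ b ⊔ dg τ' 1 := by
    rw [P'.qs_dg, ← hb', hτ', P'.qs_dg, ← P'.map_sup]
    exact P'.map_mono ha
  -- the polynomial in the first time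
  obtain ⟨Y, hY⟩ : ∃ Y : MvPolynomial (Fin 1) (QS W),
      Y = MvPolynomial.C (P'.qs a) - MvPolynomial.aeval ![MvPolynomial.X 0, MvPolynomial.C τ'] Ψ := ⟨_, rfl⟩
  have hYe : MvPolynomial.eval (fun _ => τ) Y = P'.qs a - MvPolynomial.eval ![τ, τ'] Ψ := by
    rw [hY, map_sub, MvPolynomial.eval_C, eval_sbs]
    congr 2
    apply congrArg (fun z => MvPolynomial.eval z)
    funext i
    fin_cases i
    · show MvPolynomial.eval _ (MvPolynomial.X 0) = τ
      rw [MvPolynomial.eval_X]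
    · show MvPolynomial.eval _ (MvPolynomial.C τ') = τ'
      rw [MvPolynomial.eval_C]
  have hYk : Y ∈ PK (b ⊔ dg τ' 1) := by
    rw [hY]
    apply (PK _).sub_mem (C_mem ha2)
    apply sbs_PK (PK_mono le_sup_left hΨ)
    intro i
    fin_cases i
    · exact X_mem _ _
    · exact C_mem le_sup_right
  have hYa : P.qs a - MvPolynomial.eval (fun _ => τ) Y ∈ Id W r := by
    rw [hYe]
    have h1 := (Id W r).neg_mem he
    have e : -(P'.qs a - P.qs a - MvPolynomial.eval ![τ, τ'] Ψ) =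
        P.qs a - (P'.qs a - MvPolynomial.eval ![τ, τ'] Ψ) := by ring
    rwa [e] at h1
  -- the copies
  obtain ⟨f, hf⟩ : ∃ f : Option Unit → QS W, f = fun o => o.elim τ (fun _ => P.qs a) := ⟨_, rfl⟩
  have hvd : b ⊔ vd f 1 = b ⊔ dg τ 1 := by
    apply le_antisymm
    · refine sup_le le_sup_left ?_
      rw [vd_le]
      intro i
      rw [hf]
      match i with
      | none => exact le_sup_right
      | some () => exact ha1
    · refine sup_le_sup_left ?_ b
      have h1 := dg_le_vd f 1 none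
      rw [hf] at h1
      rw [hf]
      exact h1
  obtain ⟨D, p1, p2, hcb, hc, hI⟩ := exists_copyL b f
  rw [hvd] at hI
  rw [hf] at hc
  have cτ : p1.qs τ = p2.qs τ := hc none
  have ca : p1.qs (P.qs a) = p2.qs (P.qs a) := hc (some ())
  obtain ⟨β, hβ⟩ : ∃ β, β = p1.map b := ⟨_, rfl⟩
  have hβ' : p2.map b = β := by
    rw [hβ]
    exact hcb.symm
  obtain ⟨θ, hθ⟩ : ∃ θ, θ = p1.qs τ := ⟨_, rfl⟩
  obtain ⟨t1, ht1⟩ : ∃ t1, t1 = p1.qs τ' := ⟨_, rfl⟩
  obtain ⟨t2, ht2⟩ : ∃ t2, t2 = p2.qs τ' := ⟨_, rfl⟩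
  have hI' : ∀ x y, I (p1.map x) (p2.map y) (β ⊔ dg θ 1) = 0 := by
    intro x y
    have h1 := hI x y
    rw [p1.map_sup, ← p1.qs_dg, ← hβ, ← hθ] at h1
    exact h1
  have F1 : h (dg t1 1) (β ⊔ dg θ 1) = 1 := by
    rw [ht1, hβ, hθ, p1.qs_dg, p1.qs_dg, ← p1.map_sup, p1.h_map]
    exact ht
  have F2 : h (dg t2 1) (β ⊔ dg θ 1) = 1 := by
    rw [ht2, ← hβ', hθ, cτ, p2.qs_dg, p2.qs_dg, ← p2.map_sup, p2.h_map]
    exact ht
  have F3 : h (dg θ 1) β = 1 := by
    rw [hθ, hβ, p1.qs_dg, p1.h_map]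
    have h1 : h (dg τ' 1) b = h (dg τ 1) b := by
      rw [hτ', P'.qs_dg, hτ, P.qs_dg]
      nth_rewrite 1 [← hb']
      rw [P'.h_map, hb, P.h_map]
    rw [← h1]
    apply le_antisymm (h_dg_le_one _ _)
    exact ht.ge.trans (h_anti (le_sup_left : b ≤ b ⊔ dg τ 1))
  have F4 : h (dg t2 1) (dg t1 1 ⊔ (β ⊔ dg θ 1)) = 1 := by
    have h1 := hI' (dg τ' 1) (dg τ' 1)
    rw [← p1.qs_dg, ← p2.qs_dg, ← ht1, ← ht2, I_zero_iff_h'] at h1
    rw [h1, F2]
  have F5 : I (dg t1 1) (dg t2 1) β = 0 := by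
    apply le_antisymm _ (I_nonneg _ _ _)
    rw [I_eq']
    have h1 : h (dg t2 1) (dg t1 1 ⊔ (β ⊔ dg θ 1)) ≤ h (dg t2 1) (dg t1 1 ⊔ β) :=
      h_anti (sup_le_sup_left (le_sup_left : β ≤ β ⊔ dg θ 1) (dg t1 1))
    have h2 := h_dg_le_one t2 β
    linarith
  have F6 : h (dg θ 1) (β ⊔ (dg t1 1 ⊔ dg t2 1)) = 1 := by
    apply le_antisymm (h_dg_le_one _ _)
    have h1 := h_chain (dg θ 1) (dg t1 1 ⊔ dg t2 1) β
    have h2 := h_chain (dg t1 1) (dg t2 1) (dg θ 1 ⊔ β)
    have h3 := h_chain (dg t1 1 ⊔ dg t2 1) (dg θ 1) β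
    have h4 := h_chain (dg t1 1) (dg t2 1) β
    rw [sup_comm (dg θ 1) β] at h2 h1
    rw [F1, F4] at h2
    rw [h2, F3] at h1
    have h5 := h_dg_le_one t1 β
    have h6 := h_dg_le_one t2 (dg t1 1 ⊔ β)
    rw [sup_comm (dg t1 1 ⊔ dg t2 1) (dg θ 1), h1, sup_comm (dg t1 1 ⊔ dg t2 1) β] at h3
    linarith
  have hx : Rt 1 (fun _ : Fin 1 => θ) (β ⊔ (dg t1 1 ⊔ dg t2 1)) := by
    apply Rt.of_ge zero_le_one
    rw [Fintype.card_fin, Nat.cast_one, one_mul]
    refine F6.ge.trans ?_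
    apply h_mono
    exact dg_le_vd (fun _ : Fin 1 => θ) 1 0
  have hk1 : ∀ m, dg (p1.qs (Y.coeff m)) 1 ≤ β ⊔ dg t1 1 := by
    intro m
    rw [p1.qs_dg, hβ, ht1, p1.qs_dg, ← p1.map_sup]
    exact p1.map_mono (hYk m)
  have hk2 : ∀ m, dg (p2.qs (Y.coeff m)) 1 ≤ β ⊔ dg t2 1 := by
    intro m
    rw [p2.qs_dg, ← hβ', ht2, p2.qs_dg, ← p2.map_sup]
    exact p2.map_mono (hYk m)
  have hag : ∀ m, p1.qs (Y.coeff m) - p2.qs (Y.coeff m) ∈ Id D r := by
    intro m
    have h1 := mv_small_unique one_pos le_rfl hx (P := MvPolynomial.map p1.qs Y) (Q := MvPolynomial.map p2.qs Y)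
      hr le_rfl (PKr_of_PK le_rfl (fun m => by
        rw [MvPolynomial.coeff_map]
        exact (hk1 m).trans (sup_le_sup_left le_sup_left _)))
      (PKr_of_PK le_rfl (fun m => by
        rw [MvPolynomial.coeff_map]
        exact (hk2 m).trans (sup_le_sup_left le_sup_right _))) (by
        have h2 := (p1.qs_mem_Id hr).mpr hYa
        have h3 := (p2.qs_mem_Id hr).mpr hYa
        rw [map_sub, qs_eval] at h2 h3
        rw [← hθ] at h2
        rw [← ca, ← cτ, ← hθ] at h3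
        have h4 := (Id D r).sub_mem h3 h2
        rwa [sub_sub_sub_cancel_left] at h4) m
    rwa [MvPolynomial.coeff_map, MvPolynomial.coeff_map] at h1
  have hYr : ∀ m, dg (Y.coeff m) r ≤ b := by
    intro m
    rw [← p1.map_le, ← p1.qs_dg, ← hβ]
    refine le_of_markov (A := dg t1 1) (B := dg t2 1) ?_ ?_ F5
    · rw [sup_comm]
      exact (QS.dg_mono _ hr).trans (hk1 m)
    · rw [dg_eq_of_sub_mem (hag m) le_rfl hr, sup_comm]
      exact (QS.dg_mono _ hr).trans (hk2 m)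
  have hxt : Rt 1 (fun _ : Fin 1 => t) (B) := by
    apply Rt.of_ge zero_le_one
    rw [Fintype.card_fin, Nat.cast_one, one_mul]
    have h1 : h (dg t 1) (B) = 1 := by
      have h2 := F3
      rw [hθ, hβ, p1.qs_dg, p1.h_map, hτ, hb, P.qs_dg, P.h_map] at h2
      exact h2
    refine h1.ge.trans ?_
    apply h_mono
    exact dg_le_vd (fun _ : Fin 1 => t) 1 0
  rw [hb] at hYr
  rw [hτ] at hYa
  obtain ⟨Q, hQ1, _, hQ3⟩ := descend_coeff P a one_pos le_rfl hxt hr0.le le_rfl hr (P := Y) hYr hYa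
  exact wpol_of_mv hQ1 hQ3


end two

/-- (LINE) with a label as base line -/
theorem lineL {S W : Sp} (P P' : Pj W S) {κ : Type} [Fintype κ] (B : S.L) (t : QS S)
    (R : κ → QS S) (qi : S.L) (A : MvPolynomial κ (QS S)) (c : QS S) (r : ℝ)
    (G : κ → MvPolynomial (Fin 2) (QS W)) (p : MvPolynomial (κ ⊕ Fin 2) (QS W))
    (hr0 : 0 < r) (hr : r ≤ 1) (hbf : P.map B = P'.map B) (hqi : qi ≤ B ⊔ dg t 1)
    (hA : A ∈ PK qi) (hc : c - MvPolynomial.eval R A ∈ Id S r)
    (hG : ∀ k, G k ∈ PK (P.map B))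
    (hR : ∀ k, P'.qs (R k) - P.qs (R k) - MvPolynomial.eval ![P.qs t, P'.qs t] (G k) ∈ Id W r)
    (hp : p ∈ PK (P.map B))
    (hcc : P'.qs c - P.qs c - MvPolynomial.eval (Sum.elim (fun k => P.qs (R k)) ![P.qs t, P'.qs t]) p ∈ Id W r)
    (hRl : Rl (fun k => P.qs (R k)) (P.map B ⊔ (dg (P.qs t) 1 ⊔ dg (P'.qs t) 1)))
    (ht : h (dg (P'.qs t) 1) (P.map B ⊔ dg (P.qs t) 1) = 1) (m₀ : κ →₀ ℕ) : WPol B t (A.coeff m₀) r := by
  classical
  obtain ⟨b, hb⟩ : ∃ b, b = P.map B := ⟨_, rfl⟩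
  have hb' : P'.map B = b := by
    rw [hb]
    exact hbf.symm
  obtain ⟨τ, hτ⟩ : ∃ τ, τ = P.qs t := ⟨_, rfl⟩
  obtain ⟨τ', hτ'⟩ : ∃ τ', τ' = P'.qs t := ⟨_, rfl⟩
  rw [← hb] at hG hp hRl
  rw [← hτ, ← hτ'] at hR hcc hRl
  obtain ⟨g, hg⟩ : ∃ g : κ → QS W, g = fun k => MvPolynomial.eval ![τ, τ'] (G k) := ⟨_, rfl⟩
  have hgU : ∀ k, g k ∈ TP b τ τ' r := fun k => by rw [hg]; exact TP_eval (hG k)
  obtain ⟨φ, hφ⟩ : ∃ φ : κ → MvPolynomial κ (QS W), φ = fun k => MvPolynomial.X k + MvPolynomial.C (g k) := ⟨_, rfl⟩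
  obtain ⟨ψ, hψ⟩ : ∃ ψ : κ ⊕ Fin 2 → MvPolynomial κ (QS W),
      ψ = Sum.elim MvPolynomial.X (fun i => MvPolynomial.C ((![τ, τ'] : Fin 2 → QS W) i)) := ⟨_, rfl⟩
  obtain ⟨Bb, hB⟩ : ∃ Bb, Bb = b ⊔ (dg τ 1 ⊔ dg τ' 1) := ⟨_, rfl⟩
  rw [← hB] at hRl
  have hbB : b ≤ Bb := by rw [hB]; exact le_sup_left
  have hτB : dg τ 1 ≤ Bb := by rw [hB]; exact le_sup_left.trans le_sup_right
  have hτB' : dg τ' 1 ≤ Bb := by rw [hB]; exact le_sup_right.trans le_sup_right
  have hτi : ∀ i, dg ((![τ, τ'] : Fin 2 → QS W) i) 1 ≤ Bb := by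
    intro i
    fin_cases i
    · exact hτB
    · exact hτB'
  have hgB : ∀ k, dg (g k) 1 ≤ Bb := fun k => by
    rw [hg]
    exact eval_mem (hG k) _ hbB hτi
  -- the transport equation as a polynomial in the vertical coordinates
  obtain ⟨A', hA'⟩ : ∃ A' : MvPolynomial κ (QS W), A' = MvPolynomial.map P'.qs A := ⟨_, rfl⟩
  obtain ⟨A₀, hA₀⟩ : ∃ A₀ : MvPolynomial κ (QS W), A₀ = MvPolynomial.map P.qs A := ⟨_, rfl⟩
  obtain ⟨Q, hQ⟩ : ∃ Q : MvPolynomial κ (QS W),
      Q = MvPolynomial.aeval φ A' - A₀ - MvPolynomial.aeval ψ p := ⟨_, rfl⟩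
  have hA'k : A' ∈ PK Bb := by
    rw [hA']
    refine PK_mono ?_ (map_PK P' hA)
    refine (P'.map_mono hqi).trans ?_
    rw [P'.map_sup, hb', ← P'.qs_dg, ← hτ']
    exact sup_le hbB hτB'
  have hA₀k : A₀ ∈ PK Bb := by
    rw [hA₀]
    refine PK_mono ?_ (map_PK P hA)
    refine (P.map_mono hqi).trans ?_
    rw [P.map_sup, ← hb, ← P.qs_dg, ← hτ]
    exact sup_le hbB hτB
  have hQk : Q ∈ PK Bb := by
    rw [hQ]
    apply (PK Bb).sub_mem ((PK Bb).sub_mem _ hA₀k)
    · apply sbs_PK (PK_mono hbB hp)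
      intro a
      rw [hψ]
      rcases a with a | a
      · exact X_mem _ _
      · exact C_mem (hτi a)
    · apply sbs_PK hA'k
      intro a
      rw [hφ]
      exact (PK Bb).add_mem (X_mem _ _) (C_mem (hgB a))
  have hQ0 : MvPolynomial.eval (fun k => P.qs (R k)) Q ∈ Id W r := by
    have e1 : MvPolynomial.eval (fun k => P.qs (R k)) (MvPolynomial.aeval φ A') =
        MvPolynomial.eval (fun k => P.qs (R k) + g k) A' := by
      rw [eval_sbs]
      congr 1
      apply congrArg (fun z => MvPolynomial.eval z)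
      funext k
      rw [hφ, map_add, MvPolynomial.eval_X, MvPolynomial.eval_C]
    have e2 : MvPolynomial.eval (fun k => P.qs (R k)) (MvPolynomial.aeval ψ p) =
        MvPolynomial.eval (Sum.elim (fun k => P.qs (R k)) ![τ, τ']) p := by
      rw [eval_sbs]
      congr 1
      apply congrArg (fun z => MvPolynomial.eval z)
      funext k
      rw [hψ]
      rcases k with k | k
      · show MvPolynomial.eval _ (MvPolynomial.X k) = _
        rw [MvPolynomial.eval_X]
        rfl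
      · show MvPolynomial.eval _ (MvPolynomial.C _) = _
        rw [MvPolynomial.eval_C]
        rfl
    rw [hQ, map_sub, map_sub, e1, e2]
    have h1 := (P'.qs_mem_Id hr).mpr hc
    have h2 := (P.qs_mem_Id hr).mpr hc
    rw [map_sub, qs_eval, ← hA'] at h1
    rw [map_sub, qs_eval, ← hA₀] at h2
    have h3 := eval_sub_mem (Id W r) A' (fun k => P'.qs (R k)) (fun k => P.qs (R k) + g k) (by
      intro k
      have h4 := hR k
      rw [hg]
      rwa [sub_sub] at h4)
    have h4 := (Id W r).add_mem ((Id W r).sub_mem h2 h1) ((Id W r).sub_mem hcc h3)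
    have e3 : P.qs c - MvPolynomial.eval (fun i => P.qs (R i)) A₀ -
        (P'.qs c - MvPolynomial.eval (fun i => P'.qs (R i)) A') +
        (P'.qs c - P.qs c - MvPolynomial.eval (Sum.elim (fun k => P.qs (R k)) ![τ, τ']) p -
          (MvPolynomial.eval (fun k => P'.qs (R k)) A' - MvPolynomial.eval (fun k => P.qs (R k) + g k) A')) =
        MvPolynomial.eval (fun k => P.qs (R k) + g k) A' - MvPolynomial.eval (fun k => P.qs (R k)) A₀ -
          MvPolynomial.eval (Sum.elim (fun k => P.qs (R k)) ![τ, τ']) p := by ring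
    rwa [e3] at h4
  have hQm : ∀ m, Q.coeff m ∈ Id W r :=
    mv_small one_pos le_rfl (Rl_iff_Rt.mp hRl) hr le_rfl (PKr_of_PK le_rfl hQk) hQ0
  have hpU : MvPolynomial.aeval ψ p ∈ Cf (TP b τ τ' r) := by
    apply sbs_Cf
    · intro m
      exact TP_const (hp m)
    · intro a
      rw [hψ]
      rcases a with a | a
      · exact X_Cf _ _
      · apply C_Cf
        fin_cases a
        · exact TP_fst _ _ _ _
        · exact TP_snd _ _ _ _
  -- downward induction
  have key : ∀ (N : ℕ) (m : κ →₀ ℕ), A.totalDegree < ∑ k, m k + N → WPol B t (A.coeff m) r := by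
    intro N
    induction N with
    | zero =>
      intro m hm
      have h1 : A.coeff m = 0 := by
        apply MvPolynomial.coeff_eq_zero_of_totalDegree_lt
        rw [Nat.add_zero] at hm
        refine lt_of_lt_of_eq hm ?_
        symm
        apply Finset.sum_subset (Finset.subset_univ _)
        intro k _ hk
        exact Finsupp.notMem_support_iff.mp hk
      rw [h1]
      refine ⟨0, fun _ => 0, fun _ => ?_, ?_⟩
      · have h2 : dg (0 : QS S) 1 ≤ ⊥ := (Kn S 1 le_rfl ⊥).zero_mem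
        exact h2.trans bot_le
      · unfold pe
        simp only [zero_mul, Finset.sum_const_zero, sub_self]
        exact (Id S r).zero_mem
    | succ N ih =>
      intro m hm
      have hup : ∀ n : κ →₀ ℕ, ∑ k, m k < ∑ k, n k → P'.qs (A.coeff n) ∈ TP b τ τ' r := by
        intro n hn
        obtain ⟨k, α, h1, h2⟩ := ih n (by omega)
        have h3 := (P'.qs_mem_Id hr).mpr h2
        rw [map_sub, pe_map] at h3
        have h4 : pe (fun a => P'.qs (α a)) (P'.qs t) ∈ TP b τ τ' r := by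
          unfold pe
          apply (TP b τ τ' r).sum_mem
          intro j _
          apply (TP b τ τ' r).mul_mem
          · apply TP_const
            rw [P'.qs_dg, ← hb']
            exact P'.map_mono (h1 j)
          · apply (TP b τ τ' r).pow_mem
            rw [← hτ']
            exact TP_snd _ _ _ _
        have h5 := (TP b τ τ' r).add_mem (TP_small h3) h4
        rwa [sub_add_cancel] at h5
      have hco : (MvPolynomial.aeval φ A').coeff m = ∑ n ∈ A'.support, A'.coeff n * (∏ k, φ k ^ n k).coeff m := by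
        rw [MvPolynomial.aeval_def, MvPolynomial.eval₂_eq', MvPolynomial.coeff_sum]
        apply Finset.sum_congr rfl
        intro n _
        rw [MvPolynomial.algebraMap_eq, MvPolynomial.coeff_C_mul]
      have hsum : (MvPolynomial.aeval φ A').coeff m - P'.qs (A.coeff m) ∈ TP b τ τ' r := by
        have e1 : P'.qs (A.coeff m) = ∑ n ∈ A'.support, (if n = m then A'.coeff n else 0) := by
          rw [Finset.sum_ite_eq' A'.support m]
          split_ifs with h1
          · rw [hA', MvPolynomial.coeff_map]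
          · rw [MvPolynomial.notMem_support_iff, hA', MvPolynomial.coeff_map] at h1
            exact h1
        rw [hco, e1, ← Finset.sum_sub_distrib]
        apply (TP b τ τ' r).sum_mem
        intro n _
        by_cases hnm : n = m
        · rw [if_pos hnm, hφ, coeff_shift g _ n rfl m (by rw [hnm]), if_pos hnm, mul_one, sub_self]
          exact (TP b τ τ' r).zero_mem
        · rw [if_neg hnm, sub_zero]
          rcases le_or_gt (∑ k, n k) (∑ k, m k) with h1 | h1
          · rw [hφ, coeff_shift g _ n rfl m h1, if_neg hnm, mul_zero]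
            exact (TP b τ τ' r).zero_mem
          · apply (TP b τ τ' r).mul_mem
            · rw [hA', MvPolynomial.coeff_map]
              exact hup n h1
            · have h2 : ∏ k, φ k ^ n k ∈ Cf (TP b τ τ' r) := by
                apply (Cf _).prod_mem
                intro k _
                apply (Cf _).pow_mem
                rw [hφ]
                exact (Cf _).add_mem (X_Cf _ _) (C_Cf (hgU k))
              exact h2 m
      have hinc : P'.qs (A.coeff m) - P.qs (A.coeff m) ∈ TP b τ τ' r := by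
        have h1 := TP_small (b := b) (τ := τ) (τ' := τ') (hQm m)
        rw [hQ, MvPolynomial.coeff_sub, MvPolynomial.coeff_sub] at h1
        have h2 := (TP b τ τ' r).add_mem ((TP b τ τ' r).sub_mem h1 hsum) (hpU m)
        have e1 : (MvPolynomial.aeval φ A').coeff m - A₀.coeff m - (MvPolynomial.aeval ψ p).coeff m -
            ((MvPolynomial.aeval φ A').coeff m - P'.qs (A.coeff m)) + (MvPolynomial.aeval ψ p).coeff m =
            P'.qs (A.coeff m) - P.qs (A.coeff m) := by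
          rw [hA₀, MvPolynomial.coeff_map]
          ring
        rwa [e1] at h2
      obtain ⟨Ψ, h1, h2⟩ := hinc
      rw [hb] at h1
      rw [hτ, hτ'] at h2
      exact wpol_of_incrL P P' B t (A.coeff m) hr0 hr hbf ((hA m).trans hqi) h1 h2 ht
  exact key (A.totalDegree + 1) m₀ (by omega)


variable {S : Sp} {β κ : Type} [Fintype β] [Fintype κ]

/-- a TRANSPORT over a base line given as a label -/
structure TrL (D : Dat S β κ) (B : S.L) (t : QS S) (r : ℝ) where
  W : Sp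
  P : Pj W S
  P' : Pj W S
  com : P.map B = P'.map B
  G : κ → MvPolynomial (Fin 2) (QS W)
  p : MvPolynomial (κ ⊕ Fin 2) (QS W)
  Gk : ∀ k, G k ∈ PK (P.map B)
  pk : p ∈ PK (P.map B)
  hG : ∀ k, P'.qs (D.R k) - P.qs (D.R k) - MvPolynomial.eval ![P.qs t, P'.qs t] (G k) ∈ Id W r
  hp : P'.qs D.z - P.qs D.z - MvPolynomial.eval (Sum.elim (fun k => P.qs (D.R k)) ![P.qs t, P'.qs t]) p ∈ Id W r
  /-- (T) -/
  hT : ∀ l, P'.qs (D.c l) - P.qs (D.c l) - MvPolynomial.eval (Sum.elim (fun k => P.qs (D.R k)) ![P.qs t, P'.qs t])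
    (MvPolynomial.pderiv (Sum.inl l) p) ∈ Id W r
  Rreal : Rl (fun k => P.qs (D.R k)) (P.map B ⊔ (dg (P.qs t) 1 ⊔ dg (P'.qs t) 1))
  treal : h (dg (P'.qs t) 1) (P.map B ⊔ dg (P.qs t) 1) = 1
  /-- the base point moves along a straight line -/
  lin : ∀ a, ∃ f x : QS S, dg f 1 ≤ B ∧ dg x 1 ≤ B ∧ D.q a = f + t * x
  tq : dg t 1 ≤ D.qi

theorem TrL.qi_le {D : Dat S β κ} {B : S.L} {t : QS S} {r : ℝ} (T : TrL D B t r) :
    D.qi ≤ B ⊔ dg t 1 := by
  unfold Dat.qi
  rw [vd_le]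
  intro a
  obtain ⟨f, x, hf, hx, hq⟩ := T.lin a
  rw [hq]
  exact (Kn S 1 le_rfl _).add_mem (hf.trans le_sup_left)
    ((Kn S 1 le_rfl _).mul_mem (show dg t 1 ≤ _ from le_sup_right) (hx.trans le_sup_left))

/-- STEP (3) -/
theorem thetaL {D : Dat S β κ} {r : ℝ} (hr0 : 0 < r) (hr1 : r ≤ 1) {ι : Type}
    (B : ι → S.L) (t : QS S)
    (hT : ∀ i, Nonempty (TrL D (B i) t r)) (hq : Rl D.q ⊥)
    (hP : PolQ D.q B t r) (l : κ) (A : MvPolynomial κ (QS S)) (hA : A ∈ PK D.qi)
    (hAc : D.c l - MvPolynomial.eval D.R A ∈ Id S r) :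
    ∃ Θ : MvPolynomial (β ⊕ κ) (QS S), Θ ∈ PK ⊥ ∧ D.c l - MvPolynomial.eval D.X Θ ∈ Id S r := by
  have h1 : ∀ m, ∃ θ : MvPolynomial β (QS S), θ ∈ PK ⊥ ∧ A.coeff m - MvPolynomial.eval D.q θ ∈ Id S r := by
    intro m
    obtain ⟨W, p, Θ, hΘ, hΘc⟩ := hP (A.coeff m) (hA m) (by
      intro i
      obtain ⟨T⟩ := hT i
      exact lineL T.P T.P' (B i) t D.R D.qi A (D.c l) r T.G (MvPolynomial.pderiv (Sum.inl l) T.p)
        hr0 hr1 T.com T.qi_le hA hAc T.Gk T.hG (pderiv_PK T.pk _) (T.hT l) T.Rreal T.treal m)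
    obtain ⟨Q, hQ1, _, hQ3⟩ := descend_coeff p (A.coeff m) one_pos le_rfl (Rl_iff_Rt.mp hq) hr0.le hr1 le_rfl
      (P := Θ) (PKr_of_PK le_rfl (PK_mono bot_le hΘ)) hΘc
    exact ⟨Q, hQ1, hQ3⟩
  choose θ hθ hθc using h1
  refine ⟨∑ m ∈ A.support, MvPolynomial.rename Sum.inl (θ m) *
    MvPolynomial.rename Sum.inr (MvPolynomial.monomial m 1), ?_, ?_⟩
  · apply (PK _).sum_mem
    intro m _
    apply (PK _).mul_mem (rename_PK (hθ m) _) (rename_PK _ _)
    classical
    intro n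
    rw [MvPolynomial.coeff_monomial]
    split_ifs
    · exact (Kn S 1 le_rfl _).one_mem
    · exact (Kn S 1 le_rfl _).zero_mem
  · have e1 : MvPolynomial.eval D.X (∑ m ∈ A.support, MvPolynomial.rename Sum.inl (θ m) *
        MvPolynomial.rename Sum.inr (MvPolynomial.monomial m 1)) =
        ∑ m ∈ A.support, MvPolynomial.eval D.q (θ m) * MvPolynomial.eval D.R (MvPolynomial.monomial m 1) := by
      rw [map_sum]
      apply Finset.sum_congr rfl
      intro m _
      rw [map_mul, MvPolynomial.eval_rename, MvPolynomial.eval_rename]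
      rfl
    have e2 : MvPolynomial.eval D.R A =
        ∑ m ∈ A.support, A.coeff m * MvPolynomial.eval D.R (MvPolynomial.monomial m 1) := by
      conv_lhs => rw [A.as_sum]
      rw [map_sum]
      apply Finset.sum_congr rfl
      intro m _
      rw [MvPolynomial.eval_monomial, MvPolynomial.eval_monomial, one_mul]
    have e3 : MvPolynomial.eval D.R A - MvPolynomial.eval D.X (∑ m ∈ A.support, MvPolynomial.rename Sum.inl (θ m) *
        MvPolynomial.rename Sum.inr (MvPolynomial.monomial m 1)) ∈ Id S r := by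
      rw [e1, e2, ← Finset.sum_sub_distrib]
      apply Ideal.sum_mem
      intro m _
      rw [← sub_mul]
      exact Ideal.mul_mem_right _ _ (hθc m)
    have e4 := Ideal.add_mem _ hAc e3
    rwa [sub_add_sub_cancel] at e4

/-- flatness along transports -/
theorem TrL.flat {D : Dat S β κ} {B : S.L} {t : QS S} {r : ℝ} (hr1 : r ≤ 1)
    (T : TrL D B t r) (H : MvPolynomial (β ⊕ κ) (QS S)) (hH : H ∈ PK ⊥)
    (hc : ∀ l, D.c l - MvPolynomial.eval D.X (MvPolynomial.pderiv (Sum.inr l) H) ∈ Id S r) :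
    ∃ g : MvPolynomial (Fin 2) (QS T.W), g ∈ PK (T.P.map B) ∧
      T.P'.qs (D.z - MvPolynomial.eval D.X H) - T.P.qs (D.z - MvPolynomial.eval D.X H) -
        MvPolynomial.eval ![T.P.qs t, T.P'.qs t] g ∈ Id T.W r := by
  classical
  set b : T.W.L := T.P.map B with hb
  have hb' : T.P'.map B = b := by
    rw [hb]
    exact T.com.symm
  choose f x hf hx hq using T.lin
  set A : T.W.L := b ⊔ (dg (T.P.qs t) 1 ⊔ dg (T.P'.qs t) 1) with hA
  have hPf : ∀ a, dg (T.P.qs (f a)) 1 ≤ b := fun a => by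
    rw [T.P.qs_dg]
    exact Pj.map_mono _ (hf a)
  have hPx : ∀ a, dg (T.P.qs (x a)) 1 ≤ b := fun a => by
    rw [T.P.qs_dg]
    exact Pj.map_mono _ (hx a)
  have hPf' : ∀ a, dg (T.P'.qs (f a)) 1 ≤ b := fun a => by
    rw [T.P'.qs_dg, ← hb']
    exact Pj.map_mono _ (hf a)
  have hPx' : ∀ a, dg (T.P'.qs (x a)) 1 ≤ b := fun a => by
    rw [T.P'.qs_dg, ← hb']
    exact Pj.map_mono _ (hx a)
  have hbA : b ≤ A := le_sup_left
  have htA : dg (T.P.qs t) 1 ≤ A := le_sup_left.trans le_sup_right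
  have htA' : dg (T.P'.qs t) 1 ≤ A := le_sup_right.trans le_sup_right
  have hH0 : ∀ (p : Pj T.W S) (B : T.W.L), MvPolynomial.map p.qs H ∈ PK B := by
    intro p B
    have h3 := map_PK p hH
    rw [Pj.map_bot] at h3
    exact PK_mono bot_le h3
  set tt : Fin 2 → QS T.W := ![T.P.qs t, T.P'.qs t] with htt
  have htt1 : ∀ j, dg (tt j) 1 ≤ A := by
    intro j
    fin_cases j
    · exact htA
    · exact htA'
  set R0 : κ → QS T.W := fun k => T.P.qs (D.R k) with hR0
  set g : κ → QS T.W := fun k => MvPolynomial.eval tt (T.G k) with hg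
  set σ : κ ⊕ Fin 2 → MvPolynomial κ (QS T.W) := Sum.elim MvPolynomial.X (fun j => MvPolynomial.C (tt j)) with hσ
  set pt : MvPolynomial κ (QS T.W) := MvPolynomial.aeval σ T.p with hpt
  have hd : ∀ l a, MvPolynomial.pderiv l (σ a) = if a = Sum.inl l then 1 else 0 := by
    intro l a
    rcases a with k | a
    · show MvPolynomial.pderiv l (MvPolynomial.X k) = _
      rw [MvPolynomial.pderiv_X]
      by_cases hk : k = l
      · subst hk
        rw [Pi.single_eq_same, if_pos rfl]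
      · rw [Pi.single_eq_of_ne hk, if_neg (by simpa using hk)]
    · rw [if_neg (by simp)]
      exact MvPolynomial.pderiv_C
  have hes : ∀ (y : κ → QS T.W) (Q : MvPolynomial (κ ⊕ Fin 2) (QS T.W)),
      MvPolynomial.eval y (MvPolynomial.aeval σ Q) = MvPolynomial.eval (Sum.elim y tt) Q := by
    intro y Q
    rw [eval_sbs]
    congr 1
    congr 1
    funext a
    rcases a with a | k
    · exact MvPolynomial.eval_X _
    · exact MvPolynomial.eval_C _
  have hXs : ∀ p : Pj T.W S, (fun a => p.qs (D.X a)) = Sum.elim (fun a => p.qs (D.q a)) (fun k => p.qs (D.R k)) := by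
    intro p
    funext a
    rcases a with a | a <;> rfl
  have hmv : ∀ Q : MvPolynomial (β ⊕ κ) (QS T.W), MvPolynomial.eval (fun a => T.P'.qs (D.X a)) Q -
      MvPolynomial.eval (Sum.elim (fun a => T.P'.qs (D.q a)) fun k => g k + R0 k) Q ∈ Id T.W r := by
    intro Q
    apply eval_sub_mem
    rintro (a | k)
    · show T.P'.qs (D.q a) - T.P'.qs (D.q a) ∈ _
      rw [sub_self]
      exact Ideal.zero_mem _
    · show T.P'.qs (D.R k) - (g k + R0 k) ∈ _
      have h1 := T.hG k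
      have e1 : T.P'.qs (D.R k) - (g k + R0 k) = T.P'.qs (D.R k) - T.P.qs (D.R k) -
          MvPolynomial.eval ![T.P.qs t, T.P'.qs t] (T.G k) := by
        rw [hg, hR0]
        ring
      rw [e1]
      exact h1
  have hcore := flat_core A R0 T.Rreal (fun a => T.P.qs (D.q a)) (fun a => T.P'.qs (D.q a)) g (by
      intro a
      rw [hq a, map_add, map_mul]
      exact (Kn T.W 1 le_rfl A).add_mem ((hPf a).trans hbA) ((Kn T.W 1 le_rfl A).mul_mem htA ((hPx a).trans hbA)))
    (by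
      intro a
      rw [hq a, map_add, map_mul]
      exact (Kn T.W 1 le_rfl A).add_mem ((hPf' a).trans hbA) ((Kn T.W 1 le_rfl A).mul_mem htA' ((hPx' a).trans hbA)))
    (by
      intro k
      exact QS.eval_mem (T.Gk k) tt hbA htt1)
    (MvPolynomial.map T.P.qs H) (MvPolynomial.map T.P'.qs H) (hH0 _ _) (hH0 _ _) pt (by
      apply sbs_PK (PK_mono hbA T.pk)
      rintro (k | j)
      · exact X_mem _ _
      · exact C_mem (htt1 j)) hr1 (by
      intro l
      have h1 := T.hT l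
      have h2 := (T.P'.qs_mem_Id hr1).mpr (hc l)
      have h3 := (T.P.qs_mem_Id hr1).mpr (hc l)
      rw [map_sub, qs_eval, ← MvPolynomial.pderiv_map] at h2 h3
      have h4 := hmv (MvPolynomial.pderiv (Sum.inr l) (MvPolynomial.map T.P'.qs H))
      rw [hpt, pderiv_sbs σ (Sum.inl l) l (hd l), hes]
      rw [hXs T.P] at h3
      have h5 := Ideal.add_mem _ (Ideal.sub_mem _ (Ideal.sub_mem _ h1 h2) h4) h3
      have e1 : (T.P'.qs (D.c l) - T.P.qs (D.c l) -
          MvPolynomial.eval (Sum.elim (fun k => T.P.qs (D.R k)) ![T.P.qs t, T.P'.qs t])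
            (MvPolynomial.pderiv (Sum.inl l) T.p) -
          (T.P'.qs (D.c l) - MvPolynomial.eval (fun a => T.P'.qs (D.X a))
            (MvPolynomial.pderiv (Sum.inr l) (MvPolynomial.map T.P'.qs H))) -
          (MvPolynomial.eval (fun a => T.P'.qs (D.X a)) (MvPolynomial.pderiv (Sum.inr l) (MvPolynomial.map T.P'.qs H)) -
            MvPolynomial.eval (Sum.elim (fun a => T.P'.qs (D.q a)) fun k => g k + R0 k)
              (MvPolynomial.pderiv (Sum.inr l) (MvPolynomial.map T.P'.qs H))) +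
          (T.P.qs (D.c l) - MvPolynomial.eval (Sum.elim (fun a => T.P.qs (D.q a)) fun k => T.P.qs (D.R k))
            (MvPolynomial.pderiv (Sum.inr l) (MvPolynomial.map T.P.qs H)))) =
          MvPolynomial.eval (Sum.elim (fun a => T.P'.qs (D.q a)) fun k => g k + R0 k)
              (MvPolynomial.pderiv (Sum.inr l) (MvPolynomial.map T.P'.qs H)) -
            MvPolynomial.eval (Sum.elim (fun a => T.P.qs (D.q a)) R0)
              (MvPolynomial.pderiv (Sum.inr l) (MvPolynomial.map T.P.qs H)) -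
            MvPolynomial.eval (Sum.elim R0 tt) (MvPolynomial.pderiv (Sum.inl l) T.p) := by
        rw [hR0, htt]
        ring
      rw [e1] at h5
      exact h5) (fun _ => 0)
  -- the polynomial `g`
  set σ1 : β ⊕ κ → MvPolynomial (Fin 2) (QS T.W) :=
    Sum.elim (fun a => MvPolynomial.C (T.P'.qs (f a)) + MvPolynomial.X 1 * MvPolynomial.C (T.P'.qs (x a))) T.G with hσ1
  set σ0 : β ⊕ κ → MvPolynomial (Fin 2) (QS T.W) :=
    Sum.elim (fun a => MvPolynomial.C (T.P.qs (f a)) + MvPolynomial.X 0 * MvPolynomial.C (T.P.qs (x a)))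
      (fun _ => 0) with hσ0
  set σp : κ ⊕ Fin 2 → MvPolynomial (Fin 2) (QS T.W) := Sum.elim (fun _ => 0) MvPolynomial.X with hσp
  refine ⟨MvPolynomial.aeval σp T.p - MvPolynomial.aeval σ1 (MvPolynomial.map T.P'.qs H) +
    MvPolynomial.aeval σ0 (MvPolynomial.map T.P.qs H), ?_, ?_⟩
  · apply (PK b).add_mem ((PK b).sub_mem (sbs_PK T.pk _) (sbs_PK (hH0 _ _) _)) (sbs_PK (hH0 _ _) _)
    · rintro (k | j)
      · exact (PK b).zero_mem
      · exact X_mem _ _
    · rintro (a | k)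
      · exact (PK b).add_mem (C_mem (hPf' a)) ((PK b).mul_mem (X_mem _ _) (C_mem (hPx' a)))
      · exact T.Gk k
    · rintro (a | k)
      · exact (PK b).add_mem (C_mem (hPf a)) ((PK b).mul_mem (X_mem _ _) (C_mem (hPx a)))
      · exact (PK b).zero_mem
  · have e1 : MvPolynomial.eval tt (MvPolynomial.aeval σp T.p - MvPolynomial.aeval σ1 (MvPolynomial.map T.P'.qs H) +
        MvPolynomial.aeval σ0 (MvPolynomial.map T.P.qs H)) = MvPolynomial.eval (fun _ => 0) pt -
        MvPolynomial.eval (Sum.elim (fun a => T.P'.qs (D.q a)) fun k => g k + 0) (MvPolynomial.map T.P'.qs H) +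
        MvPolynomial.eval (Sum.elim (fun a => T.P.qs (D.q a)) fun _ => 0) (MvPolynomial.map T.P.qs H) := by
      rw [map_add, map_sub, hpt, hes, eval_sbs, eval_sbs, eval_sbs]
      congr 1
      · congr 1
        · congr 1
          congr 1
          funext a
          rcases a with k | j
          · exact map_zero _
          · exact MvPolynomial.eval_X _
        · congr 1
          congr 1
          funext a
          rcases a with a | k
          · show MvPolynomial.eval tt (MvPolynomial.C (T.P'.qs (f a)) + MvPolynomial.X 1 *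
              MvPolynomial.C (T.P'.qs (x a))) = T.P'.qs (D.q a)
            rw [map_add, map_mul, MvPolynomial.eval_C, MvPolynomial.eval_C, MvPolynomial.eval_X, hq a, map_add,
              map_mul]
            rfl
          · show MvPolynomial.eval tt (T.G k) = g k + 0
            rw [add_zero]
      · congr 1
        congr 1
        funext a
        rcases a with a | k
        · show MvPolynomial.eval tt (MvPolynomial.C (T.P.qs (f a)) + MvPolynomial.X 0 *
            MvPolynomial.C (T.P.qs (x a))) = T.P.qs (D.q a)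
          rw [map_add, map_mul, MvPolynomial.eval_C, MvPolynomial.eval_C, MvPolynomial.eval_X, hq a, map_add,
            map_mul]
          rfl
        · exact map_zero _
    rw [e1]
    have h1 := T.hp
    have h2 := hmv (MvPolynomial.map T.P'.qs H)
    have e2 : T.P'.qs (D.z - MvPolynomial.eval D.X H) - T.P.qs (D.z - MvPolynomial.eval D.X H) -
        (MvPolynomial.eval (fun _ => 0) pt -
        MvPolynomial.eval (Sum.elim (fun a => T.P'.qs (D.q a)) fun k => g k + 0) (MvPolynomial.map T.P'.qs H) +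
        MvPolynomial.eval (Sum.elim (fun a => T.P.qs (D.q a)) fun _ => 0) (MvPolynomial.map T.P.qs H)) =
        (T.P'.qs D.z - T.P.qs D.z -
          MvPolynomial.eval (Sum.elim (fun k => T.P.qs (D.R k)) ![T.P.qs t, T.P'.qs t]) T.p) -
        (MvPolynomial.eval (fun a => T.P'.qs (D.X a)) (MvPolynomial.map T.P'.qs H) -
          MvPolynomial.eval (Sum.elim (fun a => T.P'.qs (D.q a)) fun k => g k + R0 k) (MvPolynomial.map T.P'.qs H)) +
        ((MvPolynomial.eval R0 pt - MvPolynomial.eval (Sum.elim (fun a => T.P'.qs (D.q a)) fun k => g k + R0 k)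
            (MvPolynomial.map T.P'.qs H) +
          MvPolynomial.eval (Sum.elim (fun a => T.P.qs (D.q a)) R0) (MvPolynomial.map T.P.qs H)) -
        (MvPolynomial.eval (fun _ => 0) pt -
          MvPolynomial.eval (Sum.elim (fun a => T.P'.qs (D.q a)) fun k => g k + 0) (MvPolynomial.map T.P'.qs H) +
          MvPolynomial.eval (Sum.elim (fun a => T.P.qs (D.q a)) fun _ => 0) (MvPolynomial.map T.P.qs H))) := by
      have e3 : MvPolynomial.eval R0 pt = MvPolynomial.eval (Sum.elim (fun k => T.P.qs (D.R k))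
          ![T.P.qs t, T.P'.qs t]) T.p := hes R0 T.p
      have e4 : T.P.qs (MvPolynomial.eval D.X H) =
          MvPolynomial.eval (Sum.elim (fun a => T.P.qs (D.q a)) R0) (MvPolynomial.map T.P.qs H) := by
        rw [qs_eval, hXs T.P]
      rw [e3, map_sub, map_sub, e4, qs_eval T.P']
      ring
    rw [e2]
    exact Ideal.add_mem _ (Ideal.sub_mem _ h1 h2) hcore

/-- THEOREM A, one coordinate, all scales `s ≤ s₃` at once (same `H`, `Jh`), and for all pairs of points in one box at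
which the coefficients of `H` agree -/
def ST_ASL : Prop :=
  ∀ (S : Sp) (β κ : Type) (_ : Fintype β) (_ : Fintype κ) (D : Dat S β κ) (s₁ s₂ s₃ : ℝ) (ι : Type) (B : ι → S.L)
    (t : QS S),
    0 < s₃ → s₃ ≤ s₂ → s₂ ≤ s₁ → D.w * s₁ ≤ 1 → (∀ l, D.w * s₂ ≤ (D.w - D.wv l) * s₁) →
    (∀ l, D.w * s₃ ≤ (D.w - D.wv l) * s₂) → Rl D.X ⊥ →
    Nonempty (Walk D s₁) → (∃ k : Walk D s₂, k.T ∧ k.RC) → (∃ k : Walk D s₃, k.T) →
    (∀ i, Nonempty (TrL D (B i) t (D.w * s₂))) →
    PolQ D.q B t (D.w * s₂) →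
    ∃ (H : MvPolynomial (β ⊕ κ) (QS S)) (Jh : MvPolynomial β (QS S)),
      H ∈ PK ⊥ ∧ Jh ∈ PK D.qi ∧ (∀ m, Jh.coeff m ≠ 0 → m ≠ 0 ∧ wgt (fun a => D.wt (Sum.inl a)) m < D.w) ∧
      (∀ l, D.c l - MvPolynomial.eval D.X (MvPolynomial.pderiv (Sum.inr l) H) ∈ Id S (D.w * s₃)) ∧
      (∀ (i : ι) (r : ℝ), r ≤ D.w * s₃ → ∀ T : TrL D (B i) t r, ∃ g : MvPolynomial (Fin 2) (QS T.W),
        g ∈ PK (T.P.map (B i)) ∧
        T.P'.qs (D.z - MvPolynomial.eval D.X H) - T.P.qs (D.z - MvPolynomial.eval D.X H) -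
          MvPolynomial.eval ![T.P.qs t, T.P'.qs t] g ∈ Id T.W r) ∧
      (∀ s, 0 < s → s ≤ s₃ → ∀ k : Walk D s, k.T →
        (∀ m, k.P1.qs (H.coeff m) - k.P0.qs (H.coeff m) ∈ Id k.W (D.w * s)) ∧
        (∃ φ : QS k.W, dg φ 1 ≤ k.om ⊔ k.P0.map D.qi ∧
          k.P1.qs (D.z - MvPolynomial.eval D.X H) -
            k.P0.qs (D.z - MvPolynomial.eval D.X H) - φ ∈ Id k.W (D.w * s))) ∧
      ∀ s, 0 < s → s ≤ s₃ → ∀ k : Pair D s, (∀ m, k.P1.qs (H.coeff m) - k.P0.qs (H.coeff m) ∈ Id k.W (D.w * s)) →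
        k.P1.qs (D.z - MvPolynomial.eval D.X H) - k.P0.qs (D.z - MvPolynomial.eval D.X H) -
          MvPolynomial.eval (fun a => k.raw (Sum.inl a)) (MvPolynomial.map k.P0.qs Jh) ∈ Id k.W (D.w * s)

/-- THEOREM A for one coordinate -/
theorem st_ASL : ST_ASL := by
  classical
  intro S β κ _ _ D s₁ s₂ s₃ ι B0 t hs3 h32 h21 hws1 hA21 hA32 hX hk1 hk2 hk3 hTr hPol
  obtain ⟨k1⟩ := hk1
  obtain ⟨k2, hT2, hRC2⟩ := hk2
  obtain ⟨k₀, hT₀⟩ := hk3
  have hs2 : 0 < s₂ := hs3.trans_le h32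
  have hs1 : 0 < s₁ := hs2.trans_le h21
  by_cases hw : D.w ≤ 0
  · have hn : ∀ s, 0 < s → D.w * s ≤ 0 := fun s hs => mul_nonpos_of_nonpos_of_nonneg hw hs.le
    refine ⟨0, 0, (PK _).zero_mem, (PK _).zero_mem, ?_, ?_, ?_, ?_, ?_⟩
    · intro m hm
      exact absurd (MvPolynomial.coeff_zero m) hm
    · exact fun l => mem_Id_nonpos (hn _ hs3)
    · intro i r hr T
      exact ⟨0, (PK _).zero_mem, mem_Id_nonpos (hr.trans (hn _ hs3))⟩
    · intro s hs _ k _
      exact ⟨fun m => mem_Id_nonpos (hn _ hs), ⟨0, (Kn k.W 1 le_rfl _).zero_mem, mem_Id_nonpos (hn _ hs)⟩⟩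
    · exact fun s hs _ k _ => mem_Id_nonpos (hn _ hs)
  push Not at hw
  have hwt : ∀ a, 0 ≤ D.wt a := fun a => (D.wpos a).le
  have hws2 : D.w * s₂ ≤ 1 := (mul_le_mul_of_nonneg_left h21 hw.le).trans hws1
  have hws3 : D.w * s₃ ≤ 1 := (mul_le_mul_of_nonneg_left h32 hw.le).trans hws2
  have hq : Rl D.q ⊥ := Rl_inl hX
  have hR : Rl D.R D.qi := Rl_inr hX
  -- jets
  obtain ⟨A₀, hA₀⟩ := k1.jet hs1 hws1 hR
  set A : (β ⊕ κ →₀ ℕ) → MvPolynomial κ (QS S) := fun m => if m ∈ D.J.support then A₀ m else 0 with hAdef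
  have hA0 : ∀ m, m ∉ D.J.support → A m = 0 := fun m hm => if_neg hm
  have hAk : ∀ m, A m ∈ PK D.qi := by
    intro m
    by_cases hm : m ∈ D.J.support
    · rw [hAdef]
      show (if m ∈ D.J.support then A₀ m else 0) ∈ _
      rw [if_pos hm]
      exact (hA₀ m).1
    · rw [hA0 m hm]
      exact (PK _).zero_mem
  have hA1 : ∀ m, D.J.coeff m - MvPolynomial.eval D.R (A m) ∈ Id S ((D.w - wgt D.wt m) * s₁) := by
    intro m
    by_cases hm : m ∈ D.J.support
    · rw [hAdef]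
      show _ - MvPolynomial.eval D.R (if m ∈ D.J.support then A₀ m else 0) ∈ _
      rw [if_pos hm]
      exact (hA₀ m).2
    · rw [hA0 m hm, MvPolynomial.notMem_support_iff.mp hm, map_zero, sub_zero]
      exact Ideal.zero_mem _
  have hAs : ∀ s, 0 ≤ s → s ≤ s₁ → ∀ m, A m ∈ PK D.qi ∧
      D.J.coeff m - MvPolynomial.eval D.R (A m) ∈ Id S ((D.w - wgt D.wt m) * s) := by
    intro s hs0 hs m
    refine ⟨hAk m, ?_⟩
    by_cases hm : m ∈ D.J.support
    · exact Id_mono (mul_le_mul_of_nonneg_left hs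
        (by linarith [(D.Jw m (MvPolynomial.mem_support_iff.mp hm)).2])) (hA1 m)
    · rw [hA0 m hm, MvPolynomial.notMem_support_iff.mp hm, map_zero, sub_zero]
      exact Ideal.zero_mem _
  have hAc : ∀ l, D.c l - MvPolynomial.eval D.R (A (Finsupp.single (Sum.inr l) 1)) ∈ Id S (D.w * s₂) := by
    intro l
    have h1 := hA1 (Finsupp.single (Sum.inr l) 1)
    rw [wgt_single] at h1
    exact Id_mono (hA21 l) h1
  -- `Θ`
  have hΘex := fun l => thetaL (mul_pos hw hs2) hws2 B0 t hTr hq hPol l (A (Finsupp.single (Sum.inr l) 1))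
    (hAk _) (hAc l)
  choose Θ hΘ hΘc using hΘex
  have hag2 := fun l => k2.agree hs2 hws2 hT2 hX hR A (hAs s₂ hs2.le h21) hA0 (Θ l) l (hΘ l) (hΘc l)
  have hcl := fun k l m => closed h32 hws2 hA32 hX hR A (hAs s₂ hs2.le h21) hAc Θ hΘ hΘc
    (fun l m hm => (hag2 l).2 m hm) k l m
  set H : MvPolynomial (β ⊕ κ) (QS S) := pot (iv S) Θ with hHdef
  have hHk : H ∈ PK ⊥ := pot_PK hΘ
  have hHd : ∀ l m, (MvPolynomial.pderiv (Sum.inr l) H - Θ l).coeff m ∈ Id S (D.w * s₃) :=
    fun l m => st_POT (QS S) _ (Id S (D.w * s₃)) (iv S) iv_mul β κ _ Θ (fun k l m => hcl l k m) l m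
  have hle3 : D.w * s₃ ≤ D.w * s₂ := mul_le_mul_of_nonneg_left h32 hw.le
  have hc : ∀ l, D.c l - MvPolynomial.eval D.X (MvPolynomial.pderiv (Sum.inr l) H) ∈ Id S (D.w * s₃) := by
    intro l
    have h1 := Id_mono hle3 (hΘc l)
    have h2 := eval_mem_ideal (Id S (D.w * s₃)) (hHd l) D.X
    have h3 := Ideal.sub_mem _ h1 h2
    rw [map_sub] at h3
    have e1 : D.c l - MvPolynomial.eval D.X (MvPolynomial.pderiv (Sum.inr l) H) =
        D.c l - MvPolynomial.eval D.X (Θ l) -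
          (MvPolynomial.eval D.X (MvPolynomial.pderiv (Sum.inr l) H) - MvPolynomial.eval D.X (Θ l)) := by ring
    rw [e1]
    exact h3
  have hrc := fun l m => k2.rc hs2 hws2 l (hRC2 l) (Θ l) (hΘ l) (hΘc l) (hag2 l).1 m
  have hvert := vert_small hs3.le h32 Θ H hHd hrc
  have hmul : ∀ s, s ≤ s₃ → D.w * s ≤ D.w * s₃ := fun s hs => mul_le_mul_of_nonneg_left hs hw.le
  -- agreement at walks of scale `s ≤ s₃`
  have hagW : ∀ s, 0 < s → s ≤ s₃ → ∀ k : Walk D s, k.T → ∀ m, k.P1.qs (H.coeff m) - k.P0.qs (H.coeff m) ∈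
      Id k.W (D.w * s) := by
    intro s hs hss k hT
    have h1 := fun l => k.agree hs ((hmul s hss).trans hws3) hT hX hR A (hAs s hs.le (hss.trans (h32.trans h21)))
      hA0 (Θ l) l (hΘ l) (Id_mono ((hmul s hss).trans hle3) (hΘc l))
    exact pot_agree k.P0 k.P1 fun l m => (h1 l).1 m
  have hvs : ∀ s, 0 < s → s ≤ s₃ → ∀ m : β ⊕ κ →₀ ℕ, ∀ l, m (Sum.inr l) ≠ 0 →
      D.J.coeff m - (MvPolynomial.aeval D.tau H).coeff m ∈ Id S ((D.w - wgt D.wt m) * s) := by
    intro s hs hss m l hl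
    by_cases hm : wgt D.wt m ≤ D.w
    · exact Id_mono (mul_le_mul_of_nonneg_left hss (by linarith)) (hvert m l hl)
    · exact mem_Id_nonpos (mul_nonpos_of_nonpos_of_nonneg (by linarith [not_le.mp hm]) hs.le)
  have hPhat : ∀ s, 0 < s → s ≤ s₃ → ∀ k : Pair D s,
      (∀ m, k.P1.qs (H.coeff m) - k.P0.qs (H.coeff m) ∈ Id k.W (D.w * s)) →
      k.P1.qs (D.z - MvPolynomial.eval D.X H) -
        k.P0.qs (D.z - MvPolynomial.eval D.X H) - MvPolynomial.eval (fun a => k.raw (Sum.inl a))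
        (MvPolynomial.map k.P0.qs (hor D.wt D.w (D.J - MvPolynomial.aeval D.tau H))) ∈ Id k.W (D.w * s) :=
    fun s hs hss k hag => Pair.hat hs.le ((hmul s hss).trans hws3) k H hag (hvs s hs hss)
  obtain ⟨φ, hφ, hφc⟩ := k₀.flat hws3 hT₀ hR H hHk hc
  obtain ⟨B, hB⟩ := Walk.jet (D := D.hat H hHk) hs3 hws3
    (k₀.hat H hHk (hPhat s₃ hs3 le_rfl k₀.toPair (hagW s₃ hs3 le_rfl k₀ hT₀)) φ hφ hφc) (by
    unfold Rl
    have e1 : vd (D.hat H hHk).R 1 = ⊥ := by
      apply le_antisymm _ bot_le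
      rw [vd_le]
      exact fun a => a.elim
    rw [e1, Fintype.card_empty, Nat.cast_zero]
    simp [h])
  set J' := hor D.wt D.w (D.J - MvPolynomial.aeval D.tau H) with hJ'
  set Jh : MvPolynomial β (QS S) := ∑ n ∈ J'.support, MvPolynomial.monomial n
    ((B (n.mapDomain Sum.inl)).coeff 0) with hJh
  have hJhc : ∀ n, Jh.coeff n = if n ∈ J'.support then (B (n.mapDomain Sum.inl)).coeff 0 else 0 := by
    intro n
    rw [hJh, MvPolynomial.coeff_sum]
    simp only [MvPolynomial.coeff_monomial]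
    rw [Finset.sum_ite_eq' _ n]
  have hJw : ∀ n, J'.coeff n ≠ 0 → n ≠ 0 ∧ wgt (fun a => D.wt (Sum.inl a)) n < D.w := by
    intro n h1
    rw [hJ', coeff_hor] at h1
    by_contra hc'
    rw [if_neg hc'] at h1
    exact h1 rfl
  have hdiff : ∀ n, (J' - Jh).coeff n ∈ Id S ((D.w - wgt (fun a => D.wt (Sum.inl a)) n) * s₃) := by
    intro n
    rw [MvPolynomial.coeff_sub, hJhc]
    split_ifs with h
    · have h3 := (hB (n.mapDomain Sum.inl)).2
      have e2 : (D.hat H hHk).J.coeff (n.mapDomain Sum.inl) = J'.coeff n :=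
        MvPolynomial.coeff_rename_mapDomain _ Sum.inl_injective _ _
      have e3 : wgt (D.hat H hHk).wt (n.mapDomain Sum.inl) = wgt (fun a => D.wt (Sum.inl a)) n :=
        wgt_inl _ _
      have e4 : MvPolynomial.eval (D.hat H hHk).R (B (n.mapDomain Sum.inl)) =
          (B (n.mapDomain Sum.inl)).coeff 0 := by
        rw [coeff_zero_eval]
        congr 1
        congr 1
        funext a
        exact a.elim
      rw [e2, e3, e4] at h3
      exact h3
    · rw [sub_zero, MvPolynomial.notMem_support_iff.mp h]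
      exact Ideal.zero_mem _
  refine ⟨H, Jh, hHk, ?_, ?_, hc, ?_, ?_, ?_⟩
  · intro n
    rw [hJhc]
    split_ifs
    · exact (hB (n.mapDomain Sum.inl)).1 0
    · exact (Kn S 1 le_rfl _).zero_mem
  · intro n hn
    rw [hJhc] at hn
    by_cases h : n ∈ J'.support
    · exact hJw n (MvPolynomial.mem_support_iff.mp h)
    · rw [if_neg h] at hn
      exact absurd rfl hn
  · intro i r hr T
    exact T.flat (hr.trans hws3) H hHk fun l => Id_mono hr (hc l)
  · intro s hs hss k hT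
    exact ⟨hagW s hs hss k hT, k.flat ((hmul s hss).trans hws3) hT hR H hHk fun l => Id_mono (hmul s hss) (hc l)⟩
  · intro s hs hss k hag
    have h1 := hPhat s hs hss k hag
    have h2 : MvPolynomial.eval (fun a => k.raw (Sum.inl a)) (MvPolynomial.map k.P0.qs (J' - Jh)) ∈
        Id k.W (D.w * s) := by
      apply raw_small (wt := fun a => D.wt (Sum.inl a)) (fun a => hwt _) hs.le
      intro n
      have e1 : D.w * s - wgt (fun a => D.wt (Sum.inl a)) n * s =
          (D.w - wgt (fun a => D.wt (Sum.inl a)) n) * s := by ring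
      rw [MvPolynomial.coeff_map, e1, k.P0.qs_mem_Id]
      · by_cases hn : wgt (fun a => D.wt (Sum.inl a)) n ≤ D.w
        · exact Id_mono (mul_le_mul_of_nonneg_left hss (by linarith)) (hdiff n)
        · exact mem_Id_nonpos (mul_nonpos_of_nonpos_of_nonneg (by linarith [not_le.mp hn]) hs.le)
      · exact (mul_le_mul_of_nonneg_right (sub_le_self _ (wgt_nonneg (fun a => hwt _) n)) hs.le).trans
          ((hmul s hss).trans hws3)
    rw [map_sub (MvPolynomial.map k.P0.qs), map_sub (MvPolynomial.eval _)] at h2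
    have h3 := Ideal.add_mem _ h1 h2
    have e1 : k.P1.qs (D.z - MvPolynomial.eval D.X H) - k.P0.qs (D.z - MvPolynomial.eval D.X H) -
        MvPolynomial.eval (fun a => k.raw (Sum.inl a)) (MvPolynomial.map k.P0.qs Jh) =
        k.P1.qs (D.z - MvPolynomial.eval D.X H) - k.P0.qs (D.z - MvPolynomial.eval D.X H) -
        MvPolynomial.eval (fun a => k.raw (Sum.inl a)) (MvPolynomial.map k.P0.qs J') +
        (MvPolynomial.eval (fun a => k.raw (Sum.inl a)) (MvPolynomial.map k.P0.qs J') -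
        MvPolynomial.eval (fun a => k.raw (Sum.inl a)) (MvPolynomial.map k.P0.qs Jh)) := by ring
    rw [e1]
    exact h3

end

end Pool.Agent.Helper57.TA
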