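import Pool.Agent.Helper57.TA.Dsc
import Pool.Agent.Helper31.EC.Uns

/-! Exact entropy calculus: values of polynomials with a unit coefficient in full variables are units; monomial
matrices of full variables are invertible. -/

set_option autoImplicit false

namespace Pool.Agent.Helper57.TA

open Finset Filter Topology Pool.Agent.Helper69.RK Pool.Agent.Helper31.EC Pool.Agent.Helper31.EC.Sp
open Pool.Agent.Helper31.EC.QS

noncomputable section

variable {S : Sp}

theorem mul_mem_Id {f g : QS S} {r s : ℝ} (hr : 0 ≤ r) (hs : 0 ≤ s) (hf : f ∈ Id S r) (hg : g ∈ Id S s) :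
    f * g ∈ Id S (r + s) := by
  obtain ⟨f, rfl⟩ := mk_surj f
  obtain ⟨g, rfl⟩ := mk_surj g
  rw [mem_Id_iff] at hf hg
  rw [← map_mul, mem_Id_iff]
  obtain ⟨E, K, hE, hK, hh⟩ := hf
  obtain ⟨E', K', hE', hK', hh'⟩ := hg
  refine ⟨fun k ω => E k ω ∧ E' k ω, fun k => K k * K' k, hE.and hE', hK.mul hK', ?_⟩
  filter_upwards [hh, hh', hK.1, hK'.1] with k h1 h2 h3 h4 ω a b
  have e1 := h1 ω a b.1
  have e2 := h2 ω a b.2
  rw [TR.ev_zero, sub_zero] at e1 e2 ⊢
  rw [TR.ev_mul, abs_mul]
  have e3 : |TR.ev f k ω| * |TR.ev g k ω| ≤ (K k * S.dl (min r 1) k) * (K' k * S.dl (min s 1) k) :=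
    mul_le_mul e1 e2 (abs_nonneg _) (mul_nonneg h3 (S.dl_pos _ _).le)
  refine e3.trans ?_
  have e4 : (K k * S.dl (min r 1) k) * (K' k * S.dl (min s 1) k) = K k * K' k * S.dl (min r 1 + min s 1) k := by
    rw [S.dl_add]; ring
  rw [e4]
  refine mul_le_mul_of_nonneg_left (S.dl_anti ?_ k) (mul_nonneg h3 h4)
  rcases le_total r 1 with h5 | h5
  · rcases le_total s 1 with h6 | h6
    · rw [min_eq_left h5, min_eq_left h6]
      exact min_le_left _ _
    · rw [min_eq_left h5, min_eq_right h6]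
      exact (min_le_right _ _).trans (by linarith)
  · rw [min_eq_right h5]
    refine (min_le_right _ _).trans ?_
    have : 0 ≤ min s 1 := le_min hs zero_le_one
    linarith

theorem one_notMem_Id {δ : ℝ} (hδ : 0 < δ) : (1 : QS S) ∉ Id S δ := by
  intro h
  have h1 : ∀ N : ℕ, (1 : QS S) ∈ Id S (N * δ) := by
    intro N
    induction N with
    | zero =>
      rw [Nat.cast_zero, zero_mul]
      exact mem_Id_nonpos le_rfl
    | succ N ih =>
      have h2 := mul_mem_Id (by positivity) hδ.le ih h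
      rw [mul_one] at h2
      rw [Nat.cast_succ, add_mul, one_mul]
      exact h2
  obtain ⟨N, hN⟩ := exists_nat_ge (1 / δ)
  rw [div_le_iff₀ hδ] at hN
  have h2 := Id_mono hN (h1 N)
  rw [mem_Id_one] at h2
  exact one_ne_zero h2

theorem isUnit_notMem_Id {δ : ℝ} (hδ : 0 < δ) {f : QS S} (hf : IsUnit f) : f ∉ Id S δ := by
  intro h
  obtain ⟨g, hg⟩ := hf.exists_right_inv
  have h1 := (Id S δ).mul_mem_right g h
  rw [hg] at h1
  exact one_notMem_Id hδ h1

/-- a function which is not a unit is small on an event of positive probability -/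
theorem exists_small {f : QS S} (hf : ¬ IsUnit f) :
    ∃ (E : ∀ k, (S.F k).Ω → Prop) (hE : 0 < ul (S.pr E)) (δ : ℝ), 0 < δ ∧ δ ≤ 1 ∧
      QS.rest E hE f ∈ Id (S.rest E) δ := by
  obtain ⟨f, rfl⟩ := mk_surj f
  rw [isUnit_mk] at hf
  have h1 : ¬ ∀ δ : ℝ, 0 < δ → Typ (fun k ω => S.dl δ k ≤ |TR.ev f k ω|) := fun hc => hf (nd_of_levels hc)
  push Not at h1
  obtain ⟨δ₀, hδ₀, h1⟩ := h1
  set δ := min δ₀ 1 with hδdef
  have hδ : 0 < δ := lt_min hδ₀ one_pos
  have hδ1 : δ ≤ 1 := min_le_right _ _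
  have h2 : ¬ Typ (fun k ω => S.dl δ k ≤ |TR.ev f k ω|) := by
    intro hc
    apply h1
    exact hc.mono (Eventually.of_forall fun k ω _ hω => (S.dl_anti (min_le_left δ₀ 1) k).trans hω)
  set E : ∀ k, (S.F k).Ω → Prop := fun k ω => ¬ S.dl δ k ≤ |TR.ev f k ω| with hE
  have h3 : ul (S.pr E) ≠ 0 := by
    intro hc
    apply h2
    have h4 := ul_tendsto (UB_pr E)
    rw [hc] at h4
    exact h4
  have h4 : 0 < ul (S.pr E) := lt_of_le_of_ne
    (const_le_ul (UB_pr E) (Eventually.of_forall fun k => pr_nonneg E k)) h3.symm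
  refine ⟨E, h4, δ, hδ, hδ1, ?_⟩
  rw [QS.rest_mk, mem_Id_iff, min_eq_left hδ1]
  refine ⟨fun _ _ => True, fun _ => 1, Typ_true, S.Sub_const zero_le_one, ?_⟩
  have h5 : ∀ᶠ k in UF, (S.F k).pb (E k) ≠ 0 := by
    have h6 := (ul_tendsto (UB_pr E)).eventually (lt_mem_nhds h4)
    filter_upwards [h6] with k hk
    exact hk.ne'
  filter_upwards [h5] with k hk ω hω _
  rw [TR.ev_zero, sub_zero, one_mul]
  have h6 := ((S.F k).rest_supp (E k) ω hω).2 hk
  exact (not_le.mp h6).le

theorem Rt.rest {E : ∀ k, (S.F k).Ω → Prop} (hE : 0 < ul (S.pr E)) {ι : Type} [Fintype ι] {x : ι → QS S} {A : S.L}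
    {ℓ : ℝ} (hℓ : 0 ≤ ℓ) (hx : Rt ℓ x A) : Rt ℓ (fun i => QS.rest E hE (x i)) (restL E hE A) := by
  unfold Rt
  rw [QS.rest_vd]
  apply Sp.h_rest_max E hE hx
  intro E' hE'
  rw [← QS.rest_vd]
  exact h_vd_le _ hℓ _

theorem rest_PK {E : ∀ k, (S.F k).Ω → Prop} (hE : 0 < ul (S.pr E)) {σ : Type} {A : S.L}
    {P : MvPolynomial σ (QS S)} (hP : P ∈ PK A) : MvPolynomial.map (QS.rest E hE) P ∈ PK (restL E hE A) := by
  intro m
  rw [MvPolynomial.coeff_map, QS.rest_dg]
  exact restL_mono E hE (hP m)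

/-- UNITS: a polynomial with known coefficients, one of which is a unit, in full variables -/
theorem isUnit_eval {σ : Type} [Fintype σ] {A : S.L} {x : σ → QS S} {ℓ : ℝ} (hℓ : 0 < ℓ) (hℓ1 : ℓ ≤ 1)
    (hx : Rt ℓ x A) {P : MvPolynomial σ (QS S)} (hP : P ∈ PK A) (m : σ →₀ ℕ) (hm : IsUnit (P.coeff m)) :
    IsUnit (MvPolynomial.eval x P) := by
  by_contra hc
  obtain ⟨E, hE, δ, hδ, hδ1, h1⟩ := exists_small hc
  have h2 : MvPolynomial.eval (fun i => QS.rest E hE (x i)) (MvPolynomial.map (QS.rest E hE) P) ∈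
      Id (S.rest E) δ := by
    have e : QS.rest E hE (MvPolynomial.eval x P) =
        MvPolynomial.eval (fun i => QS.rest E hE (x i)) (MvPolynomial.map (QS.rest E hE) P) := by
      rw [MvPolynomial.eval_map, ← MvPolynomial.eval₂_id, MvPolynomial.hom_eval₂, RingHom.comp_id]
    rwa [← e]
  have h3 := mv_small hℓ hℓ1 (hx.rest hE hℓ.le) hδ1 le_rfl (PKr_of_PK le_rfl (rest_PK hE hP)) h2 m
  rw [MvPolynomial.coeff_map] at h3
  exact isUnit_notMem_Id hδ (hm.map (QS.rest E hE)) h3

/-- monomials in the variables of the node `i` -/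
def emb {ι σ : Type} (i : ι) (m : σ →₀ ℕ) : ι × σ →₀ ℕ := m.mapDomain (Prod.mk i)

theorem emb_apply {ι σ : Type} [DecidableEq ι] (i j : ι) (m : σ →₀ ℕ) (a : σ) : emb i m (j, a) = if i = j then m a else 0 := by
  unfold emb
  split_ifs with h
  · subst h
    exact Finsupp.mapDomain_apply (Prod.mk_right_injective i) m a
  · apply Finsupp.mapDomain_of_notMem_range
    rintro ⟨b, hb⟩
    exact h (congrArg Prod.fst hb)

/-- MONOMIAL MATRICES of full variables are invertible -/
theorem isUnit_monomials {ι σ : Type} [Fintype ι] [DecidableEq ι] [Fintype σ] {A : S.L} {x : ι × σ → QS S} {ℓ : ℝ}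
    (hℓ : 0 < ℓ) (hℓ1 : ℓ ≤ 1) (hx : Rt ℓ x A) (mons : ι → (σ →₀ ℕ)) (hm : Function.Injective mons) :
    IsUnit (Matrix.of fun i j => MvPolynomial.eval (fun a => x (i, a)) (MvPolynomial.monomial (mons j) 1)).det := by
  classical
  set N : Matrix ι ι (MvPolynomial (ι × σ) (QS S)) :=
    Matrix.of fun i j => MvPolynomial.monomial (emb i (mons j)) 1 with hN
  have hK : N.det ∈ PK A := by
    rw [Matrix.det_apply]
    apply (PK A).sum_mem
    intro π _
    have h1 : ∀ i, N (π i) i ∈ PK A := by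
      intro i
      rw [hN, Matrix.of_apply]
      apply monomial_mem
      exact (Kn S 1 le_rfl A).one_mem
    have h2 : ∏ i, N (π i) i ∈ PK A := (PK A).prod_mem fun i _ => h1 i
    rw [Units.smul_def, zsmul_eq_mul]
    exact (PK A).mul_mem (intCast_mem _ _) h2
  set μ₀ : ι × σ →₀ ℕ := ∑ i, emb i (mons i) with hμ
  have hcoef : N.det.coeff μ₀ = 1 := by
    rw [Matrix.det_apply, MvPolynomial.coeff_sum, Finset.sum_eq_single (1 : Equiv.Perm ι)]
    · rw [Equiv.Perm.sign_one, one_smul]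
      have e1 : ∏ i, N ((1 : Equiv.Perm ι) i) i = MvPolynomial.monomial μ₀ 1 := by
        rw [hμ, MvPolynomial.monomial_sum_one]
        rfl
      rw [e1, MvPolynomial.coeff_monomial, if_pos rfl]
    · intro π _ hπ
      have e1 : ∏ i, N (π i) i = MvPolynomial.monomial (∑ i, emb (π i) (mons i)) 1 := by
        rw [MvPolynomial.monomial_sum_one]
        rfl
      have e2 : (((Equiv.Perm.sign π : ℤˣ) : ℤ) : MvPolynomial (ι × σ) (QS S)) =
          MvPolynomial.C ((((Equiv.Perm.sign π : ℤˣ) : ℤ) : QS S)) := (map_intCast (MvPolynomial.C (R := QS S) (σ := ι × σ)) _).symm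
      rw [e1, Units.smul_def, zsmul_eq_mul, e2, MvPolynomial.coeff_C_mul,
        MvPolynomial.coeff_monomial, if_neg, mul_zero]
      intro hc
      apply hπ
      ext i₀
      apply hm
      ext a
      have h1 := DFunLike.congr_fun hc (π i₀, a)
      rw [hμ, Finsupp.finsetSum_apply, Finsupp.finsetSum_apply] at h1
      simp only [emb_apply] at h1
      have h2 : ∑ i, (if π i = π i₀ then mons i a else 0) = mons i₀ a := by
        rw [Finset.sum_eq_single i₀]
        · rw [if_pos rfl]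
        · intro i _ hi
          rw [if_neg fun h => hi (π.injective h)]
        · intro h
          exact absurd (Finset.mem_univ _) h
      have h3 : ∑ i, (if i = π i₀ then mons i a else 0) = mons (π i₀) a := by
        rw [Finset.sum_eq_single (π i₀)]
        · rw [if_pos rfl]
        · intro i _ hi
          rw [if_neg hi]
        · intro h
          exact absurd (Finset.mem_univ _) h
      rw [h2, h3] at h1
      exact h1.symm
    · intro h
      exact absurd (Finset.mem_univ _) h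
  have h1 := isUnit_eval hℓ hℓ1 hx hK μ₀ (by rw [hcoef]; exact isUnit_one)
  have e2 : MvPolynomial.eval x N.det =
      (Matrix.of fun i j => MvPolynomial.eval (fun a => x (i, a)) (MvPolynomial.monomial (mons j) 1)).det := by
    rw [RingHom.map_det]
    congr 1
    ext i j
    rw [RingHom.mapMatrix_apply, Matrix.map_apply, hN, Matrix.of_apply, Matrix.of_apply, MvPolynomial.eval_monomial,
      MvPolynomial.eval_monomial]
    congr 1
    unfold emb
    rw [Finsupp.prod_mapDomain_index_inj (Prod.mk_right_injective i)]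
  rwa [e2] at h1

end

end Pool.Agent.Helper57.TA
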