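import Pool.Agent.Helper57.TA.Dia
import Pool.Agent.Helper57.TA.Str

/-! Walks from almost real walks (limit of extensions). -/

set_option autoImplicit false

namespace Pool.Agent.Helper57.TA

open Finset Filter Topology Pool.Agent.Helper69.RK Pool.Agent.Helper31.EC Pool.Agent.Helper31.EC.Sp
open Pool.Agent.Helper31.EC.QS

noncomputable section

variable {S : Sp} {β κ : Type} [Fintype β] [Fintype κ]

/-- A NEAR WALK of scale `s`: the displacement has `ℓ` free digits up to `θ`; the exponents of the transport are in `M` -/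
structure NWalk (D : Dat S β κ) (s : ℝ) (M : Finset (κ →₀ ℕ)) (ℓ θ : ℝ) extends Pair D s where
  om : W.L
  p : MvPolynomial κ (QS W)
  supp : p.support ⊆ M
  ind : I om (P0.map D.inf) (P0.map D.qi) = 0
  kn : ∀ a, dg (ξ a) 1 ≤ om ⊔ P0.map D.qi
  pk : p ∈ PK (om ⊔ P0.map D.qi)
  hp : P1.qs D.z - P0.qs D.z - MvPolynomial.eval (fun k => P0.qs (D.R k)) p ∈ Id W (D.w * s)
  near : Fintype.card (β ⊕ κ) * ℓ - θ ≤ h (vd ξ ℓ) (P0.map D.inf)

/-- (T) for near walks -/
def NWalk.T {D : Dat S β κ} {s : ℝ} {M : Finset (κ →₀ ℕ)} {ℓ θ : ℝ} (k : NWalk D s M ℓ θ) : Prop :=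
  ∀ l, k.P1.qs (D.c l) - k.P0.qs (D.c l) -
    MvPolynomial.eval (fun i => k.P0.qs (D.R i)) (MvPolynomial.pderiv l k.p) ∈ Id k.W (D.w * s)

open Classical in
theorem eq_sum_of_support {σ A : Type*} [CommRing A] (p : MvPolynomial σ A) (M : Finset (σ →₀ ℕ))
    (h : p.support ⊆ M) : p = ∑ m ∈ M, MvPolynomial.monomial m (p.coeff m) := by
  conv_lhs => rw [p.as_sum]
  apply Finset.sum_subset h
  intro m _ hm
  rw [MvPolynomial.notMem_support_iff.mp hm, MvPolynomial.monomial_zero]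

variable {D : Dat S β κ} {s : ℝ} {M : Finset (κ →₀ ℕ)} {ℓ : ℝ}

/-- the basic functions of a sequence of near walks -/
def wfn (k : ∀ j : ℕ, NWalk D s M ℓ (1 / ((j : ℝ) + 1))) : (β ⊕ κ) ⊕ {m // m ∈ M} → ∀ j, TR (k j).W :=
  fun i j => Sum.elim (fun a => rep ((k j).ξ a)) (fun m => rep ((k j).p.coeff m.1)) i

section lim

variable (k : ∀ j : ℕ, NWalk D s M ℓ (1 / ((j : ℝ) + 1)))

/-- the diagonal of the displacement -/
def xiD (c : DJ (fun j => (k j).W) (wfn k)) (a : β ⊕ κ) : QS c.sp := QS.mk (c.fn (wfn k (Sum.inl a)) (c.hb _))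

open Classical in
/-- the diagonal of the coefficients -/
def cfD (c : DJ (fun j => (k j).W) (wfn k)) (m : κ →₀ ℕ) : QS c.sp :=
  if h : m ∈ M then QS.mk (c.fn (wfn k (Sum.inr ⟨m, h⟩)) (c.hb _)) else 0

theorem xiD_rp (a : β ⊕ κ) : Rp (wfn k) (fun j => (k j).ξ a) (fun c => xiD k c a) := by
  have h := Rp.base (b := wfn k) (Sum.inl a)
  have e : (fun j => QS.mk (wfn k (Sum.inl a) j)) = fun j => (k j).ξ a := funext fun j => mk_rep _
  rw [e] at h
  exact h

theorem cfD_rp (m : κ →₀ ℕ) : Rp (wfn k) (fun j => (k j).p.coeff m) (fun c => cfD k c m) := by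
  classical
  by_cases hm : m ∈ M
  · have h := Rp.base (b := wfn k) (Sum.inr ⟨m, hm⟩)
    have e : (fun j => QS.mk (wfn k (Sum.inr ⟨m, hm⟩) j)) = fun j => (k j).p.coeff m := funext fun j => mk_rep _
    rw [e] at h
    have e2 : (fun c => cfD k c m) =
        fun c : DJ (fun j => (k j).W) (wfn k) => QS.mk (c.fn (wfn k (Sum.inr ⟨m, hm⟩)) (c.hb _)) := by
      funext c
      exact dif_pos hm
    rw [e2]
    exact h
  · have e : (fun j => (k j).p.coeff m) = fun _ => 0 := by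
      funext j
      exact MvPolynomial.notMem_support_iff.mp fun h => hm ((k j).supp h)
    have e2 : (fun c : DJ (fun j => (k j).W) (wfn k) => cfD k c m) = fun _ => 0 := by
      funext c
      exact dif_neg hm
    rw [e, e2]
    exact Rp.zero

/-- the diagonal of the transport polynomials -/
def pD (c : DJ (fun j => (k j).W) (wfn k)) : MvPolynomial κ (QS c.sp) :=
  ∑ m ∈ M, MvPolynomial.monomial m (cfD k c m)

open Classical in
theorem coeff_pD (c : DJ (fun j => (k j).W) (wfn k)) (m : κ →₀ ℕ) : (pD k c).coeff m = cfD k c m := by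
  unfold pD
  rw [MvPolynomial.coeff_sum]
  simp only [MvPolynomial.coeff_monomial]
  rw [Finset.sum_ite_eq' M m]
  by_cases hm : m ∈ M
  · rw [if_pos hm]
  · rw [if_neg hm]
    unfold cfD
    rw [dif_neg hm]

theorem pD_rp {x : κ → ∀ j, QS (k j).W} {X : κ → ∀ c : DJ (fun j => (k j).W) (wfn k), QS c.sp}
    (h : ∀ a, Rp (wfn k) (x a) (X a)) :
    Rp (wfn k) (fun j => MvPolynomial.eval (fun a => x a j) (k j).p)
      (fun c => MvPolynomial.eval (fun a => X a c) (pD k c)) := by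
  have h1 := Rp.evalM (b := wfn k) M (C := fun m j => (k j).p.coeff m) (C' := fun m c => cfD k c m)
    (fun m _ => cfD_rp k m) h
  have e : (fun j => MvPolynomial.eval (fun a => x a j) (∑ m ∈ M, MvPolynomial.monomial m ((k j).p.coeff m))) =
      fun j => MvPolynomial.eval (fun a => x a j) (k j).p := by
    funext j
    rw [← eq_sum_of_support _ _ (k j).supp]
  beta_reduce at h1
  rw [e] at h1
  exact h1

theorem pD_rp' (l : κ) {x : κ → ∀ j, QS (k j).W} {X : κ → ∀ c : DJ (fun j => (k j).W) (wfn k), QS c.sp}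
    (h : ∀ a, Rp (wfn k) (x a) (X a)) :
    Rp (wfn k) (fun j => MvPolynomial.eval (fun a => x a j) (MvPolynomial.pderiv l (k j).p))
      (fun c => MvPolynomial.eval (fun a => X a c) (MvPolynomial.pderiv l (pD k c))) := by
  have e : ∀ (T : Sp) (y : κ → QS T) (C : (κ →₀ ℕ) → QS T),
      MvPolynomial.eval y (MvPolynomial.pderiv l (∑ m ∈ M, MvPolynomial.monomial m (C m))) =
      ∑ m ∈ M, C m * (m l : QS T) * ∏ a, y a ^ (m - Finsupp.single l 1 : κ →₀ ℕ) a := by
    intro T y C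
    rw [map_sum, map_sum]
    apply Finset.sum_congr rfl
    intro m _
    rw [MvPolynomial.pderiv_monomial, MvPolynomial.eval_monomial, Finsupp.prod_fintype _ _ fun _ => pow_zero _]
  have e1 : (fun j => MvPolynomial.eval (fun a => x a j) (MvPolynomial.pderiv l (k j).p)) =
      fun j => ∑ m ∈ M, (k j).p.coeff m * (m l : QS (k j).W) * ∏ a, x a j ^ (m - Finsupp.single l 1 : κ →₀ ℕ) a := by
    funext j
    rw [← e]
    congr 2
    exact eq_sum_of_support _ _ (k j).supp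
  have e2 : (fun c => MvPolynomial.eval (fun a => X a c) (MvPolynomial.pderiv l (pD k c))) =
      fun c => ∑ m ∈ M, cfD k c m * (m l : QS c.sp) * ∏ a, X a c ^ (m - Finsupp.single l 1 : κ →₀ ℕ) a := by
    funext c
    exact e _ _ _
  rw [e1, e2]
  exact Rp.sum _ fun m _ => ((cfD_rp k m).mul (Rp.natC _)).mul (Rp.prod _ fun a _ => (h a).pow _)

end lim

/-- `I` passes to the diagonal -/
theorem lim_I {W : ℕ → Sp} {ι : Type} {b : ι → ∀ j, TR (W j)} {c : DJ W b} {x y z : ∀ j, (W j).L} {X Y Z : c.sp.L}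
    (h1 : Tendsto (fun k => h (x (c.J k)) (z (c.J k))) UF (𝓝 (h X Z)))
    (h2 : Tendsto (fun k => h (x (c.J k)) (y (c.J k) ⊔ z (c.J k))) UF (𝓝 (h X (Y ⊔ Z))))
    (h0 : ∀ j, I (x j) (y j) (z j) = 0) : I X Y Z = 0 := by
  rw [I_eq]
  have h3 := h1.sub h2
  have h4 : (fun k => h (x (c.J k)) (z (c.J k)) - h (x (c.J k)) (y (c.J k) ⊔ z (c.J k))) = fun _ => 0 := by
    funext k
    rw [← I_eq, h0]
  rw [h4] at h3
  exact tendsto_nhds_unique h3 tendsto_const_nhds

/-- the diagonal of near walks: relations and entropies -/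
theorem walk_data (hws : D.w * s ≤ 1) (hvs : ∀ l, (D.w - D.wv l) * s ≤ 1) (hℓ1 : ℓ ≤ 1)
    (k : ∀ j : ℕ, NWalk D s M ℓ (1 / ((j : ℝ) + 1))) :
    ∃ c : DJ (fun j => (k j).W) (wfn k),
      (∀ a : β, (c.pj fun j => (k j).P1).qs (D.q a) = (c.pj fun j => (k j).P0).qs (D.q a) +
        sc c.sp (D.wt (Sum.inl a) * s) * xiD k c (Sum.inl a)) ∧
      (∀ l : κ, (c.pj fun j => (k j).P1).qs (D.R l) - ((c.pj fun j => (k j).P0).qs (D.R l) +
        MvPolynomial.eval (fun a => sc c.sp (D.wt (Sum.inl a) * s) * xiD k c (Sum.inl a))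
          (MvPolynomial.map (c.pj fun j => (k j).P0).qs (D.Pj l)) +
          sc c.sp (D.wt (Sum.inr l) * s) * xiD k c (Sum.inr l)) ∈ Id c.sp (D.w * s)) ∧
      ((c.pj fun j => (k j).P1).qs D.z - (c.pj fun j => (k j).P0).qs D.z -
        MvPolynomial.eval (fun a => sc c.sp (D.wt a * s) * xiD k c a)
          (MvPolynomial.map (c.pj fun j => (k j).P0).qs D.J) ∈ Id c.sp (D.w * s)) ∧
      ((c.pj fun j => (k j).P1).qs D.z - (c.pj fun j => (k j).P0).qs D.z -
        MvPolynomial.eval (fun a => (c.pj fun j => (k j).P0).qs (D.R a)) (pD k c) ∈ Id c.sp (D.w * s)) ∧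
      ((∀ j, (k j).T) → ∀ l, (c.pj fun j => (k j).P1).qs (D.c l) - (c.pj fun j => (k j).P0).qs (D.c l) -
        MvPolynomial.eval (fun a => (c.pj fun j => (k j).P0).qs (D.R a)) (MvPolynomial.pderiv l (pD k c)) ∈
          Id c.sp (D.w * s)) ∧
      ((∀ j, (k j).toPair.RC) → ∀ l, (c.pj fun j => (k j).P1).qs (D.c l) -
        MvPolynomial.eval (fun a => sc c.sp (D.wt a * s) * xiD k c a)
          (MvPolynomial.map (c.pj fun j => (k j).P0).qs (MvPolynomial.pderiv (Sum.inr l) D.J)) ∈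
          Id c.sp ((D.w - D.wv l) * s)) ∧
      Tendsto (fun i => h (vd (k (c.J i)).ξ 1 ⊔ M.sup fun m => dg ((k (c.J i)).p.coeff m) 1)
        ((k (c.J i)).P0.map D.qi)) UF
        (𝓝 (h (vd (xiD k c) 1 ⊔ M.sup fun m => dg (cfD k c m) 1) ((c.pj fun j => (k j).P0).map D.qi))) ∧
      Tendsto (fun i => h (vd (k (c.J i)).ξ 1 ⊔ M.sup fun m => dg ((k (c.J i)).p.coeff m) 1)
        ((k (c.J i)).P0.map D.inf ⊔ (k (c.J i)).P0.map D.qi)) UF
        (𝓝 (h (vd (xiD k c) 1 ⊔ M.sup fun m => dg (cfD k c m) 1)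
          ((c.pj fun j => (k j).P0).map D.inf ⊔ (c.pj fun j => (k j).P0).map D.qi))) ∧
      Tendsto (fun i => h (vd (k (c.J i)).ξ ℓ) ((k (c.J i)).P0.map D.inf)) UF
        (𝓝 (h (vd (xiD k c) ℓ) ((c.pj fun j => (k j).P0).map D.inf))) := by
  classical
  set b := wfn k with hb
  have r0 : ∀ f : QS S, Rp b (fun j => (k j).P0.qs f) (fun c => (c.pj fun j => (k j).P0).qs f) :=
    fun f => Rp.pull (fun j => (k j).P0) f
  have r1 : ∀ f : QS S, Rp b (fun j => (k j).P1.qs f) (fun c => (c.pj fun j => (k j).P1).qs f) :=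
    fun f => Rp.pull (fun j => (k j).P1) f
  have rx : ∀ (a : β ⊕ κ) (u : ℝ), Rp b (fun j => sc (k j).W u * (k j).ξ a) (fun c => sc c.sp u * xiD k c a) :=
    fun a u => (Rp.scl u).mul (xiD_rp k a)
  have rR : ∀ a : κ, Rp b (fun j => (k j).P0.qs (D.R a)) (fun c => (c.pj fun j => (k j).P0).qs (D.R a)) :=
    fun a => r0 _
  have R1 : ∀ a : β, Rp b
      (fun j => (k j).P1.qs (D.q a) - ((k j).P0.qs (D.q a) + sc (k j).W (D.wt (Sum.inl a) * s) * (k j).ξ (Sum.inl a)))
      (fun c => (c.pj fun j => (k j).P1).qs (D.q a) - ((c.pj fun j => (k j).P0).qs (D.q a) +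
        sc c.sp (D.wt (Sum.inl a) * s) * xiD k c (Sum.inl a))) :=
    fun a => (r1 _).sub ((r0 _).add (rx _ _))
  have R2 : ∀ l : κ, Rp b
      (fun j => (k j).P1.qs (D.R l) - ((k j).P0.qs (D.R l) +
        MvPolynomial.eval (fun a => sc (k j).W (D.wt (Sum.inl a) * s) * (k j).ξ (Sum.inl a))
          (MvPolynomial.map (k j).P0.qs (D.Pj l)) + sc (k j).W (D.wt (Sum.inr l) * s) * (k j).ξ (Sum.inr l)))
      (fun c => (c.pj fun j => (k j).P1).qs (D.R l) - ((c.pj fun j => (k j).P0).qs (D.R l) +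
        MvPolynomial.eval (fun a => sc c.sp (D.wt (Sum.inl a) * s) * xiD k c (Sum.inl a))
          (MvPolynomial.map (c.pj fun j => (k j).P0).qs (D.Pj l)) +
          sc c.sp (D.wt (Sum.inr l) * s) * xiD k c (Sum.inr l))) :=
    fun l => (r1 _).sub (((r0 _).add (Rp.eval (fun j => (k j).P0) (D.Pj l) fun a => rx _ _)).add (rx _ _))
  have R3 : Rp b
      (fun j => (k j).P1.qs D.z - (k j).P0.qs D.z - MvPolynomial.eval (fun a => sc (k j).W (D.wt a * s) * (k j).ξ a)
        (MvPolynomial.map (k j).P0.qs D.J))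
      (fun c => (c.pj fun j => (k j).P1).qs D.z - (c.pj fun j => (k j).P0).qs D.z -
        MvPolynomial.eval (fun a => sc c.sp (D.wt a * s) * xiD k c a)
          (MvPolynomial.map (c.pj fun j => (k j).P0).qs D.J)) :=
    ((r1 _).sub (r0 _)).sub (Rp.eval (fun j => (k j).P0) D.J fun a => rx _ _)
  have R4 : Rp b
      (fun j => (k j).P1.qs D.z - (k j).P0.qs D.z - MvPolynomial.eval (fun a => (k j).P0.qs (D.R a)) (k j).p)
      (fun c => (c.pj fun j => (k j).P1).qs D.z - (c.pj fun j => (k j).P0).qs D.z -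
        MvPolynomial.eval (fun a => (c.pj fun j => (k j).P0).qs (D.R a)) (pD k c)) :=
    ((r1 _).sub (r0 _)).sub (pD_rp k rR)
  have R5 : ∀ l : κ, Rp b
      (fun j => (k j).P1.qs (D.c l) - (k j).P0.qs (D.c l) -
        MvPolynomial.eval (fun a => (k j).P0.qs (D.R a)) (MvPolynomial.pderiv l (k j).p))
      (fun c => (c.pj fun j => (k j).P1).qs (D.c l) - (c.pj fun j => (k j).P0).qs (D.c l) -
        MvPolynomial.eval (fun a => (c.pj fun j => (k j).P0).qs (D.R a)) (MvPolynomial.pderiv l (pD k c))) :=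
    fun l => ((r1 _).sub (r0 _)).sub (pD_rp' k l rR)
  have R6 : ∀ l : κ, Rp b
      (fun j => (k j).P1.qs (D.c l) - MvPolynomial.eval (fun a => sc (k j).W (D.wt a * s) * (k j).ξ a)
        (MvPolynomial.map (k j).P0.qs (MvPolynomial.pderiv (Sum.inr l) D.J)))
      (fun c => (c.pj fun j => (k j).P1).qs (D.c l) -
        MvPolynomial.eval (fun a => sc c.sp (D.wt a * s) * xiD k c a)
          (MvPolynomial.map (c.pj fun j => (k j).P0).qs (MvPolynomial.pderiv (Sum.inr l) D.J))) :=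
    fun l => (r1 _).sub (Rp.eval (fun j => (k j).P0) _ fun a => rx _ _)
  set lev : β ⊕ (κ ⊕ (Unit ⊕ (Unit ⊕ (κ ⊕ κ)))) → ℝ := Sum.elim (fun _ => 1) (Sum.elim (fun _ => D.w * s)
    (Sum.elim (fun _ => D.w * s) (Sum.elim (fun _ => D.w * s) (Sum.elim
      (fun _ => if ∀ j, (k j).T then D.w * s else 0)
      (fun l => if ∀ j, (k j).toPair.RC then (D.w - D.wv l) * s else 0))))) with hlev
  -- the informations
  have lq : Lm b (fun j => (k j).P0.map D.qi) (fun c => (c.pj fun j => (k j).P0).map D.qi) :=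
    Lm.pull (fun j => (k j).P0) _
  have li : Lm b (fun j => (k j).P0.map D.inf) (fun c => (c.pj fun j => (k j).P0).map D.inf) :=
    Lm.pull (fun j => (k j).P0) _
  have lx : ∀ r : ℝ, r ≤ 1 → Lm b (fun j => vd (k j).ξ r) (fun c => vd (xiD k c) r) :=
    fun r hr => Lm.vdg (xiD_rp k) hr
  have lo : Lm b (fun j => vd (k j).ξ 1 ⊔ M.sup fun m => dg ((k j).p.coeff m) 1)
      (fun c => vd (xiD k c) 1 ⊔ M.sup fun m => dg (cfD k c m) 1) :=
    (lx 1 le_rfl).sup (Lm.fsup _ fun m _ => Lm.dig (cfD_rp k m) le_rfl)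
  obtain ⟨c, hc1, hc2⟩ := diag_main (W := fun j => (k j).W) b
    (ρ := β ⊕ (κ ⊕ (Unit ⊕ (Unit ⊕ (κ ⊕ κ)))))
    (Sum.elim (fun a j => _) (Sum.elim (fun l j => _) (Sum.elim (fun _ j => _) (Sum.elim (fun _ j => _)
      (Sum.elim (fun l j => _) (fun l j => _))))))
    (Sum.elim (fun a c => _) (Sum.elim (fun l c => _) (Sum.elim (fun _ c => _) (Sum.elim (fun _ c => _)
      (Sum.elim (fun l c => _) (fun l c => _))))))
    (by
      rintro (a | l | _ | _ | l | l)
      · exact R1 a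
      · exact R2 l
      · exact R3
      · exact R4
      · exact R5 l
      · exact R6 l)
    lev
    (by
      rintro (a | l | _ | _ | l | l)
      · exact le_rfl
      · exact hws
      · exact hws
      · exact hws
      · show (if ∀ j, (k j).T then D.w * s else 0) ≤ 1
        split_ifs
        · exact hws
        · exact zero_le_one
      · show (if ∀ j, (k j).toPair.RC then (D.w - D.wv l) * s else 0) ≤ 1
        split_ifs
        · exact hvs l
        · exact zero_le_one)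
    (by
      rintro (a | l | _ | _ | l | l) j
      · show _ - _ ∈ Id (k j).W 1
        rw [(k j).dq a, sub_self]
        exact Ideal.zero_mem _
      · exact (k j).dR l
      · exact (k j).hW
      · exact (k j).hp
      · show _ ∈ Id (k j).W (if ∀ j, (k j).T then D.w * s else 0)
        split_ifs with h
        · exact h j l
        · exact mem_Id_nonpos le_rfl
      · show _ ∈ Id (k j).W (if ∀ j, (k j).toPair.RC then (D.w - D.wv l) * s else 0)
        split_ifs with h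
        · have h1 := h j l
          rw [MvPolynomial.pderiv_map] at h1
          exact h1
        · exact mem_Id_nonpos le_rfl)
    (η := Fin 3)
    ![fun j => vd (k j).ξ 1 ⊔ M.sup fun m => dg ((k j).p.coeff m) 1,
      fun j => vd (k j).ξ 1 ⊔ M.sup fun m => dg ((k j).p.coeff m) 1, fun j => vd (k j).ξ ℓ]
    ![fun j => (k j).P0.map D.qi, fun j => (k j).P0.map D.inf ⊔ (k j).P0.map D.qi, fun j => (k j).P0.map D.inf]
    ![fun c => vd (xiD k c) 1 ⊔ M.sup fun m => dg (cfD k c m) 1,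
      fun c => vd (xiD k c) 1 ⊔ M.sup fun m => dg (cfD k c m) 1, fun c => vd (xiD k c) ℓ]
    ![fun c => (c.pj fun j => (k j).P0).map D.qi,
      fun c => (c.pj fun j => (k j).P0).map D.inf ⊔ (c.pj fun j => (k j).P0).map D.qi,
      fun c => (c.pj fun j => (k j).P0).map D.inf]
    (by
      intro e
      fin_cases e
      · exact lo
      · exact lo
      · exact lx ℓ hℓ1)
    (by
      intro e
      fin_cases e
      · exact lq
      · exact li.sup lq
      · exact li)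
  refine ⟨c, fun a => sub_eq_zero.mp (mem_Id_one.mp (hc1 (Sum.inl a))), fun l => hc1 (Sum.inr (Sum.inl l)),
    hc1 (Sum.inr (Sum.inr (Sum.inl ()))), hc1 (Sum.inr (Sum.inr (Sum.inr (Sum.inl ())))), fun h l => ?_,
    fun h l => ?_, hc2 0, hc2 1, hc2 2⟩
  · have h1 := hc1 (Sum.inr (Sum.inr (Sum.inr (Sum.inr (Sum.inl l)))))
    have h2 : lev (Sum.inr (Sum.inr (Sum.inr (Sum.inr (Sum.inl l))))) = D.w * s := if_pos h
    rw [h2] at h1
    exact h1
  · have h1 := hc1 (Sum.inr (Sum.inr (Sum.inr (Sum.inr (Sum.inr l)))))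
    have h2 : lev (Sum.inr (Sum.inr (Sum.inr (Sum.inr (Sum.inr l))))) = (D.w - D.wv l) * s := if_pos h
    rw [h2] at h1
    exact h1

/-- WALKS FROM NEAR WALKS -/
theorem walk_lim (hws : D.w * s ≤ 1) (hvs : ∀ l, (D.w - D.wv l) * s ≤ 1) (hℓ0 : 0 < ℓ) (hℓ1 : ℓ ≤ 1)
    (k : ∀ j : ℕ, NWalk D s M ℓ (1 / ((j : ℝ) + 1))) :
    ∃ k' : Walk D s, ((∀ j, (k j).T) → k'.T) ∧ ((∀ j, (k j).toPair.RC) → k'.RC) := by
  classical
  obtain ⟨c, h1, h2, h3, h4, h5, h6, e0, e1, e2⟩ := walk_data hws hvs hℓ1 k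
  set om : c.sp.L := vd (xiD k c) 1 ⊔ M.sup fun m => dg (cfD k c m) 1 with hom
  have hle : ∀ j, vd (k j).ξ 1 ⊔ (M.sup fun m => dg ((k j).p.coeff m) 1) ≤ (k j).om ⊔ (k j).P0.map D.qi := by
    intro j
    refine sup_le ((vd_le _ _ _).mpr fun a => (k j).kn a) (Finset.sup_le fun m _ => (k j).pk m)
  have hind : I om ((c.pj fun j => (k j).P0).map D.inf) ((c.pj fun j => (k j).P0).map D.qi) = 0 := by
    refine lim_I (x := fun j => vd (k j).ξ 1 ⊔ M.sup fun m => dg ((k j).p.coeff m) 1)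
      (y := fun j => (k j).P0.map D.inf) (z := fun j => (k j).P0.map D.qi) e0 e1 fun j => ?_
    exact I_zero_mono (k j).ind (hle j) le_sup_left
  have hreal : Rt ℓ (xiD k c) ((c.pj fun j => (k j).P0).map D.inf) := by
    have g1 : Tendsto (fun j => 1 / ((c.J j : ℝ) + 1)) UF (𝓝 0) :=
      tendsto_one_div_add_atTop_nhds_zero_nat.comp c.hJ
    have g2 := g1.const_sub (Fintype.card (β ⊕ κ) * ℓ)
    rw [sub_zero] at g2
    have g3 : Fintype.card (β ⊕ κ) * ℓ ≤ h (vd (xiD k c) ℓ) ((c.pj fun j => (k j).P0).map D.inf) :=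
      le_of_tendsto_of_tendsto g2 e2 (Eventually.of_forall fun j => (k (c.J j)).near)
    refine le_antisymm ?_ g3
    have g4 := h_sup_dg_le (xiD k c) Finset.univ hℓ0.le ((c.pj fun j => (k j).P0).map D.inf)
    rwa [Finset.card_univ] at g4
  have hxk : ∀ a, dg (xiD k c a) 1 ≤ om := fun a => (dg_le_vd _ 1 a).trans le_sup_left
  have hpk : pD k c ∈ PK om := by
    intro m
    rw [coeff_pD]
    by_cases hm : m ∈ M
    · exact (Finset.le_sup (f := fun m => dg (cfD k c m) 1) hm).trans le_sup_right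
    · unfold cfD
      rw [dif_neg hm]
      exact (Kn c.sp 1 le_rfl _).zero_mem
  refine ⟨⟨⟨c.sp, c.pj fun j => (k j).P0, c.pj fun j => (k j).P1, xiD k c, h1, h2, h3⟩, om, pD k c, hind,
    fun a => (hxk a).trans le_sup_left, PK_mono le_sup_left hpk, h4, ℓ, hℓ0, hℓ1, hreal⟩, fun h => h5 h,
    fun h l => ?_⟩
  have h7 := h6 h l
  rw [← MvPolynomial.pderiv_map] at h7
  exact h7

/-- walks from near walks for every tolerance (fixed `M`, `ℓ`) -/
theorem walk_of_near (hs : 0 ≤ s) (hws : D.w * s ≤ 1) (hℓ0 : 0 < ℓ) (hℓ1 : ℓ ≤ 1)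
    (hex : ∀ θ : ℝ, 0 < θ → ∃ k : NWalk D s M ℓ θ, k.T ∧ k.toPair.RC) : ∃ k : Walk D s, k.T ∧ k.RC := by
  have hpos : ∀ j : ℕ, (0 : ℝ) < 1 / ((j : ℝ) + 1) := fun j => by positivity
  choose k hk using fun j : ℕ => hex _ (hpos j)
  obtain ⟨k', h1, h2⟩ := walk_lim hws (fun l => (mul_le_mul_of_nonneg_right
    (sub_le_self _ (D.wpos (Sum.inr l)).le) hs).trans hws) hℓ0 hℓ1 k
  exact ⟨k', h1 fun j => (hk j).1, h2 fun j => (hk j).2⟩

end

end Pool.Agent.Helper57.TA
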